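import Mathlib

set_option autoImplicit false

open Filter Topology

namespace Pool.Agent.Helper37_Frob

attribute [local instance] Ultrafilter.add Ultrafilter.addSemigroup

section ulim

variable {α : Type*}

/-- A bounded real function has a limit along every ultrafilter. -/
theorem exists_ulim (p : Ultrafilter α) (f : α → ℝ) (C : ℝ) (hf : ∀ a, |f a| ≤ C) :
    ∃ L : ℝ, Tendsto f p (𝓝 L) := by
  have hc : IsCompact (Set.Icc (-C) C) := isCompact_Icc
  have h1 : (p.map f : Filter ℝ) ≤ 𝓟 (Set.Icc (-C) C) := by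
    rw [le_principal_iff]
    have : ∀ a, f a ∈ Set.Icc (-C) C := fun a => abs_le.mp (hf a)
    exact Filter.mem_map.mpr (Filter.Eventually.of_forall this)
  obtain ⟨L, _, hL⟩ := hc.ultrafilter_le_nhds (p.map f) h1
  exact ⟨L, hL⟩

end ulim

/-- A totally bounded translation invariant pseudometric on the integers, given by its norm. -/
structure BohrNorm (ρ : ℤ → ℝ) : Prop where
  nonneg : ∀ k, 0 ≤ ρ k
  zero : ρ 0 = 0
  neg : ∀ k, ρ (-k) = ρ k
  add : ∀ k l, ρ (k + l) ≤ ρ k + ρ l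
  tb : ∀ δ : ℝ, 0 < δ → ∃ A : Finset ℤ, ∀ k : ℤ, ∃ a ∈ A, ρ (k - a) < δ

section hilb

variable {H : Type*} [NormedAddCommGroup H] [InnerProductSpace ℝ H] [CompleteSpace H]
variable {α : Type*}

/-- Weak limits along ultrafilters. -/
theorem exists_wlim (p : Ultrafilter α) (x : α → H) (C : ℝ) (hC : ∀ a, ‖x a‖ ≤ C) :
    ∃ y : H, ∀ z : H, Tendsto (fun a => inner ℝ (x a) z) p (𝓝 (inner ℝ y z)) := by
  have hb : ∀ z : H, ∃ L : ℝ, Tendsto (fun a => inner ℝ (x a) z) p (𝓝 L) := by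
    intro z
    refine exists_ulim p _ (C * ‖z‖) ?_
    intro a
    calc |inner ℝ (x a) z| ≤ ‖x a‖ * ‖z‖ := abs_real_inner_le_norm _ _
      _ ≤ C * ‖z‖ := by gcongr; exact hC a
  choose L hL using hb
  let ℓ : H →ₗ[ℝ] ℝ :=
    { toFun := L
      map_add' := by
        intro z w
        refine tendsto_nhds_unique (hL (z + w)) ?_
        have := (hL z).add (hL w)
        refine this.congr ?_
        intro a
        rw [inner_add_right]
      map_smul' := by
        intro c z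
        refine tendsto_nhds_unique (hL (c • z)) ?_
        have := (hL z).const_mul c
        refine this.congr ?_
        intro a
        rw [real_inner_smul_right] }
  have hbound : ∀ z, ‖ℓ z‖ ≤ C * ‖z‖ := by
    intro z
    refine le_of_tendsto (hL z).norm (Eventually.of_forall ?_)
    intro a
    calc ‖inner ℝ (x a) z‖ ≤ ‖x a‖ * ‖z‖ := norm_inner_le_norm _ _
      _ ≤ C * ‖z‖ := by gcongr; exact hC a
  let ℓ' : StrongDual ℝ H := ℓ.mkContinuous C hbound
  refine ⟨(InnerProductSpace.toDual ℝ H).symm ℓ', ?_⟩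
  intro z
  have : inner ℝ ((InnerProductSpace.toDual ℝ H).symm ℓ') z = ℓ' z := by
    rw [InnerProductSpace.toDual_symm_apply]
  rw [this]
  exact hL z

variable (T : ℤ → H →ₗᵢ[ℝ] H)

/-- The weak limit of the orbit of a vector along an ultrafilter. -/
noncomputable def wl (p : Ultrafilter ℤ) (x : H) : H :=
  Classical.choose (exists_wlim p (fun a => T a x) ‖x‖ (fun a => le_of_eq ((T a).norm_map x)))

theorem wl_spec (p : Ultrafilter ℤ) (x z : H) :
    Tendsto (fun a => inner ℝ (T a x) z) p (𝓝 (inner ℝ (wl T p x) z)) :=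
  Classical.choose_spec
    (exists_wlim p (fun a => T a x) ‖x‖ (fun a => le_of_eq ((T a).norm_map x))) z

theorem wl_norm_le (p : Ultrafilter ℤ) (x : H) : ‖wl T p x‖ ≤ ‖x‖ := by
  have h := wl_spec T p x (wl T p x)
  have h2 : inner ℝ (wl T p x) (wl T p x) ≤ ‖x‖ * ‖wl T p x‖ := by
    refine le_of_tendsto h (Eventually.of_forall ?_)
    intro a
    calc inner ℝ (T a x) (wl T p x) ≤ ‖T a x‖ * ‖wl T p x‖ := real_inner_le_norm _ _
      _ = ‖x‖ * ‖wl T p x‖ := by rw [(T a).norm_map]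
  rw [real_inner_self_eq_norm_mul_norm] at h2
  by_cases h0 : ‖wl T p x‖ = 0
  · rw [h0]; exact norm_nonneg _
  · have hpos : 0 < ‖wl T p x‖ := lt_of_le_of_ne (norm_nonneg _) (Ne.symm h0)
    exact le_of_mul_le_mul_right h2 hpos

theorem wl_pure (a : ℤ) (x : H) : wl T (pure a) x = T a x := by
  refine ext_inner_right ℝ ?_
  intro z
  have h := wl_spec T (pure a) x z
  have h' : Tendsto (fun b => inner ℝ (T b x) z) ((pure a : Ultrafilter ℤ) : Filter ℤ)
      (𝓝 (inner ℝ (T a x) z)) := by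
    rw [Ultrafilter.coe_pure]
    exact tendsto_pure_nhds _ _
  exact tendsto_nhds_unique h h'

variable (hT0 : ∀ x, T 0 x = x) (hTadd : ∀ a b x, T (a + b) x = T a (T b x))

include hT0 hTadd in
theorem T_adj (a : ℤ) (x y : H) : inner ℝ (T a x) y = inner ℝ x (T (-a) y) := by
  have h1 : x = T (-a) (T a x) := by
    rw [← hTadd, neg_add_cancel, hT0]
  conv_rhs => rw [h1]
  rw [(T (-a)).inner_map_map]

include hT0 hTadd in
theorem wl_add (p q : Ultrafilter ℤ) (x : H) : wl T (p + q) x = wl T p (wl T q x) := by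
  refine ext_inner_right ℝ ?_
  intro z
  by_contra hne
  set A := inner ℝ (wl T (p + q) x) z with hA
  set B := inner ℝ (wl T p (wl T q x)) z with hB
  have hd : 0 < |A - B| / 2 := by
    have : A - B ≠ 0 := sub_ne_zero.mpr hne
    positivity
  set δ := |A - B| / 2 with hδ
  have h1 := wl_spec T (p + q) x z
  have h2 := wl_spec T p (wl T q x) z
  rw [Metric.tendsto_nhds] at h1 h2
  have h1' := h1 δ hd
  have h2' := h2 δ hd
  have h1'' : ∀ᶠ a in (p : Filter ℤ), ∀ᶠ b in (q : Filter ℤ),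
      dist (inner ℝ (T (a + b) x) z) A < δ :=
    (Ultrafilter.eventually_add p q _).mp h1'
  obtain ⟨a, ha1, ha2⟩ := (h1''.and h2').exists
  have h3 : Tendsto (fun b => inner ℝ (T (a + b) x) z) q (𝓝 (inner ℝ (T a (wl T q x)) z)) := by
    have := wl_spec T q x (T (-a) z)
    rw [T_adj T hT0 hTadd a]
    refine this.congr ?_
    intro b
    rw [hTadd, T_adj T hT0 hTadd a]
  have h4 : dist (inner ℝ (T a (wl T q x)) z) A ≤ δ := by
    refine le_of_tendsto (h3.dist tendsto_const_nhds) ?_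
    exact ha1.mono (fun b hb => hb.le)
  have h5 : |A - B| < 2 * δ := by
    calc |A - B| = dist A B := (Real.dist_eq A B).symm
      _ ≤ dist A (inner ℝ (T a (wl T q x)) z) + dist (inner ℝ (T a (wl T q x)) z) B :=
          dist_triangle _ _ _
      _ < 2 * δ := by rw [dist_comm A]; linarith
  rw [hδ] at h5
  linarith

/-- For fixed vectors, the map `p ↦ ⟪wl p x, z⟫` is continuous. -/
theorem continuous_wl_inner (x z : H) :
    Continuous (fun p : Ultrafilter ℤ => inner ℝ (wl T p x) z) := by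
  rw [continuous_iff_continuousAt]
  intro p
  rw [ContinuousAt, Metric.tendsto_nhds]
  intro ε hε
  have h1 := wl_spec T p x z
  rw [Metric.tendsto_nhds] at h1
  have h1' := h1 (ε / 2) (by positivity)
  have hopen : IsOpen {q : Ultrafilter ℤ | {a | dist (inner ℝ (T a x) z)
      (inner ℝ (wl T p x) z) < ε / 2} ∈ q} := ultrafilter_isOpen_basic _
  have hmem : {q : Ultrafilter ℤ | {a | dist (inner ℝ (T a x) z)
      (inner ℝ (wl T p x) z) < ε / 2} ∈ q} ∈ 𝓝 p := hopen.mem_nhds h1'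
  filter_upwards [hmem] with q hq
  have h2 := wl_spec T q x z
  have h3 : dist (inner ℝ (wl T q x) z) (inner ℝ (wl T p x) z) ≤ ε / 2 := by
    refine le_of_tendsto (h2.dist tendsto_const_nhds) ?_
    have hq' : ∀ᶠ a in (q : Filter ℤ), dist (inner ℝ (T a x) z)
      (inner ℝ (wl T p x) z) < ε / 2 := hq
    exact hq'.mono (fun b hb => hb.le)
  linarith

theorem isClosed_wl_norm_le (x : H) (c : ℝ) (hc0 : 0 ≤ c) :
    IsClosed {p : Ultrafilter ℤ | ‖wl T p x‖ ≤ c} := by
  have : {p : Ultrafilter ℤ | ‖wl T p x‖ ≤ c} =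
      ⋂ z : H, {p : Ultrafilter ℤ | inner ℝ (wl T p x) z ≤ c * ‖z‖} := by
    ext p
    simp only [Set.mem_ofPred_eq, Set.mem_iInter]
    constructor
    · intro h z
      calc inner ℝ (wl T p x) z ≤ ‖wl T p x‖ * ‖z‖ := real_inner_le_norm _ _
        _ ≤ c * ‖z‖ := by gcongr
    · intro h
      have h2 := h (wl T p x)
      rw [real_inner_self_eq_norm_mul_norm] at h2
      by_cases h0 : ‖wl T p x‖ = 0
      · rw [h0]; exact hc0
      · have hpos : 0 < ‖wl T p x‖ := lt_of_le_of_ne (norm_nonneg _) (Ne.symm h0)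
        exact le_of_mul_le_mul_right h2 hpos
  rw [this]
  refine isClosed_iInter (fun z => ?_)
  exact isClosed_le (continuous_wl_inner T x z) continuous_const

/-- Ultrafilters minimizing the norm of the weak limit. -/
def minSet (x : H) : Set (Ultrafilter ℤ) := {p | ∀ q, ‖wl T p x‖ ≤ ‖wl T q x‖}

theorem isClosed_minSet (x : H) : IsClosed (minSet T x) := by
  have : minSet T x = ⋂ q, {p : Ultrafilter ℤ | ‖wl T p x‖ ≤ ‖wl T q x‖} := by
    ext p
    simp only [minSet, Set.mem_ofPred_eq, Set.mem_iInter]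
  rw [this]
  exact isClosed_iInter (fun q => isClosed_wl_norm_le T x _ (norm_nonneg _))

theorem minSet_nonempty (x : H) : (minSet T x).Nonempty := by
  have : minSet T x = ⋂ q, {p : Ultrafilter ℤ | ‖wl T p x‖ ≤ ‖wl T q x‖} := by
    ext p
    simp only [minSet, Set.mem_ofPred_eq, Set.mem_iInter]
  rw [this]
  refine IsCompact.nonempty_iInter_of_directed_nonempty_isCompact_isClosed _ ?_ ?_ ?_ ?_
  · intro q q'
    rcases le_total ‖wl T q x‖ ‖wl T q' x‖ with h | h
    · refine ⟨q, subset_rfl, ?_⟩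
      intro p hp
      exact le_trans hp h
    · refine ⟨q', ?_, subset_rfl⟩
      intro p hp
      exact le_trans hp h
  · intro q
    exact ⟨q, (le_rfl : ‖wl T q x‖ ≤ ‖wl T q x‖)⟩
  · intro q
    exact (isClosed_wl_norm_le T x _ (norm_nonneg _)).isCompact
  · intro q
    exact isClosed_wl_norm_le T x _ (norm_nonneg _)

/-- Nonprincipal ultrafilters. -/
def freeSet : Set (Ultrafilter ℤ) := {p | ∀ k : ℤ, {v : ℤ | v ≠ k} ∈ p}

theorem isClosed_freeSet : IsClosed freeSet := by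
  have : freeSet = ⋂ k : ℤ, {p : Ultrafilter ℤ | {v : ℤ | v ≠ k} ∈ p} := by
    ext p
    simp only [freeSet, Set.mem_ofPred_eq, Set.mem_iInter]
  rw [this]
  exact isClosed_iInter (fun q => ultrafilter_isClosed_basic _)

theorem freeSet_add (p q : Ultrafilter ℤ) (hp : p ∈ freeSet) : p + q ∈ freeSet := by
  intro k
  by_contra hk
  have hk' : {v : ℤ | v ≠ k}ᶜ ∈ p + q := Ultrafilter.compl_mem_iff_notMem.mpr hk
  have h1 : ∀ᶠ v in ((p + q : Ultrafilter ℤ) : Filter ℤ), v = k := by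
    filter_upwards [hk'] with v hv
    by_contra h
    exact hv h
  have h2 := (Ultrafilter.eventually_add p q _).mp h1
  obtain ⟨a, ha⟩ := h2.exists
  have h3 := h2.and (hp a)
  obtain ⟨b, hb, hba⟩ := h3.exists
  obtain ⟨c, hc1, hc2⟩ := (ha.and hb).exists
  exact hba (by linarith)

theorem freeSet_nonempty : freeSet.Nonempty := by
  refine ⟨Filter.hyperfilter ℤ, ?_⟩
  intro k
  have : {v : ℤ | v ≠ k} ∈ (Filter.cofinite : Filter ℤ) := by
    have : {v : ℤ | v ≠ k} = {k}ᶜ := by ext v; simp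
    rw [this]
    exact (Set.finite_singleton k).compl_mem_cofinite
  exact Filter.hyperfilter_le_cofinite this

include hT0 hTadd in
theorem exists_idem (x : H) : ∃ p : Ultrafilter ℤ, p ∈ minSet T x ∧ p ∈ freeSet ∧ p + p = p := by
  have hadd : ∀ p q : Ultrafilter ℤ, q ∈ minSet T x → p + q ∈ minSet T x := by
    intro p q hq q'
    rw [wl_add T hT0 hTadd]
    exact (wl_norm_le T p _).trans (hq q')
  have h := exists_idempotent_in_compact_add_subsemigroup
    (@Ultrafilter.continuous_add_left ℤ _) (minSet T x ∩ freeSet) ?_ ?_ ?_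
  · obtain ⟨p, hp, hpp⟩ := h
    exact ⟨p, hp.1, hp.2, hpp⟩
  · obtain ⟨q, hq⟩ := minSet_nonempty T x
    obtain ⟨p, hp⟩ := freeSet_nonempty
    exact ⟨p + q, hadd p q hq, freeSet_add p q hp⟩
  · exact ((isClosed_minSet T x).inter isClosed_freeSet).isCompact
  · intro p hp q hq
    exact ⟨hadd p q hq.1, freeSet_add p q hp.2⟩

theorem idem_dvd (p : Ultrafilter ℤ) (hp : p + p = p) (k : ℤ) (hk : k ≠ 0) :
    ∀ᶠ v in (p : Filter ℤ), k ∣ v := by
  -- the residue class
  have hfin : Finite (ZMod k.natAbs) := by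
    have : NeZero k.natAbs := ⟨Int.natAbs_ne_zero.mpr hk⟩
    infer_instance
  obtain ⟨c, hc⟩ : ∃ c : ZMod k.natAbs, (p.map (fun v : ℤ => (v : ZMod k.natAbs))) = pure c := by
    exact Ultrafilter.eq_pure_of_finite _
  have h1 : ∀ᶠ v in (p : Filter ℤ), ((v : ℤ) : ZMod k.natAbs) = c := by
    have : {c} ∈ p.map (fun v : ℤ => (v : ZMod k.natAbs)) := by
      rw [hc]; exact Ultrafilter.mem_pure.mpr rfl
    exact this
  have h2 : ∀ᶠ v in (p : Filter ℤ), ∀ᶠ w in (p : Filter ℤ),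
      ((v + w : ℤ) : ZMod k.natAbs) = c := by
    have h1' := h1
    rw [← hp] at h1'
    exact (Ultrafilter.eventually_add p p _).mp h1'
  obtain ⟨v, hv1, hv2⟩ := (h1.and h2).exists
  obtain ⟨w, hw1, hw2⟩ := (h1.and hv2).exists
  have hc0 : c = 0 := by
    have : c + c = c := by
      rw [Int.cast_add, hv1, hw1] at hw2
      exact hw2
    simpa using this
  filter_upwards [h1] with v hv
  rw [hc0, ZMod.intCast_zmod_eq_zero_iff_dvd] at hv
  exact (Int.natAbs_dvd).mp hv

include hT0 hTadd in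
/-- The main Hilbert space statement. -/
theorem hilbert_main (ξ one : H) (M : ℤ → H →L[ℝ] H)
    (hone : ∀ a, T a one = one) (hM1 : ∀ m, M m one = T m ξ)
    (hMsymm : ∀ m x y, inner ℝ (M m x) y = inner ℝ x (M m y))
    (hMproj : ∀ m x, M m (M m x) = M m x)
    (hpos : 0 < inner ℝ ξ one) :
    ∃ (ρ : ℤ → ℝ) (p : Ultrafilter ℤ) (ε : ℝ), BohrNorm ρ ∧ 0 < ε ∧
      (∀ δ : ℝ, 0 < δ → ∀ᶠ v in (p : Filter ℤ), ρ v < δ) ∧
      (∀ k : ℤ, k ≠ 0 → ∀ᶠ v in (p : Filter ℤ), k ∣ v) ∧
      (∀ k : ℤ, ∀ᶠ v in (p : Filter ℤ), v ≠ k) ∧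
      (∀ m a b : ℤ, ρ m < ε → ρ a < ε → ρ b < ε →
        ∀ᶠ v in (p : Filter ℤ), ∀ᶠ v' in (p : Filter ℤ),
          0 < inner ℝ (M m (T (a + v) ξ)) (T (b + v') ξ)) := by
  obtain ⟨p, hpmin, hpfree, hpp⟩ := exists_idem T hT0 hTadd ξ
  set F := wl T p ξ with hF
  have hF1 : wl T p F = F := by rw [hF, ← wl_add T hT0 hTadd, hpp]
  have hnorm : ∀ q : Ultrafilter ℤ, ‖wl T q F‖ = ‖F‖ := by
    intro q
    refine le_antisymm (wl_norm_le T q F) ?_
    have := hpmin (q + p)
    rw [wl_add T hT0 hTadd] at this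
    exact this
  -- strong convergence along p
  have hstrong : Tendsto (fun v => T v F) p (𝓝 F) := by
    rw [tendsto_iff_norm_sub_tendsto_zero]
    have h1 := wl_spec T p F F
    rw [hF1] at h1
    have h2 : Tendsto (fun v => ‖T v F - F‖ ^ 2) p (𝓝 0) := by
      have h3 : Tendsto (fun v => 2 * ‖F‖ ^ 2 - 2 * inner ℝ (T v F) F) p
          (𝓝 (2 * ‖F‖ ^ 2 - 2 * inner ℝ F F)) := (h1.const_mul 2).const_sub _
      have h4 : 2 * ‖F‖ ^ 2 - 2 * inner ℝ F F = 0 := by
        rw [real_inner_self_eq_norm_sq]; ring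
      rw [h4] at h3
      refine h3.congr ?_
      intro v
      rw [norm_sub_sq_real, (T v).norm_map]; ring
    have h5 := h2.sqrt
    simp only [Real.sqrt_zero] at h5
    refine h5.congr ?_
    intro v
    exact Real.sqrt_sq (norm_nonneg _)
  -- continuity of the orbit map and total boundedness
  have hcont : Continuous (fun q : Ultrafilter ℤ => wl T q F) := by
    rw [continuous_iff_continuousAt]
    intro q
    rw [ContinuousAt, tendsto_iff_norm_sub_tendsto_zero]
    have h1 : Tendsto (fun q' : Ultrafilter ℤ => inner ℝ (wl T q' F) (wl T q F)) (𝓝 q)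
        (𝓝 (inner ℝ (wl T q F) (wl T q F))) :=
      (continuous_wl_inner T F (wl T q F)).continuousAt
    have h2 : Tendsto (fun q' : Ultrafilter ℤ => ‖wl T q' F - wl T q F‖ ^ 2) (𝓝 q) (𝓝 0) := by
      have h3 : Tendsto (fun q' : Ultrafilter ℤ =>
          2 * ‖F‖ ^ 2 - 2 * inner ℝ (wl T q' F) (wl T q F)) (𝓝 q)
          (𝓝 (2 * ‖F‖ ^ 2 - 2 * inner ℝ (wl T q F) (wl T q F))) := (h1.const_mul 2).const_sub _
      have h4 : 2 * ‖F‖ ^ 2 - 2 * inner ℝ (wl T q F) (wl T q F) = 0 := by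
        rw [real_inner_self_eq_norm_sq, hnorm]; ring
      rw [h4] at h3
      refine h3.congr ?_
      intro v
      rw [norm_sub_sq_real, hnorm, hnorm]; ring
    have h5 := h2.sqrt
    simp only [Real.sqrt_zero] at h5
    refine h5.congr ?_
    intro v
    exact Real.sqrt_sq (norm_nonneg _)
  have hcomp : IsCompact (Set.range (fun q : Ultrafilter ℤ => wl T q F)) :=
    isCompact_range hcont
  have htb : TotallyBounded (Set.range (fun a : ℤ => T a F)) := by
    refine hcomp.totallyBounded.subset ?_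
    rintro _ ⟨a, rfl⟩
    exact ⟨pure a, wl_pure T a F⟩
  -- the Bohr norm
  let ρ : ℤ → ℝ := fun k => ‖T k F - F‖
  have hρ : ∀ k, ρ k = ‖T k F - F‖ := fun _ => rfl
  have hρsub : ∀ k a, ρ (k - a) = ‖T k F - T a F‖ := by
    intro k a
    have h1 : T a (T (k - a) F - F) = T k F - T a F := by
      rw [map_sub, ← hTadd]; congr 2; ring_nf
    rw [hρ, ← (T a).norm_map, h1]
  have hBohr : BohrNorm ρ := by
    refine ⟨fun k => norm_nonneg _, ?_, ?_, ?_, ?_⟩
    · rw [hρ, hT0, sub_self, norm_zero]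
    · intro k
      have := hρsub 0 k
      rw [zero_sub, hT0, norm_sub_rev] at this
      exact this
    · intro k l
      have h1 := hρsub k (-l)
      rw [sub_neg_eq_add] at h1
      have h2 := hρsub 0 (-l)
      rw [zero_sub, neg_neg, hT0] at h2
      have h3 : ρ k = ‖T k F - F‖ := rfl
      rw [h1, h2, h3]
      calc ‖T k F - T (-l) F‖ = ‖(T k F - F) + (F - T (-l) F)‖ := by congr 1; abel
        _ ≤ _ := norm_add_le _ _
    · intro δ hδ
      obtain ⟨t, ht1, ht2, ht3⟩ := Metric.finite_approx_of_totallyBounded htb δ hδ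
      classical
      choose! g hg using (fun y (hy : y ∈ t) => ht1 hy)
      refine ⟨ht2.toFinset.image g, ?_⟩
      intro k
      have hk := ht3 ⟨k, rfl⟩
      simp only [Set.mem_iUnion, Metric.mem_ball, exists_prop] at hk
      obtain ⟨y, hy, hky⟩ := hk
      refine ⟨g y, Finset.mem_image.mpr ⟨y, ht2.mem_toFinset.mpr hy, rfl⟩, ?_⟩
      rw [hρsub, ← dist_eq_norm]
      have := hg y hy
      simp only at this
      rw [this]
      exact hky
  -- inner product with translates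
  have hFT : ∀ m, inner ℝ F (T m ξ) = inner ℝ F (T m F) := by
    intro m
    have h1 : ∀ v, inner ℝ F (T m ξ) =
        inner ℝ (T v F - F) (T (v + m) ξ) + inner ℝ (T (v + m) ξ) F := by
      intro v
      rw [real_inner_comm F (T (v + m) ξ), ← inner_add_left, sub_add_cancel, hTadd,
        (T v).inner_map_map]
    have h2 : Tendsto (fun v => inner ℝ (T v F - F) (T (v + m) ξ)) p (𝓝 0) := by
      rw [tendsto_iff_norm_sub_tendsto_zero] at hstrong
      have h3 := hstrong.mul_const ‖ξ‖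
      rw [zero_mul] at h3
      refine squeeze_zero_norm ?_ h3
      intro v
      calc ‖inner ℝ (T v F - F) (T (v + m) ξ)‖ ≤ ‖T v F - F‖ * ‖T (v + m) ξ‖ :=
            norm_inner_le_norm _ _
        _ = _ := by rw [(T (v + m)).norm_map]
    have h4 : Tendsto (fun v => inner ℝ (T (v + m) ξ) F) p (𝓝 (inner ℝ F (T (-m) F))) := by
      have h5 := wl_spec T p ξ (T (-m) F)
      refine h5.congr ?_
      intro v
      rw [← T_adj T hT0 hTadd, ← hTadd, add_comm]
    have h6 := h2.add h4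
    rw [zero_add] at h6
    have h7 : Tendsto (fun _ : ℤ => inner ℝ F (T m ξ)) p (𝓝 (inner ℝ F (T (-m) F))) :=
      h6.congr (fun v => (h1 v).symm)
    have h8 := tendsto_nhds_unique h7 tendsto_const_nhds
    rw [← h8, ← T_adj T hT0 hTadd, real_inner_comm]
  have hFone : inner ℝ F one = inner ℝ ξ one := by
    have h1 := wl_spec T p ξ one
    have h2 : Tendsto (fun a => inner ℝ (T a ξ) one) p (𝓝 (inner ℝ ξ one)) := by
      refine tendsto_const_nhds.congr ?_
      intro a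
      conv_rhs => rw [← hone a]
      rw [(T a).inner_map_map]
    exact tendsto_nhds_unique h1 h2
  have hFne : F ≠ 0 := by
    intro h
    rw [h, inner_zero_left] at hFone
    linarith
  have honene : one ≠ 0 := by
    intro h
    rw [h, inner_zero_right] at hpos
    exact lt_irrefl _ hpos
  have hFpos : 0 < ‖F‖ := norm_pos_iff.mpr hFne
  have honepos : 0 < ‖one‖ := norm_pos_iff.mpr honene
  have hMnorm : ∀ m x, ‖M m x‖ ≤ ‖x‖ := by
    intro m x
    have h1 : ‖M m x‖ * ‖M m x‖ ≤ ‖x‖ * ‖M m x‖ := by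
      rw [← real_inner_self_eq_norm_mul_norm, hMsymm, hMproj]
      exact real_inner_le_norm _ _
    by_cases h0 : ‖M m x‖ = 0
    · rw [h0]; exact norm_nonneg _
    · exact le_of_mul_le_mul_right h1 (lt_of_le_of_ne (norm_nonneg _) (Ne.symm h0))
  -- choice of ε
  obtain ⟨ε, hε, hεF, hε2⟩ : ∃ ε : ℝ, 0 < ε ∧ ε ≤ ‖F‖ / 2 ∧
      2 * ε * ‖F‖ * ‖one‖ ^ 2 < (‖F‖ ^ 2 / 2) ^ 2 := by
    refine ⟨min (‖F‖ / 2) ((‖F‖ ^ 2 / 2) ^ 2 / (4 * ‖F‖ * ‖one‖ ^ 2)), ?_, ?_, ?_⟩
    · positivity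
    · exact min_le_left _ _
    · have h1 : min (‖F‖ / 2) ((‖F‖ ^ 2 / 2) ^ 2 / (4 * ‖F‖ * ‖one‖ ^ 2)) ≤
        ((‖F‖ ^ 2 / 2) ^ 2 / (4 * ‖F‖ * ‖one‖ ^ 2)) := min_le_right _ _
      calc 2 * min (‖F‖ / 2) ((‖F‖ ^ 2 / 2) ^ 2 / (4 * ‖F‖ * ‖one‖ ^ 2)) * ‖F‖ * ‖one‖ ^ 2
          ≤ 2 * ((‖F‖ ^ 2 / 2) ^ 2 / (4 * ‖F‖ * ‖one‖ ^ 2)) * ‖F‖ * ‖one‖ ^ 2 := by gcongr
        _ = (‖F‖ ^ 2 / 2) ^ 2 / 2 := by field_simp; ring
        _ < (‖F‖ ^ 2 / 2) ^ 2 := by
            have : 0 < (‖F‖ ^ 2 / 2) ^ 2 := by positivity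
            linarith
  have hlimu : ∀ a (z : H), Tendsto (fun v => inner ℝ (T (a + v) ξ) z) p
      (𝓝 (inner ℝ (T a F) z)) := by
    intro a z
    rw [T_adj T hT0 hTadd]
    refine (wl_spec T p ξ (T (-a) z)).congr ?_
    intro v
    rw [← T_adj T hT0 hTadd, ← hTadd]
  refine ⟨ρ, p, ε, hBohr, hε, ?_, idem_dvd p hpp, ?_, ?_⟩
  · intro δ hδ
    rw [Metric.tendsto_nhds] at hstrong
    filter_upwards [hstrong δ hδ] with v hv
    rw [dist_eq_norm] at hv
    exact hv
  · intro k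
    exact hpfree k
  · intro m a b hm ha hb
    have hm' : ‖T m F - F‖ < ε := hm
    have ha' : ‖T a F - F‖ < ε := ha
    have hb' : ‖T b F - F‖ < ε := hb
    have h1 : ‖F‖ ^ 2 / 2 ≤ inner ℝ F (T m ξ) := by
      rw [hFT]
      have h2 : inner ℝ F (T m F) = ‖F‖ ^ 2 + inner ℝ F (T m F - F) := by
        rw [inner_sub_right, real_inner_self_eq_norm_sq]; ring
      have h3 : -(‖F‖ * ‖T m F - F‖) ≤ inner ℝ F (T m F - F) := by
        have := abs_real_inner_le_norm F (T m F - F)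
        exact (abs_le.mp this).1
      have h4 : ‖F‖ * ‖T m F - F‖ ≤ ‖F‖ * (‖F‖ / 2) := by
        gcongr
        exact (hm'.le).trans hεF
      rw [h2]
      nlinarith
    have h2 : inner ℝ F (T m ξ) ≤ ‖M m F‖ * ‖one‖ := by
      rw [← hM1, ← hMsymm]
      exact real_inner_le_norm _ _
    have h3 : (‖F‖ ^ 2 / 2) ^ 2 ≤ ‖M m F‖ ^ 2 * ‖one‖ ^ 2 := by
      rw [← mul_pow]
      have : 0 ≤ ‖F‖ ^ 2 / 2 := by positivity
      exact pow_le_pow_left₀ this (h1.trans h2) 2
    have h4 : 2 * ε * ‖F‖ < ‖M m F‖ ^ 2 := by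
      have h5 : 2 * ε * ‖F‖ * ‖one‖ ^ 2 < ‖M m F‖ ^ 2 * ‖one‖ ^ 2 := lt_of_lt_of_le hε2 h3
      exact lt_of_mul_lt_mul_right h5 (by positivity)
    have h5 : 0 < inner ℝ (M m (T a F)) (T b F) := by
      have h6 : inner ℝ (M m (T a F)) (T b F) = ‖M m F‖ ^ 2
          + (inner ℝ (M m (T a F - F)) (T b F) + inner ℝ (M m F) (T b F - F)) := by
        have h7 : ‖M m F‖ ^ 2 = inner ℝ (M m F) F := by
          rw [← real_inner_self_eq_norm_sq, hMsymm, hMproj, hMsymm]
        rw [h7, map_sub, inner_sub_left, inner_sub_right]; ring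
      have h7 : |inner ℝ (M m (T a F - F)) (T b F)| ≤ ε * ‖F‖ := by
        calc |inner ℝ (M m (T a F - F)) (T b F)| ≤ ‖M m (T a F - F)‖ * ‖T b F‖ :=
              abs_real_inner_le_norm _ _
          _ ≤ ε * ‖F‖ := by
              rw [(T b).norm_map]
              gcongr
              exact (hMnorm m _).trans ha'.le
      have h8 : |inner ℝ (M m F) (T b F - F)| ≤ ε * ‖F‖ := by
        calc |inner ℝ (M m F) (T b F - F)| ≤ ‖M m F‖ * ‖T b F - F‖ :=
              abs_real_inner_le_norm _ _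
          _ ≤ ‖F‖ * ε := by
              gcongr
              exact hMnorm m _
          _ = ε * ‖F‖ := mul_comm _ _
      have h9 := (abs_le.mp h7).1
      have h10 := (abs_le.mp h8).1
      rw [h6]
      linarith
    have h6 : Tendsto (fun v => inner ℝ (M m (T (a + v) ξ)) (T b F)) p
        (𝓝 (inner ℝ (M m (T a F)) (T b F))) := by
      have := hlimu a (M m (T b F))
      rw [← hMsymm] at this
      refine this.congr ?_
      intro v
      rw [hMsymm]
    have h7 := h6.eventually (lt_mem_nhds h5)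
    filter_upwards [h7] with v hv
    have h8 : Tendsto (fun v' => inner ℝ (M m (T (a + v) ξ)) (T (b + v') ξ)) p
        (𝓝 (inner ℝ (M m (T (a + v) ξ)) (T b F))) := by
      have := hlimu b (M m (T (a + v) ξ))
      rw [real_inner_comm] at this
      refine this.congr ?_
      intro v'
      rw [real_inner_comm]
    exact h8.eventually (lt_mem_nhds hv)

end hilb

end Pool.Agent.Helper37_Frob
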