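import Mathlib
import Pool.Agent.Helper37_Frob.Hilb

set_option autoImplicit false

open Filter Topology UniformSpace

namespace Pool.Agent.Helper37_Frob

section pre

variable {V : Type*} [SeminormedAddCommGroup V] [InnerProductSpace ℝ V]

/-- Extension of a bounded operator to the completion. -/
noncomputable def ext1 (S : V →L[ℝ] V) : Completion V →L[ℝ] Completion V :=
  ((Completion.toComplL : V →L[ℝ] Completion V).comp S).extend
    (Completion.toComplL : V →L[ℝ] Completion V)

theorem ext1_coe (S : V →L[ℝ] V) (x : V) : ext1 S (x : Completion V) = (S x : Completion V) := by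
  have h := ContinuousLinearMap.extend_eq
    ((Completion.toComplL : V →L[ℝ] Completion V).comp S)
    (e := (Completion.toComplL : V →L[ℝ] Completion V))
    (by simpa using Completion.denseRange_coe) (by simpa using Completion.isUniformInducing_coe V) x
  simpa [ext1] using h

theorem hilbert_pre (T M : ℤ → V →ₗ[ℝ] V) (ξ one : V)
    (hTinner : ∀ a x y, inner ℝ (T a x) (T a y) = inner ℝ x y)
    (hT0 : ∀ x, T 0 x = x) (hTadd : ∀ a b x, T (a + b) x = T a (T b x))
    (hone : ∀ a, T a one = one) (hM1 : ∀ m, M m one = T m ξ)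
    (hMsymm : ∀ m x y, inner ℝ (M m x) y = inner ℝ x (M m y))
    (hMproj : ∀ m x, M m (M m x) = M m x)
    (hpos : 0 < inner ℝ ξ one) :
    ∃ (ρ : ℤ → ℝ) (p : Ultrafilter ℤ) (ε : ℝ), BohrNorm ρ ∧ 0 < ε ∧
      (∀ δ : ℝ, 0 < δ → ∀ᶠ v in (p : Filter ℤ), ρ v < δ) ∧
      (∀ k : ℤ, k ≠ 0 → ∀ᶠ v in (p : Filter ℤ), k ∣ v) ∧
      (∀ k : ℤ, ∀ᶠ v in (p : Filter ℤ), v ≠ k) ∧
      (∀ m a b : ℤ, ρ m < ε → ρ a < ε → ρ b < ε →
        ∀ᶠ v in (p : Filter ℤ), ∀ᶠ v' in (p : Filter ℤ),
          0 < inner ℝ (M m (T (a + v) ξ)) (T (b + v') ξ)) := by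
  have hTnorm : ∀ a x, ‖T a x‖ = ‖x‖ := by
    intro a x
    have h := hTinner a x x
    rw [real_inner_self_eq_norm_sq, real_inner_self_eq_norm_sq] at h
    exact (pow_left_inj₀ (norm_nonneg _) (norm_nonneg _) two_ne_zero).mp h
  have hMnorm : ∀ m x, ‖M m x‖ ≤ 1 * ‖x‖ := by
    intro m x
    rw [one_mul]
    have h1 : ‖M m x‖ * ‖M m x‖ ≤ ‖x‖ * ‖M m x‖ := by
      rw [← real_inner_self_eq_norm_mul_norm, hMsymm, hMproj]
      exact real_inner_le_norm _ _
    by_cases h0 : ‖M m x‖ = 0
    · rw [h0]; exact norm_nonneg _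
    · exact le_of_mul_le_mul_right h1 (lt_of_le_of_ne (norm_nonneg _) (Ne.symm h0))
  let Mc : ℤ → V →L[ℝ] V := fun m => (M m).mkContinuous 1 (hMnorm m)
  let Tc : ℤ → V →L[ℝ] V := fun a => (T a).mkContinuous 1
    (fun x => by rw [one_mul, hTnorm])
  have hMc : ∀ (m : ℤ) (x : V), ext1 (Mc m) (x : Completion V) = (M m x : Completion V) :=
    fun m x => ext1_coe _ x
  have hTc : ∀ (m : ℤ) (x : V), ext1 (Tc m) (x : Completion V) = (T m x : Completion V) :=
    fun m x => ext1_coe _ x
  let T' : ℤ → Completion V →ₗᵢ[ℝ] Completion V := fun a =>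
    { (ext1 (Tc a) : Completion V →ₗ[ℝ] Completion V) with
      norm_map' := by
        intro x
        refine Completion.induction_on x ?_ ?_
        · refine isClosed_eq ?_ continuous_norm
          exact continuous_norm.comp (ext1 (Tc a)).continuous
        · intro y
          have h := hTc a y
          change ‖ext1 (Tc a) (y : Completion V)‖ = _
          rw [h, Completion.norm_coe, Completion.norm_coe, hTnorm] }
  have hT' : ∀ a (x : V), T' a (x : Completion V) = (T a x : Completion V) :=
    fun a x => hTc a x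
  obtain ⟨ρ, p, ε, h1, h2, h3, h4, h5, h6⟩ := hilbert_main T' (H := Completion V)
    (by
      intro x
      refine Completion.induction_on x ?_ ?_
      · exact isClosed_eq (T' 0).continuous continuous_id
      · intro y
        rw [hT', hT0])
    (by
      intro a b x
      refine Completion.induction_on x ?_ ?_
      · exact isClosed_eq (T' _).continuous ((T' a).continuous.comp (T' b).continuous)
      · intro y
        rw [hT', hT', hT', hTadd])
    (ξ : Completion V) (one : Completion V) (fun m => ext1 (Mc m))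
    (by intro a; rw [hT', hone])
    (by intro m; rw [hMc, hT', hM1])
    (by
      intro m x y
      refine Completion.induction_on₂ x y ?_ ?_
      · refine isClosed_eq ?_ ?_
        · exact ((ext1 (Mc m)).continuous.comp continuous_fst).inner continuous_snd
        · exact continuous_fst.inner ((ext1 (Mc m)).continuous.comp continuous_snd)
      · intro x y
        rw [hMc, hMc, Completion.inner_coe, Completion.inner_coe, hMsymm])
    (by
      intro m x
      refine Completion.induction_on x ?_ ?_
      · refine isClosed_eq ?_ (ext1 (Mc m)).continuous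
        exact (ext1 (Mc m)).continuous.comp (ext1 (Mc m)).continuous
      · intro x
        rw [hMc, hMc, hMproj])
    (by rw [Completion.inner_coe]; exact hpos)
  refine ⟨ρ, p, ε, h1, h2, h3, h4, h5, ?_⟩
  intro m a b hm ha hb
  filter_upwards [h6 m a b hm ha hb] with v hv
  filter_upwards [hv] with v' hv'
  rw [hT', hT', hMc, Completion.inner_coe] at hv'
  exact hv'

end pre

end Pool.Agent.Helper37_Frob
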