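import Mathlib
import Pool.Agent.Helper37_Frob.Pre

set_option autoImplicit false

open Filter Topology UniformSpace

namespace Pool.Agent.Helper37_Frob

/-- Boundedness of a real function. -/
def Bd {α : Type*} (f : α → ℝ) : Prop := ∃ C : ℝ, ∀ x, |f x| ≤ C

section bd
variable {α : Type*} {f g : α → ℝ}

theorem Bd.add (hf : Bd f) (hg : Bd g) : Bd (f + g) := by
  obtain ⟨C, hC⟩ := hf
  obtain ⟨D, hD⟩ := hg
  exact ⟨C + D, fun x => (abs_add_le _ _).trans (add_le_add (hC x) (hD x))⟩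

theorem Bd.smul (c : ℝ) (hf : Bd f) : Bd (c • f) := by
  obtain ⟨C, hC⟩ := hf
  refine ⟨|c| * C, fun x => ?_⟩
  simp only [Pi.smul_apply, smul_eq_mul, abs_mul]
  exact mul_le_mul_of_nonneg_left (hC x) (abs_nonneg _)

theorem Bd.mul (hf : Bd f) (hg : Bd g) : Bd (f * g) := by
  obtain ⟨C, hC⟩ := hf
  obtain ⟨D, hD⟩ := hg
  refine ⟨C * D, fun x => ?_⟩
  simp only [Pi.mul_apply, abs_mul]
  exact mul_le_mul (hC x) (hD x) (abs_nonneg _) ((abs_nonneg _).trans (hC x))

theorem Bd.neg (hf : Bd f) : Bd (-f) := by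
  obtain ⟨C, hC⟩ := hf
  exact ⟨C, fun x => by rw [Pi.neg_apply, abs_neg]; exact hC x⟩

theorem Bd.sub (hf : Bd f) (hg : Bd g) : Bd (f - g) := by
  rw [sub_eq_add_neg]; exact hf.add hg.neg

theorem Bd.const (c : ℝ) : Bd (fun _ : α => c) := ⟨|c|, fun _ => le_rfl⟩

theorem Bd.comp {β : Type*} (hf : Bd f) (g : β → α) : Bd (fun x => f (g x)) := by
  obtain ⟨C, hC⟩ := hf
  exact ⟨C, fun x => hC _⟩

theorem Bd.indicator (s : Set α) : Bd (s.indicator (1 : α → ℝ)) := by
  refine ⟨1, fun x => ?_⟩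
  by_cases h : x ∈ s
  · simp [h]
  · simp [h]

end bd

/-- Shift invariant positive linear functionals on bounded functions on the integers. -/
structure IsMean (m : (ℤ → ℝ) → ℝ) : Prop where
  add : ∀ f g : ℤ → ℝ, Bd f → Bd g → m (f + g) = m f + m g
  smul : ∀ (c : ℝ) (f : ℤ → ℝ), Bd f → m (c • f) = c * m f
  nonneg : ∀ f : ℤ → ℝ, Bd f → (∀ n, 0 ≤ f n) → 0 ≤ m f
  shift : ∀ f : ℤ → ℝ, Bd f → m (fun n => f (n + 1)) = m f

namespace IsMean

variable {m : (ℤ → ℝ) → ℝ} (hm : IsMean m)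
include hm

theorem zero : m 0 = 0 := by
  have := hm.smul 0 0 (Bd.const 0)
  simpa using this

theorem neg (f : ℤ → ℝ) (hf : Bd f) : m (-f) = - m f := by
  have := hm.smul (-1) f hf
  simpa using this

theorem sub (f g : ℤ → ℝ) (hf : Bd f) (hg : Bd g) : m (f - g) = m f - m g := by
  rw [sub_eq_add_neg, hm.add f (-g) hf hg.neg, hm.neg g hg, sub_eq_add_neg]

theorem mono (f g : ℤ → ℝ) (hf : Bd f) (hg : Bd g) (h : ∀ n, f n ≤ g n) : m f ≤ m g := by
  have := hm.nonneg (g - f) (hg.sub hf) (fun n => by simp [h n])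
  rw [hm.sub g f hg hf] at this
  linarith

theorem shift_nat (f : ℤ → ℝ) (hf : Bd f) (k : ℕ) : m (fun n => f (n + k)) = m f := by
  induction k with
  | zero => simp
  | succ k ih =>
    rw [← ih, ← hm.shift (fun n => f (n + k)) (hf.comp _)]
    congr 1
    ext n
    congr 1
    push_cast
    ring

theorem shift' (f : ℤ → ℝ) (hf : Bd f) (k : ℤ) : m (fun n => f (n + k)) = m f := by
  obtain ⟨n, rfl | rfl⟩ := k.eq_nat_or_neg
  · exact hm.shift_nat f hf n
  · rw [← hm.shift_nat (fun i => f (i + -(n : ℤ))) (hf.comp _) n]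
    congr 1
    ext i
    congr 1
    ring

end IsMean

/-- The space of bounded functions on the integers. -/
def bddSub : Submodule ℝ (ℤ → ℝ) where
  carrier := {f | Bd f}
  add_mem' := fun hf hg => Bd.add hf hg
  zero_mem' := Bd.const 0
  smul_mem' := fun c _ hf => Bd.smul c hf

/-- Type copy of the space of bounded functions. -/
def PreL2 : Type := bddSub

noncomputable instance : AddCommGroup PreL2 := inferInstanceAs (AddCommGroup bddSub)
noncomputable instance : Module ℝ PreL2 := inferInstanceAs (Module ℝ bddSub)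

/-- The underlying function. -/
def PreL2.fn (f : PreL2) : ℤ → ℝ := f.1

theorem PreL2.bd (f : PreL2) : Bd f.fn := f.2

/-- Constructor. -/
def PreL2.mk (f : ℤ → ℝ) (hf : Bd f) : PreL2 := ⟨f, hf⟩

@[ext] theorem PreL2.ext {f g : PreL2} (h : ∀ n, f.fn n = g.fn n) : f = g :=
  Subtype.ext (funext h)

@[simp] theorem PreL2.mk_fn (f : ℤ → ℝ) (hf : Bd f) : (PreL2.mk f hf).fn = f := rfl
@[simp] theorem PreL2.add_fn (f g : PreL2) : (f + g).fn = f.fn + g.fn := rfl
@[simp] theorem PreL2.smul_fn (c : ℝ) (f : PreL2) : (c • f).fn = c • f.fn := rfl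

/-- Shift by an integer, as linear map. -/
def PreL2.shift (a : ℤ) : PreL2 →ₗ[ℝ] PreL2 where
  toFun f := PreL2.mk (fun n => f.fn (n + a)) (f.bd.comp _)
  map_add' f g := rfl
  map_smul' c f := rfl

/-- Multiplication by a bounded function, as linear map. -/
def PreL2.mulBy (u : ℤ → ℝ) (hu : Bd u) : PreL2 →ₗ[ℝ] PreL2 where
  toFun f := PreL2.mk (u * f.fn) (hu.mul f.bd)
  map_add' f g := by ext n; simp [mul_add]
  map_smul' c f := by ext n; simp [mul_left_comm]

@[simp] theorem PreL2.shift_fn (a : ℤ) (f : PreL2) (n : ℤ) :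
    (PreL2.shift a f).fn n = f.fn (n + a) := rfl

@[simp] theorem PreL2.mulBy_fn (u : ℤ → ℝ) (hu : Bd u) (f : PreL2) :
    (PreL2.mulBy u hu f).fn = u * f.fn := rfl

theorem bohr_of_mean (m : (ℤ → ℝ) → ℝ) (hm : IsMean m) (Q : Set ℤ)
    (hQ : 0 < m (Q.indicator 1)) :
    ∃ (ρ : ℤ → ℝ) (p : Ultrafilter ℤ) (ε : ℝ), BohrNorm ρ ∧ 0 < ε ∧
      (∀ δ : ℝ, 0 < δ → ∀ᶠ v in (p : Filter ℤ), ρ v < δ) ∧
      (∀ k : ℤ, k ≠ 0 → ∀ᶠ v in (p : Filter ℤ), k ∣ v) ∧
      (∀ k : ℤ, ∀ᶠ v in (p : Filter ℤ), v ≠ k) ∧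
      (∀ k a b : ℤ, ρ k < ε → ρ a < ε → ρ b < ε →
        ∀ᶠ v in (p : Filter ℤ), ∀ᶠ v' in (p : Filter ℤ),
          ∃ s : ℤ, k + s ∈ Q ∧ (a + v) + s ∈ Q ∧ (b + v') + s ∈ Q) := by
  let core : PreInnerProductSpace.Core ℝ PreL2 :=
    { inner := fun f g => m (f.fn * g.fn)
      conj_inner_symm := by
        intro f g
        change m (g.fn * f.fn) = m (f.fn * g.fn)
        rw [mul_comm]
      re_inner_nonneg := by
        intro f
        change 0 ≤ m (f.fn * f.fn)
        exact hm.nonneg _ (f.bd.mul f.bd) (fun n => mul_self_nonneg _)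
      add_left := by
        intro f g h
        change m ((f.fn + g.fn) * h.fn) = m (f.fn * h.fn) + m (g.fn * h.fn)
        rw [add_mul, hm.add _ _ (f.bd.mul h.bd) (g.bd.mul h.bd)]
      smul_left := by
        intro f g r
        change m ((r • f.fn) * g.fn) = r * m (f.fn * g.fn)
        rw [smul_mul_assoc, hm.smul _ _ (f.bd.mul g.bd)] }
  letI i1 : SeminormedAddCommGroup PreL2 :=
    @InnerProductSpace.Core.toSeminormedAddCommGroup ℝ PreL2 _ _ _ core
  letI i2 : InnerProductSpace ℝ PreL2 := InnerProductSpace.ofCore core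
  have hinner : ∀ f g : PreL2, inner ℝ f g = m (f.fn * g.fn) := fun f g => rfl
  let ξ : PreL2 := PreL2.mk (Q.indicator 1) (Bd.indicator Q)
  let one : PreL2 := PreL2.mk (fun _ => 1) (Bd.const 1)
  let T : ℤ → PreL2 →ₗ[ℝ] PreL2 := fun a => PreL2.shift a
  let M : ℤ → PreL2 →ₗ[ℝ] PreL2 := fun k => PreL2.mulBy (T k ξ).fn (T k ξ).bd
  obtain ⟨ρ, p, ε, h1, h2, h3, h4, h5, h6⟩ := hilbert_pre T M ξ one
    (by
      intro a x y
      rw [hinner, hinner]
      exact hm.shift' (x.fn * y.fn) (x.bd.mul y.bd) a)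
    (by
      intro x
      ext n
      simp [T])
    (by
      intro a b x
      ext n
      simp only [T, PreL2.shift_fn]
      congr 1; ring)
    (by
      intro a
      ext n
      simp [T, one])
    (by
      intro k
      ext n
      simp [M, one])
    (by
      intro k x y
      rw [hinner, hinner]
      simp only [M, PreL2.mulBy_fn]
      congr 1
      ext n
      simp only [Pi.mul_apply]
      ring)
    (by
      intro k x
      ext n
      simp only [M, T, ξ, PreL2.mulBy_fn, Pi.mul_apply, PreL2.shift_fn, PreL2.mk_fn]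
      by_cases h : n + k ∈ Q
      · simp [h]
      · simp [h])
    (by
      rw [hinner]
      have : ξ.fn * one.fn = Q.indicator 1 := by
        ext n
        simp [ξ, one]
      rw [this]
      exact hQ)
  refine ⟨ρ, p, ε, h1, h2, h3, h4, h5, ?_⟩
  intro k a b hk ha hb
  filter_upwards [h6 k a b hk ha hb] with v hv
  filter_upwards [hv] with v' hv'
  rw [hinner] at hv'
  by_contra hcon
  push Not at hcon
  have hz : (M k (T (a + v) ξ)).fn * (T (b + v') ξ).fn = 0 := by
    ext n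
    simp only [M, T, ξ, PreL2.mulBy_fn, Pi.mul_apply, PreL2.shift_fn, PreL2.mk_fn, Pi.zero_apply]
    by_cases h1 : n + k ∈ Q
    · by_cases h2 : n + (a + v) ∈ Q
      · have h3 : n + (b + v') ∉ Q := by
          have := hcon n (by rwa [add_comm]) (by rwa [add_comm])
          rwa [add_comm] at this
        simp [h3]
      · simp [h2]
    · simp [h1]
  rw [hz, hm.zero] at hv'
  exact lt_irrefl _ hv'

end Pool.Agent.Helper37_Frob
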