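import Mathlib
import Pool.Agent.Helper37_Frob.Mean

set_option autoImplicit false

open Filter Topology

namespace Pool.Agent.Helper37_Frob

/-- Cesaro averages. -/
noncomputable def avg (f : ℤ → ℝ) (n : ℕ) : ℝ := (∑ i ∈ Finset.range (n + 1), f (i : ℤ)) / (n + 1)

/-- A Banach limit on bounded functions on the integers. -/
noncomputable def BL (f : ℤ → ℝ) : ℝ := limUnder (hyperfilter ℕ : Filter ℕ) (avg f)

theorem avg_abs_le (f : ℤ → ℝ) (C : ℝ) (hC : ∀ n, |f n| ≤ C) (n : ℕ) : |avg f n| ≤ C := by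
  have hn : (0 : ℝ) < n + 1 := by positivity
  rw [avg, abs_div, abs_of_pos hn, div_le_iff₀ hn]
  calc |∑ i ∈ Finset.range (n + 1), f (i : ℤ)| ≤ ∑ i ∈ Finset.range (n + 1), |f (i : ℤ)| :=
        Finset.abs_sum_le_sum_abs _ _
    _ ≤ ∑ i ∈ Finset.range (n + 1), C := Finset.sum_le_sum (fun i _ => hC _)
    _ = C * (n + 1) := by simp; ring

theorem BL_tendsto (f : ℤ → ℝ) (hf : Bd f) :
    Tendsto (avg f) (hyperfilter ℕ) (𝓝 (BL f)) := by
  obtain ⟨C, hC⟩ := hf
  obtain ⟨l, hl⟩ := exists_ulim (hyperfilter ℕ) (avg f) C (avg_abs_le f C hC)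
  exact tendsto_nhds_limUnder ⟨l, hl⟩

theorem hyper_atTop : ((hyperfilter ℕ : Ultrafilter ℕ) : Filter ℕ) ≤ atTop := by
  have := @hyperfilter_le_cofinite ℕ _
  rwa [Nat.cofinite_eq_atTop] at this

theorem BL_isMean : IsMean BL where
  add := by
    intro f g hf hg
    refine tendsto_nhds_unique (BL_tendsto _ (hf.add hg)) ?_
    refine ((BL_tendsto f hf).add (BL_tendsto g hg)).congr ?_
    intro n
    simp only [avg, Pi.add_apply, Finset.sum_add_distrib, add_div]
  smul := by
    intro c f hf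
    refine tendsto_nhds_unique (BL_tendsto _ (hf.smul c)) ?_
    refine ((BL_tendsto f hf).const_mul c).congr ?_
    intro n
    simp only [avg, Pi.smul_apply, smul_eq_mul, ← Finset.mul_sum, mul_div_assoc]
  nonneg := by
    intro f hf h
    refine ge_of_tendsto (BL_tendsto f hf) (Eventually.of_forall ?_)
    intro n
    exact div_nonneg (Finset.sum_nonneg (fun i _ => h _)) (by positivity)
  shift := by
    intro f hf
    refine tendsto_nhds_unique (BL_tendsto _ (hf.comp (fun n => n + 1))) ?_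
    have h1 := BL_tendsto f hf
    obtain ⟨C, hC⟩ := hf
    have h2 : Tendsto (fun n : ℕ => (f ((n : ℤ) + 1) - f 0) / ((n : ℝ) + 1))
        (hyperfilter ℕ) (𝓝 0) := by
      have h3 : Tendsto (fun n : ℕ => (2 * C) / ((n : ℝ) + 1)) (hyperfilter ℕ) (𝓝 0) := by
        have : Tendsto (fun n : ℕ => (2 * C) / ((n : ℝ) + 1)) atTop (𝓝 0) := by
          have h4 : Tendsto (fun n : ℕ => ((n : ℝ) + 1)) atTop atTop :=
            tendsto_atTop_add_const_right _ _ tendsto_natCast_atTop_atTop
          exact Tendsto.div_atTop tendsto_const_nhds h4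
        exact this.mono_left hyper_atTop
      refine squeeze_zero_norm ?_ h3
      intro n
      have hn : (0 : ℝ) < n + 1 := by positivity
      rw [norm_div, Real.norm_eq_abs, Real.norm_eq_abs, abs_of_pos hn]
      gcongr
      calc |f ((n : ℤ) + 1) - f 0| ≤ |f ((n : ℤ) + 1)| + |f 0| := abs_sub _ _
        _ ≤ C + C := add_le_add (hC _) (hC _)
        _ = 2 * C := by ring
    have h3 := h1.add h2
    rw [add_zero] at h3
    refine h3.congr ?_
    intro n
    simp only [avg]
    rw [← add_div]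
    congr 1
    have h5 : ∑ i ∈ Finset.range (n + 1), f ((i : ℤ) + 1) =
        ∑ i ∈ Finset.range (n + 1), f (((i + 1 : ℕ) : ℤ)) := by
      refine Finset.sum_congr rfl (fun i _ => ?_)
      push_cast
      rfl
    have h6 := Finset.sum_range_succ' (fun i : ℕ => f (i : ℤ)) (n + 1)
    have h7 := Finset.sum_range_succ (fun i : ℕ => f (i : ℤ)) (n + 1)
    rw [h5]
    have h8 : f (((n + 1 : ℕ) : ℤ)) = f ((n : ℤ) + 1) := by push_cast; rfl
    rw [h8] at h7
    simp only [Nat.cast_zero] at h6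
    linarith

theorem BL_const (c : ℝ) : BL (fun _ => c) = c := by
  refine tendsto_nhds_unique (BL_tendsto _ (Bd.const c)) ?_
  refine tendsto_const_nhds.congr ?_
  intro n
  have hn : (0 : ℝ) < n + 1 := by positivity
  simp only [avg, Finset.sum_const, Finset.card_range, nsmul_eq_mul]
  push_cast
  field_simp

theorem BL_abs_le (f : ℤ → ℝ) (C : ℝ) (hC : ∀ n, |f n| ≤ C) : |BL f| ≤ C := by
  refine le_of_tendsto (BL_tendsto f ⟨C, hC⟩).abs (Eventually.of_forall ?_)
  exact avg_abs_le f C hC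

/-- A bounded function supported on one point has zero Banach limit. -/
theorem BL_single (f : ℤ → ℝ) (C : ℝ) (hC : ∀ n, |f n| ≤ C) (k : ℤ) (hk : ∀ n, n ≠ k → f n = 0) :
    BL f = 0 := by
  refine tendsto_nhds_unique (BL_tendsto f ⟨C, hC⟩) ?_
  have h3 : Tendsto (fun n : ℕ => C / ((n : ℝ) + 1)) (hyperfilter ℕ) (𝓝 0) := by
    have : Tendsto (fun n : ℕ => C / ((n : ℝ) + 1)) atTop (𝓝 0) := by
      have h4 : Tendsto (fun n : ℕ => ((n : ℝ) + 1)) atTop atTop :=
        tendsto_atTop_add_const_right _ _ tendsto_natCast_atTop_atTop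
      exact Tendsto.div_atTop tendsto_const_nhds h4
    exact this.mono_left hyper_atTop
  refine squeeze_zero_norm ?_ h3
  intro n
  have hn : (0 : ℝ) < n + 1 := by positivity
  rw [avg, norm_div, Real.norm_eq_abs, Real.norm_eq_abs, abs_of_pos hn]
  gcongr
  have hC0 : 0 ≤ C := (abs_nonneg _).trans (hC 0)
  by_cases hex : ∃ j ∈ Finset.range (n + 1), ((j : ℕ) : ℤ) = k
  · obtain ⟨j, hj, hjk⟩ := hex
    rw [Finset.sum_eq_single j]
    · exact hC _
    · intro i _ hij
      apply hk
      rw [← hjk]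
      exact_mod_cast hij
    · intro h; exact absurd hj h
  · push Not at hex
    rw [Finset.sum_eq_zero (fun i hi => hk _ (hex i hi))]
    simpa using hC0

end Pool.Agent.Helper37_Frob
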