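import Mathlib
import Pool.Agent.Helper37_Frob.Banach

set_option autoImplicit false

open Filter Topology

namespace Pool.Agent.Helper37_Frob

/-- Data of a transitive Frobenius action with infinite cyclic point stabilizers, generated by
`a x`, and with a colouring `c` of the ordered pairs of points by the orbits of the group. -/
structure FrobData {G Ω ι : Type*} [Group G] [MulAction G Ω] (a : Ω → G) (c : Ω → Ω → ι) :
    Prop where
  fix : ∀ (g : G) (x y : Ω), x ≠ y → g • x = x → g • y = y → g = 1
  equiv : ∀ (g : G) (x : Ω), a (g • x) = g * a x * g⁻¹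
  stab : ∀ (g : G) (x : Ω), g • x = x ↔ ∃ n : ℤ, g = a x ^ n
  inf : ∀ (x : Ω) (n : ℤ), a x ^ n = 1 → n = 0
  col : ∀ x y x' y', c x y = c x' y' ↔ ∃ g : G, g • x = x' ∧ g • y = y'
  trans : ∀ x y : Ω, ∃ g : G, g • x = y

namespace FrobData

variable {G Ω ι : Type*} [Group G] [MulAction G Ω] {a : Ω → G} {c : Ω → Ω → ι}
  (F : FrobData a c)
include F

theorem pow_fix (x : Ω) (n : ℤ) : (a x ^ n) • x = x := (F.stab _ x).mpr ⟨n, rfl⟩

theorem pow_inj (x : Ω) (m n : ℤ) (h : a x ^ m = a x ^ n) : m = n := by
  have : a x ^ (m - n) = 1 := by rw [zpow_sub, h, mul_inv_cancel]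
  have := F.inf x _ this
  omega

theorem pow_ne (x w : Ω) (n : ℤ) (hn : n ≠ 0) (hw : (a x ^ n) • w = w) : w = x := by
  by_contra h
  exact hn (F.inf x n (F.fix _ w x h hw (F.pow_fix x n)))

theorem pow_smul_inj (x w : Ω) (hw : w ≠ x) (m n : ℤ) (h : (a x ^ m) • w = (a x ^ n) • w) :
    m = n := by
  by_contra hne
  apply hw
  apply F.pow_ne x w (m - n) (sub_ne_zero.mpr hne)
  rw [sub_eq_neg_add, zpow_add, mul_smul, h, ← mul_smul, ← zpow_add]
  simp

theorem equiv_pow (g : G) (x : Ω) (n : ℤ) : a (g • x) ^ n = g * a x ^ n * g⁻¹ := by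
  rw [F.equiv, conj_zpow]

/-- Two points of the same colour as seen from `x` differ by a rotation around `x`. -/
theorem rot (x y y' : Ω) (h : c x y = c x y') : ∃ n : ℤ, y' = (a x ^ n) • y := by
  obtain ⟨g, hg, hgy⟩ := (F.col _ _ _ _).mp h
  obtain ⟨n, hn⟩ := (F.stab g x).mp hg
  exact ⟨n, by rw [← hgy, hn]⟩

theorem col_smul (g : G) (x y : Ω) : c (g • x) (g • y) = c x y :=
  ((F.col _ _ _ _).mpr ⟨g, rfl, rfl⟩).symm

end FrobData

section path

variable {G Ω ι : Type*} [Group G] [MulAction G Ω] {a : Ω → G} {c : Ω → Ω → ι}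
  (F : FrobData a c)

/-- The averaging operator: a random rotation of the neighbour `e w` around `w`. -/
noncomputable def Top (a : Ω → G) (e : Ω → Ω) (f : Ω → ℝ) : Ω → ℝ :=
  fun w => BL (fun n => f ((a w ^ n) • e w))

variable (e : Ω → Ω)

theorem Top_bd (f : Ω → ℝ) (hf : Bd f) : Bd (Top a e f) := by
  obtain ⟨C, hC⟩ := hf
  exact ⟨C, fun w => BL_abs_le _ C (fun n => hC _)⟩

theorem Top_add (f g : Ω → ℝ) (hf : Bd f) (hg : Bd g) : Top a e (f + g) = Top a e f + Top a e g := by
  ext w
  exact BL_isMean.add _ _ (hf.comp _) (hg.comp _)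

theorem Top_smul (r : ℝ) (f : Ω → ℝ) (hf : Bd f) : Top a e (r • f) = r • Top a e f := by
  ext w
  exact BL_isMean.smul _ _ (hf.comp _)

theorem Top_nonneg (f : Ω → ℝ) (hf : Bd f) (h : ∀ w, 0 ≤ f w) (w : Ω) : 0 ≤ Top a e f w :=
  BL_isMean.nonneg _ (hf.comp _) (fun _ => h _)

theorem Top_mono (f g : Ω → ℝ) (hf : Bd f) (hg : Bd g) (h : ∀ w, f w ≤ g w) (w : Ω) :
    Top a e f w ≤ Top a e g w :=
  BL_isMean.mono _ _ (hf.comp _) (hg.comp _) (fun _ => h _)

theorem Top_const (r : ℝ) : Top a e (fun _ => r) = fun _ => r := by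
  ext w
  exact BL_const r

theorem Top_zero : Top a e 0 = 0 := Top_const e 0

theorem Top_sum {κ : Type*} (s : Finset κ) (f : κ → Ω → ℝ) (hf : ∀ i, Bd (f i)) :
    Top a e (∑ i ∈ s, f i) = ∑ i ∈ s, Top a e (f i) := by
  classical
  have hb : ∀ t : Finset κ, Bd (∑ i ∈ t, f i) := by
    intro t
    induction t using Finset.induction_on with
    | empty => rw [Finset.sum_empty]; exact Bd.const 0
    | insert i t hi ih => rw [Finset.sum_insert hi]; exact (hf i).add ih
  induction s using Finset.induction_on with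
  | empty => simpa using Top_zero e
  | insert i t hi ih =>
    rw [Finset.sum_insert hi, Finset.sum_insert hi, Top_add e _ _ (hf i) (hb t), ih]

theorem Bd.sum {α κ : Type*} (s : Finset κ) (f : κ → α → ℝ) (hf : ∀ i, Bd (f i)) :
    Bd (∑ i ∈ s, f i) := by
  classical
  induction s using Finset.induction_on with
  | empty => rw [Finset.sum_empty]; exact Bd.const 0
  | insert i t hi ih => rw [Finset.sum_insert hi]; exact (hf i).add ih

theorem iter_bd (k : ℕ) (f : Ω → ℝ) (hf : Bd f) : Bd ((Top a e)^[k] f) := by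
  induction k with
  | zero => exact hf
  | succ k ih => rw [Function.iterate_succ_apply']; exact Top_bd e _ ih

theorem iter_add (k : ℕ) (f g : Ω → ℝ) (hf : Bd f) (hg : Bd g) :
    (Top a e)^[k] (f + g) = (Top a e)^[k] f + (Top a e)^[k] g := by
  induction k with
  | zero => rfl
  | succ k ih =>
    rw [Function.iterate_succ_apply', Function.iterate_succ_apply', Function.iterate_succ_apply',
      ih, Top_add e _ _ (iter_bd e k f hf) (iter_bd e k g hg)]

theorem iter_smul (k : ℕ) (r : ℝ) (f : Ω → ℝ) (hf : Bd f) :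
    (Top a e)^[k] (r • f) = r • (Top a e)^[k] f := by
  induction k with
  | zero => rfl
  | succ k ih =>
    rw [Function.iterate_succ_apply', Function.iterate_succ_apply',
      ih, Top_smul e _ _ (iter_bd e k f hf)]

theorem iter_nonneg (k : ℕ) (f : Ω → ℝ) (hf : Bd f) (h : ∀ w, 0 ≤ f w) (w : Ω) :
    0 ≤ (Top a e)^[k] f w := by
  induction k generalizing w with
  | zero => exact h w
  | succ k ih =>
    rw [Function.iterate_succ_apply']
    exact Top_nonneg e _ (iter_bd e k f hf) ih w

theorem iter_sum (k : ℕ) {κ : Type*} (s : Finset κ) (f : κ → Ω → ℝ) (hf : ∀ i, Bd (f i)) :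
    (Top a e)^[k] (∑ i ∈ s, f i) = ∑ i ∈ s, (Top a e)^[k] (f i) := by
  induction k with
  | zero => rfl
  | succ k ih =>
    simp only [Function.iterate_succ_apply']
    rw [ih, Top_sum e s _ (fun i => iter_bd e k _ (hf i))]

include F in
theorem Top_equiv (hec : ∀ (g : G) (w : Ω), c w (e w) = c (g • w) (e (g • w)))
    (f : Ω → ℝ) (hf : Bd f) (g : G) (w : Ω) :
    Top a e (fun w => f (g • w)) w = Top a e f (g • w) := by
  have h1 : c (g • w) (e (g • w)) = c (g • w) (g • e w) := by
    rw [F.col_smul, hec g w]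
  obtain ⟨s, hs⟩ := F.rot _ _ _ h1
  have h2 : (fun n : ℤ => f (g • ((a w ^ n) • e w))) =
      fun n : ℤ => (fun n => f ((a (g • w) ^ n) • e (g • w))) (n + s) := by
    ext n
    simp only
    rw [zpow_add, mul_smul, ← hs, F.equiv_pow]
    simp [mul_smul]
  simp only [Top]
  rw [h2]
  exact BL_isMean.shift' (fun n : ℤ => f ((a (g • w) ^ n) • e (g • w)))
    (hf.comp (fun n : ℤ => (a (g • w) ^ n) • e (g • w))) s

include F in
theorem iter_equiv (hec : ∀ (g : G) (w : Ω), c w (e w) = c (g • w) (e (g • w)))
    (k : ℕ) (f : Ω → ℝ) (hf : Bd f) (g : G) (w : Ω) :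
    (Top a e)^[k] (fun w => f (g • w)) w = (Top a e)^[k] f (g • w) := by
  induction k generalizing w with
  | zero => rfl
  | succ k ih =>
    rw [Function.iterate_succ_apply', Function.iterate_succ_apply']
    have : (Top a e)^[k] (fun w => f (g • w)) = fun w => (Top a e)^[k] f (g • w) := by
      ext w; exact ih w
    rw [this]
    exact Top_equiv F e hec _ (iter_bd e k f hf) g w

/-- Indicator of the set of points with a given colour as seen from `x`. -/
noncomputable def fcol (c : Ω → Ω → ι) (x : Ω) (i : ι) : Ω → ℝ :=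
  Set.indicator {w | c x w = i} 1

/-- Probability that a path of length `k` stays in the colour set `s`. -/
noncomputable def stay (a : Ω → G) (e : Ω → Ω) (c : Ω → Ω → ι) (x : Ω) (s : Finset ι) :
    ℕ → Ω → ℝ
  | 0 => Set.indicator {w | c x w ∈ s} 1
  | k + 1 => Set.indicator {w | c x w ∈ s} (Top a e (stay a e c x s k))

theorem stay_bound (x : Ω) (s : Finset ι) (k : ℕ) :
    (∀ w, 0 ≤ stay a e c x s k w) ∧ (∀ w, stay a e c x s k w ≤ 1) ∧ Bd (stay a e c x s k) := by
  have key : ∀ f : Ω → ℝ, (∀ w, 0 ≤ f w) → (∀ w, f w ≤ 1) → Bd f := by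
    intro f h0 h1
    refine ⟨1, fun w => ?_⟩
    rw [abs_of_nonneg (h0 w)]
    exact h1 w
  induction k with
  | zero =>
    have h0 : ∀ w, 0 ≤ stay a e c x s 0 w := by
      intro w
      simp only [stay]
      exact Set.indicator_nonneg (fun _ _ => zero_le_one) w
    have h1 : ∀ w, stay a e c x s 0 w ≤ 1 := by
      intro w
      simp only [stay]
      by_cases h : c x w ∈ s
      · simp [h]
      · simp [h]
    exact ⟨h0, h1, key _ h0 h1⟩
  | succ k ih =>
    obtain ⟨i0, i1, ib⟩ := ih
    have h0 : ∀ w, 0 ≤ stay a e c x s (k + 1) w := by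
      intro w
      simp only [stay]
      exact Set.indicator_nonneg (fun _ _ => Top_nonneg e _ ib i0 _) w
    have h1 : ∀ w, stay a e c x s (k + 1) w ≤ 1 := by
      intro w
      simp only [stay]
      by_cases h : c x w ∈ s
      · simp only [Set.indicator, Set.mem_ofPred_eq, h, if_true]
        have := Top_mono (a := a) e _ (fun _ => (1 : ℝ)) ib (Bd.const 1) i1 w
        rw [Top_const] at this
        exact this
      · simp [h]
    exact ⟨h0, h1, key _ h0 h1⟩

theorem stay_univ [Fintype ι] (x : Ω) (k : ℕ) (w : Ω) :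
    stay a e c x Finset.univ k w = 1 := by
  induction k generalizing w with
  | zero => simp [stay]
  | succ k ih =>
    have : stay a e c x Finset.univ k = fun _ => (1 : ℝ) := by ext w; exact ih w
    simp only [stay, this, Top_const]
    simp

theorem fcol_bd (x : Ω) (i : ι) : Bd (fcol c x i) := Bd.indicator _

theorem fcol_nonneg (x : Ω) (i : ι) (w : Ω) : 0 ≤ fcol c x i w :=
  Set.indicator_nonneg (fun _ _ => zero_le_one) w

theorem stay_erase [DecidableEq ι] (x : Ω) (s : Finset ι) (i : ι) (hi : i ∈ s) (k : ℕ) (w : Ω) :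
    stay a e c x s k w ≤ stay a e c x (s.erase i) k w +
      (∑ j ∈ Finset.range (k + 1), (Top a e)^[j] (fcol c x i)) w := by
  induction k generalizing w with
  | zero =>
    simp only [stay, Finset.range_one, Finset.sum_singleton, Function.iterate_zero, id, zero_add,
      fcol]
    by_cases h : c x w ∈ s
    · by_cases h' : c x w = i
      · simp [h', hi]
      · simp [h, h', Finset.mem_erase]
    · have : c x w ∉ s.erase i := fun h' => h (Finset.mem_of_mem_erase h')
      simp only [Set.indicator, Set.mem_ofPred_eq, h, if_false, this]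
      split_ifs <;> simp
  | succ k ih =>
    obtain ⟨b0, b1, bb⟩ := stay_bound (a := a) (c := c) e x s k
    obtain ⟨c0, c1, cb⟩ := stay_bound (a := a) (c := c) e x (s.erase i) k
    obtain ⟨d0, d1, db⟩ := stay_bound (a := a) (c := c) e x (s.erase i) (k + 1)
    have hsum : ∀ w, 0 ≤ (∑ j ∈ Finset.range (k + 1), (Top a e)^[j + 1] (fcol c x i)) w := by
      intro w
      rw [Finset.sum_apply]
      exact Finset.sum_nonneg (fun j _ => iter_nonneg e _ _ (fcol_bd x i) (fcol_nonneg x i) w)
    have hsplit : (∑ j ∈ Finset.range (k + 1 + 1), (Top a e)^[j] (fcol c x i)) w =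
        (∑ j ∈ Finset.range (k + 1), (Top a e)^[j + 1] (fcol c x i)) w + fcol c x i w := by
      rw [Finset.sum_range_succ']
      rfl
    rw [hsplit]
    by_cases h : c x w ∈ s
    · by_cases h' : c x w = i
      · obtain ⟨b0', b1', bb'⟩ := stay_bound (a := a) (c := c) e x s (k + 1)
        have h2 : fcol c x i w = 1 := by simp [fcol, h']
        rw [h2]
        have := b1' w
        have := d0 w
        have := hsum w
        linarith
      · have h3 : c x w ∈ s.erase i := Finset.mem_erase.mpr ⟨h', h⟩
        have h4 : stay a e c x s (k + 1) w = Top a e (stay a e c x s k) w := by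
          simp [stay, h]
        have h5 : stay a e c x (s.erase i) (k + 1) w = Top a e (stay a e c x (s.erase i) k) w := by
          simp only [stay, Set.indicator, Set.mem_ofPred_eq, h3, if_true]
        have hB : Bd (∑ j ∈ Finset.range (k + 1), (Top a e)^[j] (fcol c x i)) :=
          Bd.sum _ _ (fun j => iter_bd e j _ (fcol_bd x i))
        have h6 := Top_mono (a := a) e _ _ bb (cb.add hB) ih w
        rw [Top_add e _ _ cb hB, Top_sum e _ _ (fun j => iter_bd e j _ (fcol_bd x i))] at h6
        have h7 : (∑ j ∈ Finset.range (k + 1), Top a e ((Top a e)^[j] (fcol c x i))) =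
            ∑ j ∈ Finset.range (k + 1), (Top a e)^[j + 1] (fcol c x i) := by
          refine Finset.sum_congr rfl (fun j _ => ?_)
          rw [Function.iterate_succ_apply']
        rw [h7] at h6
        rw [h4, h5]
        have h8 := fcol_nonneg (c := c) x i w
        simp only [Pi.add_apply] at h6
        linarith
    · have h4 : stay a e c x s (k + 1) w = 0 := by
        simp [stay, h]
      rw [h4]
      have := d0 w
      have := hsum w
      have := fcol_nonneg (c := c) x i w
      linarith

theorem stay_zero [DecidableEq ι] (x : Ω)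
    (hz : ∀ (w : Ω) (k : ℕ), (Top a e)^[k + 1] (fcol c x (c x w)) w = 0)
    (k : ℕ) (s : Finset ι) (hs : s.card ≤ k) (w : Ω) : stay a e c x s k w = 0 := by
  induction k generalizing s w with
  | zero =>
    have : s = ∅ := Finset.card_eq_zero.mp (Nat.le_zero.mp hs)
    simp [stay, this]
  | succ k ih =>
    by_cases h : c x w ∈ s
    · obtain ⟨b0, b1, bb⟩ := stay_bound (a := a) (c := c) e x s k
      obtain ⟨c0, c1, cb⟩ := stay_bound (a := a) (c := c) e x (s.erase (c x w)) k
      obtain ⟨d0, d1, db⟩ := stay_bound (a := a) (c := c) e x s (k + 1)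
      have h4 : stay a e c x s (k + 1) w = Top a e (stay a e c x s k) w := by
        simp [stay, h]
      have hB : Bd (∑ j ∈ Finset.range (k + 1), (Top a e)^[j] (fcol c x (c x w))) :=
        Bd.sum _ _ (fun j => iter_bd e j _ (fcol_bd x _))
      have h6 := Top_mono (a := a) e _ _ bb (cb.add hB)
        (fun w' => stay_erase e x s (c x w) h k w') w
      rw [Top_add e _ _ cb hB, Top_sum e _ _ (fun j => iter_bd e j _ (fcol_bd x _))] at h6
      have h5 : stay a e c x (s.erase (c x w)) k = 0 := by
        ext w'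
        apply ih
        rw [Finset.card_erase_of_mem h]
        omega
      rw [h5, Top_zero] at h6
      have h7 : (∑ j ∈ Finset.range (k + 1), Top a e ((Top a e)^[j] (fcol c x (c x w)))) w = 0 := by
        rw [Finset.sum_apply]
        refine Finset.sum_eq_zero (fun j _ => ?_)
        have := hz w j
        rw [Function.iterate_succ_apply'] at this
        exact this
      simp only [Pi.add_apply, h7, Pi.zero_apply] at h6
      have := d0 w
      rw [h4] at this ⊢
      linarith
    · simp [stay, h]

end path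

end Pool.Agent.Helper37_Frob
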