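import Mathlib
import Pool.Agent.Helper37_Frob.Path

set_option autoImplicit false

open Filter Topology

namespace Pool.Agent.Helper37_Frob

section path2

variable {G Ω ι : Type*} [Group G] [MulAction G Ω] {a : Ω → G} {c : Ω → Ω → ι}
  (F : FrobData a c)

include F in
theorem Top_point (e : Ω → Ω) (he : ∀ w, e w ≠ w) (y : Ω) (f : Ω → ℝ) (hf : Bd f)
    (hfy : ∀ w, w ≠ y → f w = 0) : Top a e f = 0 := by
  ext w
  obtain ⟨C, hC⟩ := hf
  by_cases hex : ∃ k : ℤ, (a w ^ k) • e w = y
  · obtain ⟨k, hk⟩ := hex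
    refine BL_single _ C (fun n => hC _) k ?_
    intro n hn
    apply hfy
    intro h
    apply hn
    exact F.pow_smul_inj w (e w) (he w) n k (h.trans hk.symm)
  · push Not at hex
    have : (fun n : ℤ => f ((a w ^ n) • e w)) = fun _ => 0 := by
      ext n
      exact hfy _ (hex n)
    simp only [Top, this]
    exact BL_const 0

include F in
theorem exists_mean [Finite ι] (o e0 : Ω) (hoe : o ≠ e0) :
    ∃ (x y z : Ω) (m : (ℤ → ℝ) → ℝ), IsMean m ∧ y ≠ z ∧
      0 < m (Set.indicator {n : ℤ | c x ((a y ^ n) • z) = c x y} 1) := by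
  classical
  have := Fintype.ofFinite ι
  have hex : ∀ w : Ω, ∃ u : Ω, c w u = c o e0 := by
    intro w
    obtain ⟨g, hg⟩ := F.trans o w
    exact ⟨g • e0, by rw [← hg, F.col_smul]⟩
  choose e hec0 using hex
  have hec : ∀ (g : G) (w : Ω), c w (e w) = c (g • w) (e (g • w)) := by
    intro g w
    rw [hec0, hec0]
  have he : ∀ w, e w ≠ w := by
    intro w hw
    have h1 := hec0 w
    rw [hw] at h1
    obtain ⟨g, hg1, hg2⟩ := (F.col _ _ _ _).mp h1
    exact hoe (hg1.symm.trans hg2)
  -- positive return probability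
  have hpos : ∃ (y : Ω) (k : ℕ), (Top a e)^[k + 1] (fcol c o (c o y)) y ≠ 0 := by
    by_contra hcon
    push Not at hcon
    have h1 := stay_zero (a := a) (c := c) e o hcon (Fintype.card ι) Finset.univ le_rfl o
    rw [stay_univ] at h1
    exact one_ne_zero h1
  obtain ⟨y, k, hk⟩ := hpos
  set i := c o y with hi
  have hk' : 0 < (Top a e)^[k + 1] (fcol c o i) y :=
    lt_of_le_of_ne (iter_nonneg e _ _ (fcol_bd o i) (fcol_nonneg o i) y) (Ne.symm hk)
  let h : ι → Ω → ℝ := fun j => Set.indicator {w | c y w = j ∧ c o w = i} 1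
  have hbd : ∀ j, Bd (h j) := fun j => Bd.indicator _
  have hsum : fcol c o i = ∑ j, h j := by
    ext w
    rw [Finset.sum_apply, Finset.sum_eq_single (c y w)]
    · simp only [fcol, h, Set.indicator, Set.mem_ofPred_eq, true_and]
    · intro j _ hj
      simp [h, hj.symm]
    · intro h; exact absurd (Finset.mem_univ _) h
  rw [hsum, iter_sum e (k + 1) _ _ hbd, Finset.sum_apply] at hk'
  obtain ⟨j, _, hj⟩ : ∃ j ∈ Finset.univ, 0 < (Top a e)^[k + 1] (h j) y := by
    by_contra hcon
    push Not at hcon
    exact absurd hk' (not_lt.mpr (Finset.sum_nonpos hcon))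
  have hjy : j ≠ c y y := by
    intro hjj
    have h1 : Top a e (h j) = 0 := by
      refine Top_point F e he y (h j) (hbd j) ?_
      intro w hw
      simp only [h, Set.indicator, Set.mem_ofPred_eq]
      rw [if_neg]
      rintro ⟨h2, _⟩
      rw [hjj] at h2
      obtain ⟨g, hg1, hg2⟩ := (F.col _ _ _ _).mp h2
      apply hw
      have : w = g⁻¹ • y := by rw [← hg2, inv_smul_smul]
      rw [this, inv_smul_eq_iff, hg1]
    have h2 : (Top a e)^[k + 1] (h j) = 0 := by
      rw [Function.iterate_succ_apply, h1]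
      have : ∀ l : ℕ, (Top a e)^[l] (0 : Ω → ℝ) = 0 := by
        intro l
        induction l with
        | zero => rfl
        | succ l ih => rw [Function.iterate_succ_apply', ih, Top_zero]
      exact this k
    rw [h2] at hj
    exact lt_irrefl _ hj
  obtain ⟨z, hz⟩ : ∃ z, c y z = j := by
    by_contra hcon
    push Not at hcon
    have h1 : h j = 0 := by
      ext w
      simp [h, hcon w]
    rw [h1] at hj
    have : ∀ l : ℕ, (Top a e)^[l] (0 : Ω → ℝ) = 0 := by
      intro l
      induction l with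
      | zero => rfl
      | succ l ih => rw [Function.iterate_succ_apply', ih, Top_zero]
    rw [this] at hj
    exact lt_irrefl _ hj
  have hyz : z ≠ y := by
    intro h1
    rw [h1] at hz
    exact hjy hz.symm
  have hinj : Function.Injective (fun n : ℤ => (a y ^ n) • z) := by
    intro n n' hn
    exact F.pow_smul_inj y z hyz n n' hn
  let E : (ℤ → ℝ) → Ω → ℝ := fun f => Function.extend (fun n : ℤ => (a y ^ n) • z) f 0
  have hE1 : ∀ f n, E f ((a y ^ n) • z) = f n := by
    intro f n
    exact hinj.extend_apply f (0 : Ω → ℝ) n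
  have hE2 : ∀ f w, (¬ ∃ n : ℤ, (a y ^ n) • z = w) → E f w = 0 := by
    intro f w hw
    exact Function.extend_apply' f (0 : Ω → ℝ) w hw
  have hEbd : ∀ f, Bd f → Bd (E f) := by
    intro f hf
    obtain ⟨C, hC⟩ := hf
    have hC0 : 0 ≤ C := (abs_nonneg _).trans (hC 0)
    refine ⟨C, fun w => ?_⟩
    by_cases hw : ∃ n : ℤ, (a y ^ n) • z = w
    · obtain ⟨n, rfl⟩ := hw
      rw [hE1]; exact hC n
    · rw [hE2 f w hw]; simpa using hC0
  refine ⟨o, y, z, fun f => (Top a e)^[k + 1] (E f) y, ?_, hyz.symm, ?_⟩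
  · refine ⟨?_, ?_, ?_, ?_⟩
    · intro f g hf hg
      have : E (f + g) = E f + E g := by
        ext w
        by_cases hw : ∃ n : ℤ, (a y ^ n) • z = w
        · obtain ⟨n, rfl⟩ := hw
          rw [Pi.add_apply, hE1, hE1, hE1, Pi.add_apply]
        · rw [Pi.add_apply, hE2 _ w hw, hE2 _ w hw, hE2 _ w hw, add_zero]
      simp only [this]
      rw [iter_add e _ _ _ (hEbd f hf) (hEbd g hg), Pi.add_apply]
    · intro r f hf
      have : E (r • f) = r • E f := by
        ext w
        by_cases hw : ∃ n : ℤ, (a y ^ n) • z = w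
        · obtain ⟨n, rfl⟩ := hw
          rw [Pi.smul_apply, hE1, hE1, Pi.smul_apply]
        · rw [Pi.smul_apply, hE2 _ w hw, hE2 _ w hw, smul_zero]
      simp only [this]
      rw [iter_smul e _ _ _ (hEbd f hf), Pi.smul_apply, smul_eq_mul]
    · intro f hf h0
      refine iter_nonneg e _ _ (hEbd f hf) ?_ y
      intro w
      by_cases hw : ∃ n : ℤ, (a y ^ n) • z = w
      · obtain ⟨n, rfl⟩ := hw
        rw [hE1]; exact h0 n
      · rw [hE2 _ w hw]
    · intro f hf
      have h1 : E (fun n => f (n + 1)) = fun w => E f (a y • w) := by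
        ext w
        by_cases hw : ∃ n : ℤ, (a y ^ n) • z = w
        · obtain ⟨n, rfl⟩ := hw
          rw [hE1, ← mul_smul]
          have : a y * a y ^ n = a y ^ (n + 1) := by
            rw [add_comm, zpow_add, zpow_one]
          rw [this, hE1]
        · rw [hE2 _ w hw, hE2]
          rintro ⟨n, hn⟩
          apply hw
          refine ⟨n - 1, ?_⟩
          have : a y ^ (n - 1) = (a y)⁻¹ * a y ^ n := by
            rw [sub_eq_neg_add, zpow_add, zpow_neg_one]
          rw [this, mul_smul, hn, inv_smul_smul]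
      have h2 := iter_equiv F e hec (k + 1) (E f) (hEbd f hf) (a y) y
      have h3 : a y • y = y := by
        have := F.pow_fix y 1
        rwa [zpow_one] at this
      rw [h3] at h2
      simp only [h1]
      exact h2
  · have h1 : E (Set.indicator {n : ℤ | c o ((a y ^ n) • z) = c o y} 1) = h j := by
      ext w
      by_cases hw : ∃ n : ℤ, (a y ^ n) • z = w
      · obtain ⟨n, rfl⟩ := hw
        rw [hE1]
        have h2 : c y ((a y ^ n) • z) = j := by
          rw [← hz]
          conv_lhs => rw [← F.pow_fix y n]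
          rw [F.pow_fix y n]
          have := F.col_smul (a y ^ n) y z
          rwa [F.pow_fix y n] at this
        simp only [h, Set.indicator, Set.mem_ofPred_eq, h2, true_and]
        rfl
      · rw [hE2 _ w hw]
        simp only [h, Set.indicator, Set.mem_ofPred_eq]
        rw [if_neg]
        rintro ⟨h2, _⟩
        apply hw
        obtain ⟨n, hn⟩ := F.rot y z w (hz.trans h2.symm)
        exact ⟨n, hn.symm⟩
    change 0 < (Top a e)^[k + 1] (E (Set.indicator {n : ℤ | c o ((a y ^ n) • z) = c o y} 1)) y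
    rw [h1]
    exact hj

end path2

end Pool.Agent.Helper37_Frob
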