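import Mathlib
import Pool.Agent.Helper37_Frob.Path2

set_option autoImplicit false

namespace Pool.Agent.Helper37_Frob

section ito

variable {G : Type*} [Group G]

theorem conj_comm (g a b : G) : g⁻¹ * (a⁻¹ * b⁻¹ * a * b) * g =
    (g⁻¹ * a * g)⁻¹ * (g⁻¹ * b * g)⁻¹ * (g⁻¹ * a * g) * (g⁻¹ * b * g) := by
  group

theorem comm_right (a a2 b2 : G) (h : Commute a a2) :
    a⁻¹ * (a2 * b2)⁻¹ * a * (a2 * b2) = a⁻¹ * b2⁻¹ * a * b2 := by
  have h1 : a2⁻¹ * a * a2 = a := by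
    rw [mul_assoc, h.eq, inv_mul_cancel_left]
  calc a⁻¹ * (a2 * b2)⁻¹ * a * (a2 * b2) = a⁻¹ * b2⁻¹ * (a2⁻¹ * a * a2) * b2 := by group
    _ = _ := by rw [h1]

theorem comm_left (b3 a3 b : G) (h : Commute b b3) :
    (b3 * a3)⁻¹ * b⁻¹ * (b3 * a3) * b = a3⁻¹ * b⁻¹ * a3 * b := by
  have h1 : b3⁻¹ * b⁻¹ * b3 = b⁻¹ := by
    rw [mul_assoc, h.inv_left.eq, inv_mul_cancel_left]
  calc (b3 * a3)⁻¹ * b⁻¹ * (b3 * a3) * b = a3⁻¹ * (b3⁻¹ * b⁻¹ * b3) * a3 * b := by group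
    _ = _ := by rw [h1]

/-- The commutator identity behind Ito's theorem on products of two abelian groups. -/
theorem ito (a a1 a2 a3 b b1 b2 b3 : G) (haa1 : Commute a a1) (haa2 : Commute a a2)
    (ha3a2 : Commute a3 a2) (ha3a1 : Commute a3 a1) (hbb1 : Commute b b1) (hbb3 : Commute b b3)
    (hb2b3 : Commute b2 b3) (hb2b1 : Commute b2 b1)
    (h1 : a1⁻¹ * b * a1 = a2 * b2) (h2 : b1⁻¹ * a * b1 = b3 * a3) :
    Commute (a⁻¹ * b⁻¹ * a * b) (a1 * b1 * a1⁻¹ * b1⁻¹) := by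
  have e1 : a1⁻¹ * a * a1 = a := by rw [mul_assoc, haa1.eq, inv_mul_cancel_left]
  have e2 : b1⁻¹ * b2 * b1 = b2 := by rw [mul_assoc, hb2b1.eq, inv_mul_cancel_left]
  have e3 : b1⁻¹ * b * b1 = b := by rw [mul_assoc, hbb1.eq, inv_mul_cancel_left]
  have e4 : a1⁻¹ * a3 * a1 = a3 := by rw [mul_assoc, ha3a1.eq, inv_mul_cancel_left]
  have c1 : b1⁻¹ * (a1⁻¹ * (a⁻¹ * b⁻¹ * a * b) * a1) * b1 = a3⁻¹ * b2⁻¹ * a3 * b2 := by
    rw [conj_comm a1 a b, e1, h1, comm_right a a2 b2 haa2, conj_comm b1 a b2, e2, h2,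
      comm_left b3 a3 b2 hb2b3]
  have c2 : a1⁻¹ * (b1⁻¹ * (a⁻¹ * b⁻¹ * a * b) * b1) * a1 = a3⁻¹ * b2⁻¹ * a3 * b2 := by
    rw [conj_comm b1 a b, e3, h2, comm_left b3 a3 b hbb3, conj_comm a1 a3 b, e4, h1,
      comm_right a3 a2 b2 ha3a2]
  have c3 := c1.trans c2.symm
  generalize a⁻¹ * b⁻¹ * a * b = C at c3 ⊢
  -- C = (a1 b1)(b1⁻¹ a1⁻¹ C a1 b1)(a1 b1)⁻¹ etc.
  have c4 : C * (a1 * b1 * a1⁻¹ * b1⁻¹) =
      a1 * b1 * (b1⁻¹ * (a1⁻¹ * C * a1) * b1) * a1⁻¹ * b1⁻¹ := by group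
  have c5 : (a1 * b1 * a1⁻¹ * b1⁻¹) * C =
      a1 * b1 * (a1⁻¹ * (b1⁻¹ * C * b1) * a1) * a1⁻¹ * b1⁻¹ := by group
  rw [Commute, SemiconjBy, c4, c5, c3]

/-- The basic elements. -/
def hh (β γ : G) (p q : ℤ) : G := β ^ p * γ ^ (q - p) * β ^ (-q)

theorem hh_self (β γ : G) (p : ℤ) : hh β γ p p = 1 := by
  simp [hh]

theorem hh_mul (β γ : G) (p q s : ℤ) : hh β γ p q * hh β γ q s = hh β γ p s := by
  simp only [hh]
  calc β ^ p * γ ^ (q - p) * β ^ (-q) * (β ^ q * γ ^ (s - q) * β ^ (-s))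
      = β ^ p * (γ ^ (q - p) * γ ^ (s - q)) * β ^ (-s) := by group
    _ = _ := by rw [← zpow_add]; congr 3; ring

theorem hh_inv (β γ : G) (p q : ℤ) : (hh β γ p q)⁻¹ = hh β γ q p := by
  rw [inv_eq_iff_mul_eq_one, hh_mul, hh_self]

theorem hh_conj (β γ : G) (v p q : ℤ) :
    β ^ v * hh β γ p q * β ^ (-v) = hh β γ (p + v) (q + v) := by
  simp only [hh]
  have : q + v - (p + v) = q - p := by ring
  rw [this]
  group

end ito

section star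

variable {G Ω ι : Type*} [Group G] [MulAction G Ω] {a : Ω → G} {c : Ω → Ω → ι}
  (F : FrobData a c)

include F in
theorem star (x y z : Ω) (p p' q q' : ℤ)
    (hp : c x ((a y ^ (-p)) • z) = c x y) (hp' : c x ((a y ^ (-p')) • z) = c x y)
    (hq : c x ((a y ^ (-q)) • z) = c x y) (hq' : c x ((a y ^ (-q')) • z) = c x y) :
    Commute (hh (a y) (a z) p p') (hh (a y) (a z) q q') := by
  set α := a x
  set β := a y
  set γ := a z
  obtain ⟨n, hn⟩ := F.rot _ _ _ hp.symm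
  obtain ⟨n', hn'⟩ := F.rot _ _ _ hp'.symm
  obtain ⟨k, hk⟩ := F.rot _ _ _ hq.symm
  obtain ⟨k', hk'⟩ := F.rot _ _ _ hq'.symm
  -- the generator of the stabilizer of z
  have hγ : ∀ (p n : ℤ), (β ^ (-p)) • z = (α ^ n) • y → ∀ j : ℤ,
      γ ^ j = β ^ p * α ^ n * β ^ j * α ^ (-n) * β ^ (-p) := by
    intro p n h j
    have h1 : z = (β ^ p * α ^ n) • y := by
      rw [mul_smul, ← h, ← mul_smul, ← zpow_add]; simp
    have h2 : γ ^ j = (β ^ p * α ^ n) * β ^ j * (β ^ p * α ^ n)⁻¹ := by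
      have := F.equiv_pow (β ^ p * α ^ n) y j
      rw [← h1] at this
      exact this
    rw [h2]; group
  have hst : ∀ (p n p' n' : ℤ), (β ^ (-p)) • z = (α ^ n) • y → (β ^ (-p')) • z = (α ^ n') • y →
      ∃ s : ℤ, β ^ (p - p') * α ^ n = α ^ n' * β ^ s := by
    intro p n p' n' h h'
    have h1 : (α ^ (-n') * β ^ (p - p') * α ^ n) • y = y := by
      rw [mul_smul, ← h, ← mul_smul, mul_assoc, ← zpow_add]
      have : p - p' + -p = -p' := by ring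
      rw [this, mul_smul, h', ← mul_smul, ← zpow_add]; simp
    obtain ⟨s, hs⟩ := (F.stab _ _).mp h1
    refine ⟨s, ?_⟩
    have hs' : α ^ (-n') * β ^ (p - p') * α ^ n = β ^ s := hs
    rw [← hs']; group
  obtain ⟨s1, hs1⟩ := hst p n p' n' hn hn'
  obtain ⟨s2, hs2⟩ := hst q k q' k' hk hk'
  have key := ito (α ^ (-k)) (α ^ n) (α ^ (n' - n)) (α ^ (-k')) (β ^ (p - p')) (β ^ (q' - q))
    (β ^ s1) (β ^ (q - q' - s2))
    ((Commute.refl α).zpow_zpow _ _) ((Commute.refl α).zpow_zpow _ _)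
    ((Commute.refl α).zpow_zpow _ _) ((Commute.refl α).zpow_zpow _ _)
    ((Commute.refl β).zpow_zpow _ _) ((Commute.refl β).zpow_zpow _ _)
    ((Commute.refl β).zpow_zpow _ _) ((Commute.refl β).zpow_zpow _ _)
    (by rw [mul_assoc, hs1]; group)
    (by
      have h1 : α ^ (-k) * β ^ (q' - q) = β ^ (-s2) * α ^ (-k') := by
        have := congrArg (fun g => g⁻¹) hs2
        simp only [mul_inv_rev, ← zpow_neg, neg_sub] at this
        exact this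
      rw [mul_assoc, h1, ← zpow_neg, ← mul_assoc, ← zpow_add]
      congr 2; ring)
  have e1 : hh β γ p p' = β ^ (p + q) *
      ((α ^ (-k))⁻¹ * (β ^ (p - p'))⁻¹ * α ^ (-k) * β ^ (p - p')) * β ^ (-(p + q)) := by
    simp only [hh]
    rw [hγ q k hk]
    group
  have e2 : hh β γ q q' = β ^ (p + q) *
      (α ^ n * β ^ (q' - q) * (α ^ n)⁻¹ * (β ^ (q' - q))⁻¹) * β ^ (-(p + q)) := by
    simp only [hh]
    rw [hγ p n hn]
    group
  rw [e1, e2]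
  have e3 : β ^ (-(p + q)) = (β ^ (p + q))⁻¹ := zpow_neg _ _
  rw [e3]
  exact (Commute.conj_iff _).mpr key

end star

end Pool.Agent.Helper37_Frob
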