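import Mathlib
import Pool.Agent.Helper37_Frob.Ito

set_option autoImplicit false

open Filter Topology

namespace Pool.Agent.Helper37_Frob

theorem BL_sum {κ : Type*} (s : Finset κ) (f : κ → ℤ → ℝ) (hf : ∀ i, Bd (f i)) :
    BL (∑ i ∈ s, f i) = ∑ i ∈ s, BL (f i) := by
  classical
  induction s using Finset.induction_on with
  | empty => rw [Finset.sum_empty, Finset.sum_empty]; exact BL_isMean.zero
  | insert i t hi ih =>
    rw [Finset.sum_insert hi, Finset.sum_insert hi, BL_isMean.add _ _ (hf i) (Bd.sum t f hf), ih]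

/-- A nonnegative function which is uniformly continuous for a Bohr norm and has zero mean
vanishes. -/
theorem BL_pos {ρ : ℤ → ℝ} (hρ : BohrNorm ρ) (f : ℤ → ℝ) (hf : Bd f) (h0 : ∀ n, 0 ≤ f n)
    (hlip : ∀ a a', f a - 2 * ρ (a' - a) ≤ f a') (a0 : ℤ) (ha0 : 0 < f a0) : 0 < BL f := by
  classical
  obtain ⟨A, hA⟩ := hρ.tb (f a0 / 4) (by positivity)
  have hbd : ∀ a : ℤ, Bd (fun k => f (k + (a0 - a))) := fun a => hf.comp _
  have h1 : BL (∑ a ∈ A, fun k => f (k + (a0 - a))) = A.card * BL f := by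
    rw [BL_sum A _ hbd]
    have : ∀ a ∈ A, BL (fun k => f (k + (a0 - a))) = BL f := fun a _ => BL_isMean.shift' f hf _
    rw [Finset.sum_congr rfl this]
    simp
  have h2 : f a0 / 2 ≤ BL (∑ a ∈ A, fun k => f (k + (a0 - a))) := by
    have h3 : BL (fun _ => f a0 / 2) ≤ BL (∑ a ∈ A, fun k => f (k + (a0 - a))) := by
      refine BL_isMean.mono _ _ (Bd.const _) (Bd.sum A _ hbd) ?_
      intro k
      obtain ⟨a, ha, hka⟩ := hA k
      rw [Finset.sum_apply]
      have h4 : f a0 / 2 ≤ f (k + (a0 - a)) := by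
        have := hlip a0 (k + (a0 - a))
        have h5 : k + (a0 - a) - a0 = k - a := by ring
        rw [h5] at this
        linarith
      exact h4.trans (Finset.single_le_sum (f := fun a => f (k + (a0 - a)))
        (fun i _ => h0 _) ha)
    rwa [BL_const] at h3
  rw [h1] at h2
  by_contra hcon
  push Not at hcon
  have : (A.card : ℝ) * BL f ≤ 0 := mul_nonpos_of_nonneg_of_nonpos (by positivity) hcon
  linarith

theorem sum_le_max_add {κ : Type*} [DecidableEq κ] (s : Finset κ) (ψ : κ → ℝ) (E : ℝ)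
    (hE : 0 ≤ E) (h0 : ∀ i, 0 ≤ ψ i) (hψ : ∀ i, ψ i ≤ E) :
    ∑ i ∈ s, ψ i ≤ E + ∑ i ∈ s, ∑ j ∈ s.erase i, min (ψ i) (ψ j) := by
  rcases s.eq_empty_or_nonempty with rfl | hs
  · simpa using hE
  · obtain ⟨i0, hi0, hmax⟩ := s.exists_max_image ψ hs
    rw [← Finset.add_sum_erase s ψ hi0]
    have h1 : ∑ i ∈ s.erase i0, ψ i ≤ ∑ i ∈ s.erase i0, ∑ j ∈ s.erase i, min (ψ i) (ψ j) := by
      refine Finset.sum_le_sum (fun i hi => ?_)
      have hi' := Finset.mem_erase.mp hi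
      have h2 : ψ i = min (ψ i) (ψ i0) := (min_eq_left (hmax i hi'.2)).symm
      rw [h2]
      refine (Finset.single_le_sum (f := fun j => min (ψ i) (ψ j))
        (fun j _ => le_min (h0 i) (h0 j)) (Finset.mem_erase.mpr ⟨hi'.1.symm, hi0⟩)).trans ?_
      refine Finset.sum_le_sum (fun j _ => ?_)
      rw [← h2]
    have h3 : ∑ i ∈ s.erase i0, ∑ j ∈ s.erase i, min (ψ i) (ψ j) ≤
        ∑ i ∈ s, ∑ j ∈ s.erase i, min (ψ i) (ψ j) := by
      refine Finset.sum_le_sum_of_subset_of_nonneg (Finset.erase_subset _ _) ?_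
      intro i _ _
      exact Finset.sum_nonneg (fun j _ => le_min (h0 i) (h0 j))
    have := hψ i0
    linarith

section ext

variable {G Ω ι : Type*} [Group G] [MulAction G Ω] {a : Ω → G} {c : Ω → Ω → ι}
  (F : FrobData a c)

/-- Properties of the level functions of a Bohr family of semiregular subgroups. -/
structure Level (y : Ω) (β : G) (ρ : ℤ → ℝ) (ε : ℝ) (φ : G → ℤ → ℝ) : Prop where
  nonneg : ∀ g k, 0 ≤ φ g k
  le : ∀ g k, φ g k ≤ ε
  mul : ∀ g g' k, min (φ g k) (φ g' k) ≤ φ (g * g') k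
  inv : ∀ g k, φ g⁻¹ k = φ g k
  equiv : ∀ g v k, φ (β ^ v * g * β ^ (-v)) (k + v) = φ g k
  lip : ∀ g k k', φ g k - ρ (k' - k) ≤ φ g k'
  inj : ∀ g g' k, 0 < φ g k → 0 < φ g' k → g • y = g' • y → g = g'
  exi : ∃ g k, g ≠ 1 ∧ 0 < φ g k

variable {y : Ω} {ρ : ℤ → ℝ} {ε : ℝ} {φ : G → ℤ → ℝ}

namespace Level

variable (hρ : BohrNorm ρ) (hε : 0 < ε) (L : Level y (a y) ρ ε φ)

include L in
theorem bd (g : G) : Bd (φ g) :=
  ⟨ε, fun k => by rw [abs_of_nonneg (L.nonneg g k)]; exact L.le g k⟩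

include L in
theorem one_pos_of (g : G) (k : ℤ) (h : 0 < φ g k) : 0 < φ 1 k := by
  have h1 := L.mul g g⁻¹ k
  rw [L.inv, min_self, mul_inv_cancel] at h1
  exact h.trans_le h1

include L in
theorem ne_fix (g : G) (k : ℤ) (hg : g ≠ 1) (h : 0 < φ g k) : g • y ≠ y := by
  intro hy
  exact hg (L.inj g 1 k h (L.one_pos_of g k h) (by rw [hy, one_smul]))

include L in
theorem BL_conj (g : G) (v : ℤ) : BL (φ (a y ^ v * g * a y ^ (-v))) = BL (φ g) := by
  rw [← BL_isMean.shift' (φ (a y ^ v * g * a y ^ (-v))) (L.bd _) v]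
  congr 1
  ext k
  exact L.equiv g v k

include L in
theorem conj_apply (g : G) (v k : ℤ) : φ (a y ^ v * g * a y ^ (-v)) k = φ g (k - v) := by
  have := L.equiv g v (k - v)
  rwa [sub_add_cancel] at this

include L hρ in
theorem BL_pos_of (g : G) (k : ℤ) (h : 0 < φ g k) : 0 < BL (φ g) := by
  refine BL_pos hρ (φ g) (L.bd g) (L.nonneg g) ?_ k h
  intro k k'
  have := L.lip g k k'
  have := hρ.nonneg (k' - k)
  linarith

include L in
/-- Only finitely many elements with given image of `y` and large mean. -/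
theorem fin_class (w : Ω) (δ : ℝ) (hδ : 0 < δ) : {g : G | g • y = w ∧ δ ≤ BL (φ g)}.Finite := by
  classical
  by_contra hinf
  have hinf' : {g : G | g • y = w ∧ δ ≤ BL (φ g)}.Infinite := hinf
  obtain ⟨N, hN⟩ := exists_nat_gt (ε / δ)
  obtain ⟨s, hs, hcard⟩ := hinf'.exists_subset_card_eq N
  have h1 : BL (∑ g ∈ s, φ g) = ∑ g ∈ s, BL (φ g) := BL_sum s _ (fun g => L.bd g)
  have h2 : (N : ℝ) * δ ≤ BL (∑ g ∈ s, φ g) := by
    rw [h1, ← hcard, ← nsmul_eq_mul]
    exact Finset.card_nsmul_le_sum s _ _ (fun g hg => (hs hg).2)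
  have h3 : BL (∑ g ∈ s, φ g) ≤ ε := by
    have : BL (∑ g ∈ s, φ g) ≤ BL (fun _ => ε) := by
      refine BL_isMean.mono _ _ (Bd.sum s _ (fun g => L.bd g)) (Bd.const _) ?_
      intro k
      rw [Finset.sum_apply]
      by_cases hex : ∃ g ∈ s, 0 < φ g k
      · obtain ⟨g, hg, hgk⟩ := hex
        rw [Finset.sum_eq_single g]
        · exact L.le g k
        · intro g' hg' hne
          by_contra h0
          have h4 : 0 < φ g' k := lt_of_le_of_ne (L.nonneg g' k) (Ne.symm h0)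
          exact hne (L.inj g' g k h4 hgk ((hs hg').1.trans (hs hg).1.symm))
        · intro h; exact absurd hg h
      · push Not at hex
        have h4 : ∑ g ∈ s, φ g k ≤ 0 := Finset.sum_nonpos hex
        obtain ⟨g, k', _, hk'⟩ := L.exi
        exact h4.trans (hk'.le.trans (L.le g k'))
    rwa [BL_const] at this
  have h4 : (N : ℝ) * δ ≤ ε := h2.trans h3
  rw [div_lt_iff₀ hδ] at hN
  linarith

include F L in
/-- Only finitely many large values of the mean. -/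
theorem fin_values [Finite ι] (δ : ℝ) (hδ : 0 < δ) :
    {r : ℝ | ∃ g : G, g ≠ 1 ∧ δ ≤ BL (φ g) ∧ BL (φ g) = r}.Finite := by
  classical
  have hω : ∀ j : ι, ∃ w : Ω, (∃ w', c y w' = j) → c y w = j := by
    intro j
    by_cases h : ∃ w', c y w' = j
    · obtain ⟨w', hw'⟩ := h
      exact ⟨w', fun _ => hw'⟩
    · exact ⟨y, fun h' => absurd h' h⟩
  choose ω hω using hω
  have hfin : (⋃ j : ι, {g : G | g • y = ω j ∧ δ ≤ BL (φ g)}).Finite :=
    Set.finite_iUnion (fun j => L.fin_class (ω j) δ hδ)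
  refine (hfin.image (fun g => BL (φ g))).subset ?_
  rintro r ⟨g, hg1, hgδ, rfl⟩
  have h1 : c y (g • y) = c y (ω (c y (g • y))) := (hω _ ⟨_, rfl⟩).symm
  obtain ⟨n, hn⟩ := F.rot _ _ _ h1
  refine ⟨a y ^ n * g * a y ^ (-n), ?_, L.BL_conj g n⟩
  refine Set.mem_iUnion.mpr ⟨c y (g • y), ?_, ?_⟩
  · rw [mul_smul, mul_smul, F.pow_fix, ← hn]
  · rw [L.BL_conj]; exact hgδ

include F L hρ in
theorem exists_max [Finite ι] : ∃ (g : G) (η : ℝ), g ≠ 1 ∧ 0 < BL (φ g) ∧ 0 < η ∧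
    ∀ g' : G, g' ≠ 1 → BL (φ g') ≤ BL (φ g) ∧
      (BL (φ g) - η < BL (φ g') → BL (φ g') = BL (φ g)) := by
  obtain ⟨g0, k0, hg0, hk0⟩ := L.exi
  have hpos := L.BL_pos_of hρ g0 k0 hk0
  set δ := BL (φ g0) / 2 with hδ
  have hδpos : 0 < δ := by positivity
  set V := {r : ℝ | ∃ g : G, g ≠ 1 ∧ δ ≤ BL (φ g) ∧ BL (φ g) = r} with hV
  have hVfin : V.Finite := L.fin_values F δ hδpos
  have hVne : V.Nonempty := ⟨_, g0, hg0, by linarith, rfl⟩
  obtain ⟨M, hMV, hMmax⟩ := Set.exists_max_image V id hVfin hVne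
  obtain ⟨g, hg1, hgδ, hgM⟩ := hMV
  have hMδ : δ < M := by
    have := hMmax (BL (φ g0)) ⟨g0, hg0, by linarith, rfl⟩
    simp only [id] at this
    linarith
  have hmax : ∀ g' : G, g' ≠ 1 → BL (φ g') ≤ M := by
    intro g' hg'
    by_cases h : δ ≤ BL (φ g')
    · exact hMmax _ ⟨g', hg', h, rfl⟩
    · push Not at h
      linarith
  -- the gap
  have hclosed : IsClosed (V \ {M}) := (hVfin.subset Set.sdiff_subset).isClosed
  have hmem : (V \ {M})ᶜ ∈ 𝓝 M := hclosed.isOpen_compl.mem_nhds (by simp)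
  obtain ⟨η', hη', hball⟩ := Metric.mem_nhds_iff.mp hmem
  refine ⟨g, min η' (M - δ), hg1, by rw [hgM]; linarith, lt_min hη' (by linarith), ?_⟩
  intro g' hg'
  rw [hgM]
  refine ⟨hmax g' hg', ?_⟩
  intro hlt
  by_contra hne
  have h1 := hmax g' hg'
  have h2 : δ ≤ BL (φ g') := by
    have := min_le_right η' (M - δ)
    linarith
  have h3 : BL (φ g') ∈ V \ {M} := ⟨⟨g', hg', h2, rfl⟩, hne⟩
  have h4 : BL (φ g') ∈ Metric.ball M η' := by
    rw [Metric.mem_ball, Real.dist_eq, abs_lt]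
    have := min_le_left η' (M - δ)
    constructor <;> linarith
  exact hball h4 h3

end Level

end ext

end Pool.Agent.Helper37_Frob
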