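import Mathlib

set_option autoImplicit false

open Filter Topology

namespace Pool.Agent.Helper37_Frob

/-- An action of the integers by endomorphisms. -/
structure ZAct {K : Type*} [Group K] (B : ℤ → K →* K) : Prop where
  zero : ∀ x, B 0 x = x
  add : ∀ m n x, B (m + n) x = B m (B n x)

section grp

variable {K : Type*} [Group K] {B : ℤ → K →* K} (hB : ZAct B)

include hB in
theorem ZAct.inj (n : ℤ) : Function.Injective (B n) := by
  intro x y h
  have := congrArg (B (-n)) h
  rwa [← hB.add, ← hB.add, neg_add_cancel, hB.zero, hB.zero] at this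

include hB in
theorem ZAct.comm (m n : ℤ) (x : K) : B m (B n x) = B n (B m x) := by
  rw [← hB.add, ← hB.add, add_comm]

include hB in
theorem ZAct.eq_of_eq (hfree : ∀ (n : ℤ) (x : K), n ≠ 0 → B n x = x → x = 1) (m n : ℤ) (hmn : m ≠ n)
    (x : K) (h : B m x = B n x) : x = 1 := by
  refine hfree (m - n) x (sub_ne_zero.mpr hmn) ?_
  apply hB.inj n
  rw [← hB.add, add_sub_cancel, h]

/-- Finite orbit argument for a linear recurrence over a finite prime field. -/
theorem finite_orbit {p : ℕ} [Fact p.Prime] {M : Type*} [AddCommGroup M] [Module (ZMod p) M]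
    (t : Module.End (ZMod p) M) (c : M) (P : Polynomial (ZMod p)) (hP : P ≠ 0)
    (hPc : (Polynomial.aeval t P) c = 0) : (Set.range (fun n : ℕ => (t ^ n) c)).Finite := by
  set P' := P * Polynomial.C (P.leadingCoeff⁻¹) with hP'
  have hmonic : P'.Monic := Polynomial.monic_mul_leadingCoeff_inv hP
  have hP'c : (Polynomial.aeval t P') c = 0 := by
    rw [hP', mul_comm, map_mul, Module.End.mul_apply, hPc, map_zero]
  have hfin : Finite (Polynomial.degreeLT (ZMod p) P'.natDegree) :=
    Finite.of_equiv _ (Polynomial.degreeLTEquiv (ZMod p) P'.natDegree).symm.toEquiv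
  refine (Set.finite_range (fun Q : Polynomial.degreeLT (ZMod p) P'.natDegree =>
    (Polynomial.aeval t (Q : Polynomial (ZMod p))) c)).subset ?_
  rintro _ ⟨n, rfl⟩
  refine ⟨⟨(Polynomial.X ^ n) %ₘ P', ?_⟩, ?_⟩
  · rw [Polynomial.mem_degreeLT]
    calc ((Polynomial.X ^ n) %ₘ P').degree < P'.degree :=
          Polynomial.degree_modByMonic_lt _ hmonic
      _ = P'.natDegree := Polynomial.degree_eq_natDegree hmonic.ne_zero
  · simp only
    have h1 := Polynomial.modByMonic_add_div (Polynomial.X ^ n) P'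
    have h2 := congrArg (fun R => (Polynomial.aeval t R) c) h1
    simp only [map_add, LinearMap.add_apply, map_pow, Polynomial.aeval_X] at h2
    rw [mul_comm P', map_mul, Module.End.mul_apply, hP'c, map_zero, add_zero] at h2
    exact h2

end grp

section ab

variable {M : Type*} [AddCommGroup M] {B : ℤ → M →+ M} {κ : Type*} [Finite κ] {col : M → κ}

theorem pow_col (hcol : ∀ x x', col x = col x' → ∃ n : ℤ, B n x = x')
    (q : ℕ) (hq : 2 ≤ q) (d : M) (hd : ¬ IsOfFinAddOrder d) (hB0 : ∀ x, B 0 x = x) :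
    ∃ (i e : ℕ) (s : ℤ), 1 ≤ e ∧ s ≠ 0 ∧ B s (q ^ i • d) = q ^ e • (q ^ i • d) ∧
      ¬ IsOfFinAddOrder (q ^ i • d) := by
  have hinj := injective_nsmul_iff_not_isOfFinAddOrder.mpr hd
  have hni : ∀ i : ℕ, ¬ IsOfFinAddOrder (q ^ i • d) := by
    intro i h
    apply hd
    rw [isOfFinAddOrder_iff_nsmul_eq_zero] at h ⊢
    obtain ⟨n, hn, hn'⟩ := h
    refine ⟨n * q ^ i, by positivity, ?_⟩
    rw [mul_smul]; exact hn'
  obtain ⟨i, j, hij, hc⟩ := Finite.exists_ne_map_eq_of_infinite (fun i : ℕ => col (q ^ i • d))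
  have main : ∀ i j : ℕ, i < j → col (q ^ i • d) = col (q ^ j • d) →
      ∃ (i e : ℕ) (s : ℤ), 1 ≤ e ∧ s ≠ 0 ∧ B s (q ^ i • d) = q ^ e • (q ^ i • d) ∧
      ¬ IsOfFinAddOrder (q ^ i • d) := by
    intro i j hij hc
    obtain ⟨s, hs⟩ := hcol _ _ hc
    refine ⟨i, j - i, s, by omega, ?_, ?_, hni i⟩
    · rintro rfl
      rw [hB0] at hs
      have := hinj hs
      have h2 := Nat.pow_lt_pow_right (by omega : 1 < q) hij
      omega
    · rw [hs, ← mul_smul, ← pow_add]
      congr 2; omega
  rcases lt_or_gt_of_ne hij with h | h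
  · exact main i j h hc
  · exact main j i h hc.symm

theorem iter_nsmul (hB0 : ∀ x, B 0 x = x) (hBadd : ∀ m n x, B (m + n) x = B m (B n x))
    (s : ℤ) (d : M) (u : ℕ) (h : B s d = u • d) (n : ℕ) : B (n * s) d = u ^ n • d := by
  induction n with
  | zero => simp [hB0]
  | succ n ih =>
    have : ((n + 1 : ℕ) : ℤ) * s = s + n * s := by push_cast; ring
    rw [this, hBadd, ih, map_nsmul, h, ← mul_smul, ← pow_succ]

theorem torsion (hcol : ∀ x x', col x = col x' → ∃ n : ℤ, B n x = x')
    (hB0 : ∀ x, B 0 x = x) (hBadd : ∀ m n x, B (m + n) x = B m (B n x)) (x0 : M) :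
    IsOfFinAddOrder x0 := by
  by_contra hx0
  obtain ⟨i, e, s, he, hs, hBs, hd⟩ := pow_col hcol 2 le_rfl x0 hx0 hB0
  set d := 2 ^ i • x0 with hdd
  obtain ⟨i', f, s', hf, hs', hBs', hd'⟩ := pow_col hcol 3 (by norm_num) d hd hB0
  set d' := 3 ^ i' • d with hdd'
  have hBs2 : B s d' = 2 ^ e • d' := by
    rw [hdd', map_nsmul, hBs, smul_comm]
  have h1 := iter_nsmul hB0 hBadd s d' _ hBs2 s'.natAbs
  have h2 := iter_nsmul hB0 hBadd s' d' _ hBs' s.natAbs
  have hinj := injective_nsmul_iff_not_isOfFinAddOrder.mpr hd'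
  have hs1 : 1 ≤ s.natAbs := Nat.one_le_iff_ne_zero.mpr (Int.natAbs_ne_zero.mpr hs)
  have hs1' : 1 ≤ s'.natAbs := Nat.one_le_iff_ne_zero.mpr (Int.natAbs_ne_zero.mpr hs')
  rw [← pow_mul] at h1 h2
  have hE : 1 ≤ e * s'.natAbs := Nat.one_le_iff_ne_zero.mpr (by positivity)
  have hF : 1 ≤ f * s.natAbs := Nat.one_le_iff_ne_zero.mpr (by positivity)
  have hcases : (s'.natAbs : ℤ) * s = s.natAbs * s' ∨ (s'.natAbs : ℤ) * s = -(s.natAbs * s') := by
    rcases s.natAbs_eq with h | h <;> rcases s'.natAbs_eq with h' | h'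
    · left; rw [h, h']; simp; ring
    · right; rw [h, h']; simp; ring
    · right; rw [h, h']; simp; ring
    · left; rw [h, h']; simp; ring
  rcases hcases with h | h
  · rw [h, h2] at h1
    have h3 := hinj h1
    have h4 : 2 ∣ 3 ^ (f * s.natAbs) := by
      rw [h3]
      exact dvd_pow_self 2 (by omega)
    have h5 := Nat.Prime.dvd_of_dvd_pow Nat.prime_two h4
    omega
  · have h3 : d' = (2 ^ (e * s'.natAbs) * 3 ^ (f * s.natAbs)) • d' := by
      have h4 : B (s.natAbs * s' + s'.natAbs * s) d' = d' := by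
        rw [h, add_neg_cancel, hB0]
      rw [hBadd, h1, map_nsmul, h2, ← mul_smul] at h4
      exact h4.symm
    have h4 : (1 : ℕ) • d' = (2 ^ (e * s'.natAbs) * 3 ^ (f * s.natAbs)) • d' := by
      rw [one_smul]; exact h3
    have h5 := hinj h4
    have h6 : 2 ≤ 2 ^ (e * s'.natAbs) := by
      calc 2 = 2 ^ 1 := by norm_num
        _ ≤ 2 ^ (e * s'.natAbs) := Nat.pow_le_pow_right (by norm_num) hE
    have h7 : 1 ≤ 3 ^ (f * s.natAbs) := Nat.one_le_pow _ _ (by norm_num)
    nlinarith

theorem ab_p {p : ℕ} [Fact p.Prime] [Module (ZMod p) M]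
    (hB0 : ∀ x, B 0 x = x) (hBadd : ∀ m n x, B (m + n) x = B m (B n x))
    (hfree : ∀ (n : ℤ) (x : M), n ≠ 0 → B n x = x → x = 0)
    (hcol : ∀ x x', col x = col x' → ∃ n : ℤ, B n x = x')
    (x0 : M) (hx0 : x0 ≠ 0) : False := by
  let t : Module.End (ZMod p) M := (B 1).toZModLinearMap p
  have ht : ∀ x : M, t x = B 1 x := fun x => rfl
  have htn : ∀ (n : ℕ) (x : M), (t ^ n) x = B n x := by
    intro n x
    induction n with
    | zero => simp [hB0]
    | succ n ih =>
      rw [pow_succ', Module.End.mul_apply, ih, ht, ← hBadd]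
      congr 2; push_cast; ring
  have main : ∀ (i j s : ℕ), i ≠ j →
      B s (x0 + B (i + 1 : ℕ) x0) = x0 + B (j + 1 : ℕ) x0 → False := by
    intro i j s hij h
    let P : Polynomial (ZMod p) := Polynomial.X ^ s * (1 + Polynomial.X ^ (i + 1)) -
      (1 + Polynomial.X ^ (j + 1))
    have hPc : (Polynomial.aeval t P) x0 = 0 := by
      simp only [P, map_sub, map_mul, map_pow, map_add, map_one, Polynomial.aeval_X,
        LinearMap.sub_apply, LinearMap.add_apply, Module.End.mul_apply, Module.End.one_apply]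
      rw [htn, htn, htn, htn, ← h, map_add, sub_self]
    have hP : P ≠ 0 := by
      intro h0
      rcases Nat.eq_zero_or_pos s with hs | hs
      · have h1 := congrArg (fun R => Polynomial.coeff R (i + 1)) h0
        simp [P, hs, Polynomial.coeff_X_pow, hij] at h1
      · have h1 := congrArg (fun R => Polynomial.coeff R 0) h0
        have hs0 : (0 : ℕ) ≠ s := hs.ne
        simp [P, Polynomial.coeff_X_pow, Polynomial.mul_coeff_zero, hs0] at h1
    have hfin := finite_orbit t x0 P hP hPc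
    obtain ⟨m, -, n, -, hmn, hh⟩ := Set.infinite_univ (α := ℕ) |>.exists_ne_map_eq_of_mapsTo
      (f := fun n : ℕ => (t ^ n) x0) (fun n _ => Set.mem_range_self n) hfin
    simp only [htn] at hh
    have h1 : B ((m : ℤ) - n) x0 = x0 := by
      have h2 := congrArg (B (-n)) hh
      rw [← hBadd, ← hBadd, neg_add_cancel, hB0] at h2
      rw [sub_eq_neg_add]; exact h2
    exact hx0 (hfree _ x0 (sub_ne_zero.mpr (by exact_mod_cast hmn)) h1)
  obtain ⟨i, j, hij, hc⟩ := Finite.exists_ne_map_eq_of_infinite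
    (fun i : ℕ => col (x0 + B (i + 1 : ℕ) x0))
  obtain ⟨s, hs⟩ := hcol _ _ hc
  obtain ⟨n, rfl | rfl⟩ := s.eq_nat_or_neg
  · exact main i j n hij hs
  · refine main j i n hij.symm ?_
    rw [← hs, ← hBadd, add_neg_cancel, hB0]

theorem ab_contra (hB0 : ∀ x, B 0 x = x) (hBadd : ∀ m n x, B (m + n) x = B m (B n x))
    (hfree : ∀ (n : ℤ) (x : M), n ≠ 0 → B n x = x → x = 0)
    (hcol : ∀ x x', col x = col x' → ∃ n : ℤ, B n x = x')
    (hmin : ∀ S : AddSubgroup M, (∀ (n : ℤ) (x : M), x ∈ S → B n x ∈ S) → S = ⊥ ∨ S = ⊤)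
    (x0 : M) (hx0 : x0 ≠ 0) : False := by
  have htor := torsion hcol hB0 hBadd x0
  -- exponent p
  obtain ⟨p, hp, c, hc, hpc⟩ : ∃ p : ℕ, p.Prime ∧ ∃ c : M, c ≠ 0 ∧ p • c = 0 := by
    have hn : addOrderOf x0 ≠ 1 := by
      rw [Ne, AddMonoid.addOrderOf_eq_one_iff]; exact hx0
    have hn0 : 0 < addOrderOf x0 := htor.addOrderOf_pos
    refine ⟨(addOrderOf x0).minFac, Nat.minFac_prime hn,
      (addOrderOf x0 / (addOrderOf x0).minFac) • x0, ?_, ?_⟩
    · intro h
      have h1 := addOrderOf_dvd_of_nsmul_eq_zero h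
      have h2 : 0 < addOrderOf x0 / (addOrderOf x0).minFac :=
        Nat.div_pos (Nat.minFac_le hn0) (Nat.minFac_pos _)
      have h3 := Nat.le_of_dvd h2 h1
      have h4 := Nat.div_lt_self hn0 (Nat.minFac_prime hn).one_lt
      omega
    · rw [← mul_smul, Nat.mul_div_cancel' (Nat.minFac_dvd _)]
      exact addOrderOf_nsmul_eq_zero x0
  have hexp : ∀ x : M, p • x = 0 := by
    let S : AddSubgroup M :=
      { carrier := {x | p • x = 0}
        add_mem' := by
          intro x y hx hy
          change p • (x + y) = 0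
          have hx' : p • x = 0 := hx
          have hy' : p • y = 0 := hy
          rw [smul_add, hx', hy', add_zero]
        zero_mem' := smul_zero _
        neg_mem' := by
          intro x hx
          change p • (-x) = 0
          have hx' : p • x = 0 := hx
          rw [smul_neg, hx', neg_zero] }
    have hS : S = ⊥ ∨ S = ⊤ := by
      apply hmin
      intro n x hx
      change p • (B n x) = 0
      have hx' : p • x = 0 := hx
      rw [← map_nsmul, hx', map_zero]
    rcases hS with h | h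
    · exfalso
      have : c ∈ S := hpc
      rw [h, AddSubgroup.mem_bot] at this
      exact hc this
    · intro x
      have : x ∈ S := by rw [h]; exact AddSubgroup.mem_top _
      exact this
  have : Fact p.Prime := ⟨hp⟩
  let _ : Module (ZMod p) M := AddCommGroup.zmodModule hexp
  exact ab_p (p := p) hB0 hBadd hfree hcol x0 hx0

end ab

end Pool.Agent.Helper37_Frob
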