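import Mathlib
import Pool.Agent.Helper37_Frob.Grp

set_option autoImplicit false

open Filter Topology

namespace Pool.Agent.Helper37_Frob

section grp2

variable {K : Type*} [Group K] {B : ℤ → K →* K} {κ : Type*} {col : K → κ}

theorem closure_top (hB : ZAct B)
    (hmin : ∀ S : Subgroup K, (∀ (n : ℤ) (x : K), x ∈ S → B n x ∈ S) → S = ⊥ ∨ S = ⊤)
    (c : K) (hc : c ≠ 1) : Subgroup.closure (Set.range (fun n : ℤ => B n c)) = ⊤ := by
  have h := hmin (Subgroup.closure (Set.range (fun n : ℤ => B n c))) ?_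
  · rcases h with h | h
    · exfalso
      have h1 : c ∈ Subgroup.closure (Set.range (fun n : ℤ => B n c)) :=
        Subgroup.subset_closure ⟨0, hB.zero c⟩
      rw [h, Subgroup.mem_bot] at h1
      exact hc h1
    · exact h
  · intro n x hx
    induction hx using Subgroup.closure_induction with
    | mem x hx =>
      obtain ⟨m, rfl⟩ := hx
      simp only
      rw [← hB.add]
      exact Subgroup.subset_closure ⟨n + m, rfl⟩
    | one => rw [map_one]; exact one_mem _
    | mul x y _ _ hx hy => rw [map_mul]; exact mul_mem hx hy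
    | inv x _ hx => rw [map_inv]; exact inv_mem hx

/-- Homomorphisms commuting with the action that are nontrivial are bijective. -/
theorem hom_bij (hmin : ∀ S : Subgroup K, (∀ (n : ℤ) (x : K), x ∈ S → B n x ∈ S) → S = ⊥ ∨ S = ⊤)
    (φ : K →* K) (hφ : ∀ n k, φ (B n k) = B n (φ k)) (x : K) (hx : φ x ≠ 1) :
    Function.Bijective φ := by
  constructor
  · rw [← MonoidHom.ker_eq_bot_iff]
    rcases hmin φ.ker (fun n x hx => by
      rw [MonoidHom.mem_ker] at hx ⊢
      rw [hφ, hx, map_one]) with h | h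
    · exact h
    · exfalso
      apply hx
      have : x ∈ φ.ker := by rw [h]; exact Subgroup.mem_top _
      exact this
  · rw [← MonoidHom.range_eq_top]
    rcases hmin φ.range (fun n x hx => by
      obtain ⟨w, rfl⟩ := hx
      exact ⟨B n w, hφ n w⟩) with h | h
    · exfalso
      apply hx
      have : φ x ∈ φ.range := ⟨x, rfl⟩
      rw [h, Subgroup.mem_bot] at this
      exact this
    · exact h

theorem trans_hom (hB : ZAct B) [Finite κ]
    (hfree : ∀ (n : ℤ) (x : K), n ≠ 0 → B n x = x → x = 1)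
    (hcol : ∀ x x', col x = col x' → ∃ n : ℤ, B n x = x')
    (hmin : ∀ S : Subgroup K, (∀ (n : ℤ) (x : K), x ∈ S → B n x ∈ S) → S = ⊥ ∨ S = ⊤)
    (q : Ultrafilter ℤ) (hq : ∀ n : ℤ, ∀ᶠ v in (q : Filter ℤ), v ≠ n)
    (hab : ∀ x x' : K, ∀ᶠ v in (q : Filter ℤ), Commute (B v x) x')
    (x y : K) (hx : x ≠ 1) (hy : y ≠ 1) :
    ∃ ω : K →* K, (∀ n k, ω (B n k) = B n (ω k)) ∧ ω x = y := by
  -- the colour of x * B v y is constant along q
  obtain ⟨j, hj⟩ : ∃ j : κ, (q.map (fun v : ℤ => col (x * B v y))) = pure j :=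
    Ultrafilter.eq_pure_of_finite _
  have hj' : ∀ᶠ v in (q : Filter ℤ), col (x * B v y) = j := by
    have : {j} ∈ q.map (fun v : ℤ => col (x * B v y)) := by
      rw [hj]; exact Ultrafilter.mem_pure.mpr rfl
    exact this
  have hne : ∀ᶠ v in (q : Filter ℤ), x * B v y ≠ 1 := by
    by_cases hex : ∃ v, x * B v y = 1
    · obtain ⟨v0, hv0⟩ := hex
      filter_upwards [hq v0] with v hv h
      apply hy
      exact hB.eq_of_eq hfree v v0 hv y (mul_left_cancel (h.trans hv0.symm))
    · push Not at hex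
      exact Eventually.of_forall hex
  obtain ⟨v0, hv0, hv0'⟩ := (hj'.and hne).exists
  set c := x * B v0 y with hc
  have ht : ∃ t : ℤ → ℤ, ∀ᶠ v in (q : Filter ℤ), B (t v) c = x * B v y := by
    have : ∀ v : ℤ, ∃ s : ℤ, col (x * B v y) = j → B s c = x * B v y := by
      intro v
      by_cases h : col (x * B v y) = j
      · obtain ⟨s, hs⟩ := hcol c (x * B v y) (hv0.trans h.symm)
        exact ⟨s, fun _ => hs⟩
      · exact ⟨0, fun h' => absurd h' h⟩
    choose t ht using this
    exact ⟨t, hj'.mono (fun v hv => ht v hv)⟩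
  obtain ⟨t, ht⟩ := ht
  let D : Subgroup (K × K × K) :=
    Subgroup.closure (Set.range (fun n : ℤ => (B n c, B n x, B n y)))
  have hDP : ∀ d ∈ D, ∀ᶠ v in (q : Filter ℤ), B (t v) d.1 = d.2.1 * B v d.2.2 := by
    intro d hd
    induction hd using Subgroup.closure_induction with
    | mem d hd =>
      obtain ⟨n, rfl⟩ := hd
      filter_upwards [ht] with v hv
      rw [hB.comm (t v) n, hv, map_mul, hB.comm n v]
    | one => simp
    | mul d d' _ _ hd hd' =>
      filter_upwards [hd, hd', hab d.2.2 d'.2.1] with v h1 h2 h3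
      simp only [Prod.fst_mul, Prod.snd_mul, map_mul]
      rw [h1, h2, mul_assoc, ← mul_assoc (B v d.2.2), h3.eq, mul_assoc, mul_assoc]
    | inv d _ hd =>
      filter_upwards [hd, hab d.2.2 d.2.1] with v h1 h2
      simp only [Prod.fst_inv, Prod.snd_inv, map_inv]
      rw [h1, mul_inv_rev]
      exact (h2.inv_inv).eq
  have hDuniq : ∀ k1 k2 : K, ((1 : K), k1, k2) ∈ D → k1 = 1 ∧ k2 = 1 := by
    intro k1 k2 hk
    have h1 := hDP _ hk
    simp only [map_one] at h1
    obtain ⟨v, hv⟩ := h1.exists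
    obtain ⟨v', hv', hvv⟩ := (h1.and (hq v)).exists
    have h2 : B v k2 = B v' k2 := mul_left_cancel (hv.symm.trans hv')
    have h3 : k2 = 1 := hB.eq_of_eq hfree v v' hvv.symm k2 h2
    refine ⟨?_, h3⟩
    rw [h3, map_one, mul_one] at hv
    exact hv.symm
  have hDinv : ∀ (n : ℤ) (d : K × K × K), d ∈ D → (B n d.1, B n d.2.1, B n d.2.2) ∈ D := by
    intro n d hd
    induction hd using Subgroup.closure_induction with
    | mem d hd =>
      obtain ⟨m, rfl⟩ := hd
      refine Subgroup.subset_closure ⟨n + m, ?_⟩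
      simp only [hB.add]
    | one =>
      simp only [Prod.fst_one, Prod.snd_one, map_one]
      exact one_mem D
    | mul d d' _ _ hd hd' =>
      have := mul_mem hd hd'
      simpa using this
    | inv d _ hd =>
      have := inv_mem hd
      simpa using this
  have hDex : ∀ k : K, ∃ k1 k2, (k, k1, k2) ∈ D := by
    intro k
    have h1 : k ∈ Subgroup.closure (Set.range (fun n : ℤ => B n c)) := by
      rw [closure_top hB hmin c hv0']; exact Subgroup.mem_top _
    induction h1 using Subgroup.closure_induction with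
    | mem k hk =>
      obtain ⟨n, rfl⟩ := hk
      exact ⟨B n x, B n y, Subgroup.subset_closure ⟨n, rfl⟩⟩
    | one => exact ⟨1, 1, one_mem D⟩
    | mul k k' _ _ hk hk' =>
      obtain ⟨k1, k2, h⟩ := hk
      obtain ⟨k1', k2', h'⟩ := hk'
      exact ⟨k1 * k1', k2 * k2', mul_mem h h'⟩
    | inv k _ hk =>
      obtain ⟨k1, k2, h⟩ := hk
      exact ⟨k1⁻¹, k2⁻¹, inv_mem h⟩
  choose f g hfg using hDex
  have huniq : ∀ k k1 k2, (k, k1, k2) ∈ D → k1 = f k ∧ k2 = g k := by
    intro k k1 k2 h
    have h1 := mul_mem h (inv_mem (hfg k))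
    have h2 : (k, k1, k2) * (k, f k, g k)⁻¹ = ((1 : K), k1 * (f k)⁻¹, k2 * (g k)⁻¹) := by
      ext <;> simp
    rw [h2] at h1
    obtain ⟨h3, h4⟩ := hDuniq _ _ h1
    exact ⟨mul_inv_eq_one.mp h3, mul_inv_eq_one.mp h4⟩
  let φ : K →* K := MonoidHom.mk' f (fun k k' =>
    ((huniq (k * k') (f k * f k') (g k * g k') (mul_mem (hfg k) (hfg k'))).1).symm)
  let ψ : K →* K := MonoidHom.mk' g (fun k k' =>
    ((huniq (k * k') (f k * f k') (g k * g k') (mul_mem (hfg k) (hfg k'))).2).symm)
  have hφB : ∀ n k, φ (B n k) = B n (φ k) := by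
    intro n k
    exact ((huniq _ _ _ (hDinv n _ (hfg k))).1).symm
  have hψB : ∀ n k, ψ (B n k) = B n (ψ k) := by
    intro n k
    exact ((huniq _ _ _ (hDinv n _ (hfg k))).2).symm
  have hcD : (c, x, y) ∈ D := by
    refine Subgroup.subset_closure ⟨0, ?_⟩
    simp only [hB.zero]
  have hφc : φ c = x := ((huniq _ _ _ hcD).1).symm
  have hψc : ψ c = y := ((huniq _ _ _ hcD).2).symm
  have hφbij := hom_bij hmin φ hφB c (by rw [hφc]; exact hx)
  let Φ : K ≃* K := MulEquiv.ofBijective φ hφbij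
  have hΦ : ∀ k, Φ k = φ k := fun k => rfl
  refine ⟨ψ.comp Φ.symm.toMonoidHom, ?_, ?_⟩
  · intro n k
    have h1 : Φ.symm (B n k) = B n (Φ.symm k) := by
      rw [MulEquiv.symm_apply_eq, hΦ, hφB, ← hΦ, MulEquiv.apply_symm_apply]
    change ψ (Φ.symm (B n k)) = B n (ψ (Φ.symm k))
    rw [h1, hψB]
  · change ψ (Φ.symm x) = y
    have h1 : Φ.symm x = c := by
      rw [MulEquiv.symm_apply_eq, hΦ, hφc]
    rw [h1, hψc]

theorem min_contra (hB : ZAct B) [Finite κ]
    (hfree : ∀ (n : ℤ) (x : K), n ≠ 0 → B n x = x → x = 1)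
    (hcol : ∀ x x', col x = col x' → ∃ n : ℤ, B n x = x')
    (hmin : ∀ S : Subgroup K, (∀ (n : ℤ) (x : K), x ∈ S → B n x ∈ S) → S = ⊥ ∨ S = ⊤)
    (q : Ultrafilter ℤ) (hq : ∀ n : ℤ, ∀ᶠ v in (q : Filter ℤ), v ≠ n)
    (hab : ∀ x x' : K, ∀ᶠ v in (q : Filter ℤ), Commute (B v x) x')
    (x0 : K) (hx0 : x0 ≠ 1) : False := by
  obtain ⟨j, hj⟩ : ∃ j : κ, (q.map (fun v : ℤ => col (x0 * B v x0))) = pure j :=
    Ultrafilter.eq_pure_of_finite _
  have hj' : ∀ᶠ v in (q : Filter ℤ), col (x0 * B v x0) = j := by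
    have : {j} ∈ q.map (fun v : ℤ => col (x0 * B v x0)) := by
      rw [hj]; exact Ultrafilter.mem_pure.mpr rfl
    exact this
  -- the maps x ↦ x * B v x agree up to the action
  have hΛ : ∀ v v', col (x0 * B v x0) = j → col (x0 * B v' x0) = j →
      ∃ s : ℤ, ∀ x : K, B s (x * B v x) = x * B v' x := by
    intro v v' hv hv'
    obtain ⟨s, hs⟩ := hcol _ _ (hv.trans hv'.symm)
    refine ⟨s, fun x => ?_⟩
    by_cases hx : x = 1
    · subst hx; simp
    · obtain ⟨ω, hω, hωx⟩ := trans_hom hB hfree hcol hmin q hq hab x0 x hx0 hx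
      have := congrArg ω hs
      rw [hω, map_mul ω, map_mul ω, hω, hω, hωx] at this
      exact this
  have hcomm1 : ∀ v v', col (x0 * B v x0) = j → col (x0 * B v' x0) = j →
      ∀ x y : K, Commute (B v x) y → Commute (B v' x) y := by
    intro v v' hv hv' x y h
    obtain ⟨s, hs⟩ := hΛ v v' hv hv'
    have h1 : (x * y) * B v (x * y) = (x * B v x) * (y * B v y) := by
      rw [map_mul]
      calc x * y * (B v x * B v y) = x * (y * B v x) * B v y := by group
        _ = x * (B v x * y) * B v y := by rw [h.eq]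
        _ = _ := by group
    have h2 : (x * y) * B v' (x * y) = (x * B v' x) * (y * B v' y) := by
      rw [← hs (x * y), h1, map_mul, hs, hs]
    rw [map_mul] at h2
    have h3 : x * (y * B v' x) * B v' y = x * (B v' x * y) * B v' y := by
      calc x * (y * B v' x) * B v' y = x * y * (B v' x * B v' y) := by group
        _ = (x * B v' x) * (y * B v' y) := h2
        _ = _ := by group
    have h4 := mul_left_cancel (mul_right_cancel h3)
    exact h4.symm
  obtain ⟨v0, hv0⟩ := hj'.exists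
  have hcomm : ∀ x y : K, x * y = y * x := by
    intro x y
    obtain ⟨v, hv1, hv2⟩ := (hj'.and (hab (B (-v0) x) y)).exists
    have h1 := hcomm1 v v0 hv1 hv0 (B (-v0) x) y hv2
    rw [← hB.add, add_neg_cancel, hB.zero] at h1
    exact h1.eq
  -- additive version
  let _ : AddCommGroup (Additive K) :=
    { (inferInstance : AddGroup (Additive K)) with
      add_comm := fun a b => hcomm a.toMul b.toMul }
  let B' : ℤ → Additive K →+ Additive K := fun n => MonoidHom.toAdditive (B n)
  refine ab_contra (M := Additive K) (B := B') (κ := κ) (col := fun x => col x.toMul) ?_ ?_ ?_ ?_ ?_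
    (Additive.ofMul x0) ?_
  · intro x
    exact hB.zero x.toMul
  · intro m n x
    exact hB.add m n x.toMul
  · intro n x hn hx
    exact hfree n x.toMul hn hx
  · intro x x' h
    obtain ⟨n, hn⟩ := hcol _ _ h
    exact ⟨n, hn⟩
  · intro S hS
    let S' : Subgroup K :=
      { carrier := {x | Additive.ofMul x ∈ S}
        mul_mem' := by
          intro x y hx hy
          exact S.add_mem hx hy
        one_mem' := S.zero_mem
        inv_mem' := by
          intro x hx
          exact S.neg_mem hx }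
    rcases hmin S' (fun n x hx => hS n (Additive.ofMul x) hx) with h | h
    · left
      rw [AddSubgroup.eq_bot_iff_forall]
      intro x hx
      have : x.toMul ∈ S' := hx
      rw [h, Subgroup.mem_bot] at this
      exact this
    · right
      rw [AddSubgroup.eq_top_iff']
      intro x
      have : x.toMul ∈ S' := by rw [h]; exact Subgroup.mem_top _
      exact this
  · exact hx0

/-- Reduction to a minimal invariant subgroup. -/
theorem grp_contra (hB : ZAct B) [Finite κ]
    (hfree : ∀ (n : ℤ) (x : K), n ≠ 0 → B n x = x → x = 1)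
    (hcol : ∀ x x', col x = col x' → ∃ n : ℤ, B n x = x')
    (q : Ultrafilter ℤ) (hq : ∀ n : ℤ, ∀ᶠ v in (q : Filter ℤ), v ≠ n)
    (hab : ∀ x x' : K, ∀ᶠ v in (q : Filter ℤ), Commute (B v x) x')
    (x0 : K) (hx0 : x0 ≠ 1) : False := by
  classical
  let P : Subgroup K → Prop := fun S => (∀ (n : ℤ) (x : K), x ∈ S → B n x ∈ S) ∧ S ≠ ⊥
  have hex : ∃ n : ℕ, ∃ S : Subgroup K, P S ∧ (col '' (S : Set K)).ncard = n := by
    refine ⟨_, ⊤, ⟨fun n x _ => Subgroup.mem_top _, ?_⟩, rfl⟩
    intro h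
    have : x0 ∈ (⊤ : Subgroup K) := Subgroup.mem_top _
    rw [h, Subgroup.mem_bot] at this
    exact hx0 this
  obtain ⟨S, ⟨hSinv, hSne⟩, hScard⟩ := Nat.find_spec hex
  have hmin' : ∀ S' : Subgroup K, S' ≤ S → (∀ (n : ℤ) (x : K), x ∈ S' → B n x ∈ S') →
      S' ≠ ⊥ → S' = S := by
    intro S' hle hinv hne
    refine le_antisymm hle ?_
    intro x hx
    have h1 : Nat.find hex ≤ (col '' (S' : Set K)).ncard :=
      Nat.find_min' hex ⟨S', ⟨hinv, hne⟩, rfl⟩
    rw [← hScard] at h1
    have h2 : col '' (S' : Set K) = col '' (S : Set K) := by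
      apply Set.eq_of_subset_of_ncard_le (Set.image_mono hle) h1
    have h3 : col x ∈ col '' (S' : Set K) := by
      rw [h2]; exact ⟨x, hx, rfl⟩
    obtain ⟨x', hx', hxx⟩ := h3
    obtain ⟨n, hn⟩ := hcol _ _ hxx
    rw [← hn]
    exact hinv n x' hx'
  obtain ⟨s0, hs0, hs0'⟩ : ∃ s0 ∈ S, s0 ≠ 1 := by
    by_contra hcon
    push Not at hcon
    exact hSne (Subgroup.eq_bot_iff_forall S |>.mpr hcon)
  let B' : ℤ → S →* S := fun n =>
    ((B n).comp S.subtype).codRestrict S (fun x => hSinv n x x.2)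
  have hB' : ∀ n (x : S), ((B' n x : S) : K) = B n x := fun n x => rfl
  refine min_contra (K := S) (B := B') (κ := κ) (col := fun x : S => col x) ?_ ?_ ?_ ?_ q hq ?_
    ⟨s0, hs0⟩ ?_
  · refine ⟨?_, ?_⟩
    · intro x
      ext
      rw [hB', hB.zero]
    · intro m n x
      ext
      rw [hB', hB', hB', hB.add]
  · intro n x hn hx
    have h1 := congrArg Subtype.val hx
    rw [hB'] at h1
    exact Subtype.ext (hfree n x hn h1)
  · intro x x' h
    obtain ⟨n, hn⟩ := hcol _ _ h
    exact ⟨n, Subtype.ext hn⟩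
  · intro R hR
    have h1 := hmin' (R.map S.subtype) (Subgroup.map_subtype_le R) ?_
    · by_cases h2 : R.map S.subtype = ⊥
      · left
        exact (Subgroup.map_eq_bot_iff_of_injective R S.subtype_injective).mp h2
      · right
        have h3 := h1 h2
        rw [Subgroup.eq_top_iff']
        intro x
        have h4 : (x : K) ∈ R.map S.subtype := by rw [h3]; exact x.2
        obtain ⟨y, hy, hyx⟩ := h4
        have : y = x := Subtype.ext hyx
        rwa [← this]
    · rintro n _ ⟨y, hy, rfl⟩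
      exact ⟨B' n y, hR n y hy, rfl⟩
  · intro x x'
    filter_upwards [hab x x'] with v hv
    apply Subtype.ext
    exact hv.eq
  · intro h
    exact hs0' (congrArg Subtype.val h)

end grp2

end Pool.Agent.Helper37_Frob
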