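import Mathlib
import Pool.Agent.Helper37_Frob.Extremal

set_option autoImplicit false

open Filter Topology

namespace Pool.Agent.Helper37_Frob

theorem Bd.abs' {α : Type*} {f : α → ℝ} (hf : Bd f) : Bd (fun x => |f x|) := by
  obtain ⟨C, hC⟩ := hf
  exact ⟨C, fun x => by rw [abs_abs]; exact hC x⟩

theorem Bd.min' {α : Type*} {f g : α → ℝ} (hf : Bd f) (hg : Bd g) :
    Bd (fun x => min (f x) (g x)) := by
  obtain ⟨C, hC⟩ := hf
  obtain ⟨D, hD⟩ := hg
  refine ⟨max C D, fun x => ?_⟩
  change |min (f x) (g x)| ≤ _
  rcases le_total (f x) (g x) with h | h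
  · rw [min_eq_left h]; exact (hC x).trans (le_max_left _ _)
  · rw [min_eq_right h]; exact (hD x).trans (le_max_right _ _)

theorem Bd.max' {α : Type*} {f g : α → ℝ} (hf : Bd f) (hg : Bd g) :
    Bd (fun x => max (f x) (g x)) := by
  obtain ⟨C, hC⟩ := hf
  obtain ⟨D, hD⟩ := hg
  refine ⟨max C D, fun x => ?_⟩
  change |max (f x) (g x)| ≤ _
  rcases le_total (f x) (g x) with h | h
  · rw [max_eq_right h]; exact (hD x).trans (le_max_right _ _)
  · rw [max_eq_left h]; exact (hC x).trans (le_max_left _ _)

section ext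

variable {G Ω ι : Type*} [Group G] [MulAction G Ω] {a : Ω → G} {c : Ω → Ω → ι}
  (F : FrobData a c)
variable {y : Ω} {ρ : ℤ → ℝ} {ε : ℝ} {φ : G → ℤ → ℝ}

/-- Conjugate by a power of `β` times inverse. -/
def el (β g : G) (k : ℤ) : G := β ^ k * g * β ^ (-k) * g⁻¹

include F in
theorem conj_inj (g : G) (hg : g • y ≠ y) (k k' : ℤ)
    (h : a y ^ k * g * a y ^ (-k) = a y ^ k' * g * a y ^ (-k')) : k = k' := by
  have h1 : (a y ^ k) • (g • y) = (a y ^ k') • (g • y) := by
    have := congrArg (fun u : G => u • y) h
    simp only [mul_smul, F.pow_fix] at this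
    exact this
  exact F.pow_smul_inj y (g • y) hg k k' h1

include F in
theorem el_inj (g : G) (hg : g • y ≠ y) (k k' : ℤ) (h : el (a y) g k = el (a y) g k') : k = k' :=
  conj_inj F g hg k k' (mul_right_cancel h)

include F in
theorem el_ne_one (g : G) (hg : g • y ≠ y) (k : ℤ) (hk : k ≠ 0) : el (a y) g k ≠ 1 := by
  intro h
  apply hk
  apply el_inj F g hg k 0
  rw [h]; simp [el]

include F in
theorem Level.one_sided (hρ : BohrNorm ρ) (hε : 0 < ε) (L : Level y (a y) ρ ε φ)
    (hinf : ∀ δ : ℝ, 0 < δ → {k : ℤ | ρ k < δ}.Infinite)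
    (g : G) (η : ℝ) (hg : g ≠ 1) (hpos : 0 < BL (φ g))
    (hmax : ∀ g' : G, g' ≠ 1 → BL (φ g') ≤ BL (φ g) ∧
      (BL (φ g) - η < BL (φ g') → BL (φ g') = BL (φ g)))
    (k : ℤ) (hk : ρ k < η) (j : ℤ) : φ g j ≤ φ g (j - k) := by
  classical
  have hgy : g • y ≠ y := by
    obtain ⟨j, hj⟩ : ∃ j, 0 < φ g j := by
      by_contra hcon
      push Not at hcon
      have h1 : φ g = fun _ => 0 := by
        ext j; exact le_antisymm (hcon j) (L.nonneg g j)
      rw [h1, BL_const] at hpos
      exact lt_irrefl _ hpos
    exact L.ne_fix g j hg hj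
  set M := BL (φ g) with hM
  set e := a y ^ k * g * a y ^ (-k) with he
  have hφe : ∀ j, φ e j = φ g (j - k) := fun j => L.conj_apply g k j
  have hφe' : ∀ j, φ g j - ρ k ≤ φ e j := by
    intro j
    rw [hφe]
    have := L.lip g j (j - k)
    have h2 : j - k - j = -k := by ring
    rw [h2, hρ.neg] at this
    exact this
  set R := BL (fun j => min (φ g j) (φ e j)) with hR
  -- elements el k'
  have hA1 : ∀ k' j, φ g j - ρ k' ≤ φ (el (a y) g k') j := by
    intro k' j
    have h1 := L.mul (a y ^ k' * g * a y ^ (-k')) g⁻¹ j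
    rw [L.inv, L.conj_apply] at h1
    have h2 := L.lip g j (j - k')
    have h3 : j - k' - j = -k' := by ring
    rw [h3, hρ.neg] at h2
    have h4 := hρ.nonneg k'
    refine le_trans ?_ h1
    exact le_min h2 (by linarith)
  have hA3 : ∀ k', k' ≠ 0 → BL (fun j => |φ (el (a y) g k') j - φ g j|) ≤ 2 * ρ k' := by
    intro k' hk'
    have h1 := (hmax _ (el_ne_one F g hgy k' hk')).1
    have hb : Bd (φ (el (a y) g k') - φ g) := (L.bd _).sub (L.bd _)
    have h2 : BL (fun j => |φ (el (a y) g k') j - φ g j|) ≤
        BL ((φ (el (a y) g k') - φ g) + fun _ => 2 * ρ k') := by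
      refine BL_isMean.mono _ _ hb.abs' (hb.add (Bd.const _)) ?_
      intro j
      simp only [Pi.add_apply, Pi.sub_apply]
      have := hA1 k' j
      have := hρ.nonneg k'
      rw [abs_le]
      constructor <;> linarith
    rw [BL_isMean.add _ _ hb (Bd.const _), BL_const, BL_isMean.sub _ _ (L.bd _) (L.bd _)] at h2
    linarith
  have hA4 : ∀ k' k'', k' ≠ k'' → ∀ σ, ρ k' < σ → ρ k'' < σ →
      BL (fun j => max (φ ((el (a y) g k')⁻¹ * el (a y) g k'') j - φ g j) 0) ≤ 2 * σ := by
    intro k' k'' hkk σ h1 h2
    have hne : (el (a y) g k')⁻¹ * el (a y) g k'' ≠ 1 := by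
      intro h
      exact hkk (el_inj F g hgy k' k'' (inv_mul_eq_one.mp h))
    have h3 := (hmax _ hne).1
    have hb : Bd (φ ((el (a y) g k')⁻¹ * el (a y) g k'') - φ g) := (L.bd _).sub (L.bd _)
    have h4 : BL (fun j => max (φ ((el (a y) g k')⁻¹ * el (a y) g k'') j - φ g j) 0) ≤
        BL ((φ ((el (a y) g k')⁻¹ * el (a y) g k'') - φ g) + fun _ => 2 * σ) := by
      refine BL_isMean.mono _ _ (Bd.max' hb (Bd.const 0)) (hb.add (Bd.const _)) ?_
      intro j
      simp only [Pi.add_apply, Pi.sub_apply]
      have h5 := L.mul (el (a y) g k')⁻¹ (el (a y) g k'') j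
      rw [L.inv] at h5
      have h6 := hA1 k' j
      have h7 := hA1 k'' j
      have h8 : φ g j - σ ≤ min (φ (el (a y) g k') j) (φ (el (a y) g k'') j) :=
        le_min (by linarith) (by linarith)
      have := hρ.nonneg k'
      refine max_le (by linarith) (by linarith)
    rw [BL_isMean.add _ _ hb (Bd.const _), BL_const, BL_isMean.sub _ _ (L.bd _) (L.bd _)] at h4
    linarith
  -- the main estimate
  have hmain : ∀ τ : ℝ, 0 < τ → M ≤ R + τ := by
    intro τ hτ
    obtain ⟨N, hN⟩ := exists_nat_gt (2 * ε / τ)
    have hNpos : (0 : ℝ) < N := lt_trans (by positivity) hN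
    set σ := min (τ / (4 * (N + 1))) (η - ρ k) with hσ
    have hσpos : 0 < σ := lt_min (by positivity) (by linarith)
    have hσ1 : σ ≤ τ / (4 * (N + 1)) := min_le_left _ _
    have hσ2 : σ ≤ η - ρ k := min_le_right _ _
    -- choose N indices
    have hbad : ({k' : ℤ | e * el (a y) g k' = 1} ∪ {0}).Finite := by
      refine Set.Finite.union ?_ (Set.finite_singleton _)
      refine Set.Subsingleton.finite ?_
      intro k1 h1 k2 h2
      apply el_inj F g hgy
      have h1' : e * el (a y) g k1 = 1 := h1
      have h2' : e * el (a y) g k2 = 1 := h2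
      exact mul_left_cancel (h1'.trans h2'.symm)
    have hinf' := (hinf σ hσpos).sdiff hbad
    obtain ⟨K, hK, hKN⟩ := hinf'.exists_subset_card_eq N
    have hKρ : ∀ k' ∈ K, ρ k' < σ := fun k' hk' => (hK hk').1
    have hK0 : ∀ k' ∈ K, k' ≠ 0 := fun k' hk' h => (hK hk').2 (Or.inr h)
    have hK1 : ∀ k' ∈ K, e * el (a y) g k' ≠ 1 := fun k' hk' h => (hK hk').2 (Or.inl h)
    let ψ : ℤ → ℤ → ℝ := fun k' j => max (φ (e * el (a y) g k') j - φ g j) 0
    have hψbd : ∀ k', Bd (ψ k') := fun k' => Bd.max' ((L.bd _).sub (L.bd _)) (Bd.const 0)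
    have hψ0 : ∀ k' j, 0 ≤ ψ k' j := fun k' j => le_max_right _ _
    have hψε : ∀ k' j, ψ k' j ≤ ε := by
      intro k' j
      refine max_le ?_ hε.le
      have := L.le (e * el (a y) g k') j
      have := L.nonneg g j
      linarith
    -- maximality of e * el
    have hB1 : ∀ k' ∈ K, BL (φ (e * el (a y) g k')) = M := by
      intro k' hk'
      refine (hmax _ (hK1 k' hk')).2 ?_
      have h1 : BL (φ g - fun _ => (ρ k + ρ k')) ≤ BL (φ (e * el (a y) g k')) := by
        refine BL_isMean.mono _ _ ((L.bd _).sub (Bd.const _)) (L.bd _) ?_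
        intro j
        simp only [Pi.sub_apply]
        refine le_trans ?_ (L.mul e (el (a y) g k') j)
        have := hφe' j
        have := hA1 k' j
        have := hρ.nonneg k
        have := hρ.nonneg k'
        exact le_min (by linarith) (by linarith)
      rw [BL_isMean.sub _ _ (L.bd _) (Bd.const _), BL_const] at h1
      have := hKρ k' hk'
      linarith
    have hB2 : ∀ k' ∈ K, M ≤ R + 2 * σ + BL (ψ k') := by
      intro k' hk'
      have hbm : Bd (fun j => min (φ g j) (φ e j)) := Bd.min' (L.bd _) (L.bd _)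
      have hba : Bd (fun j => |φ (el (a y) g k') j - φ g j|) :=
        Bd.abs' (f := φ (el (a y) g k') - φ g) ((L.bd _).sub (L.bd _))
      have h1 : BL (φ (e * el (a y) g k')) ≤
          BL (((fun j => min (φ g j) (φ e j)) + fun j => |φ (el (a y) g k') j - φ g j|) + ψ k') := by
        refine BL_isMean.mono _ _ (L.bd _) ((hbm.add hba).add (hψbd k')) ?_
        intro j
        simp only [Pi.add_apply]
        have h2 := L.mul (e * el (a y) g k') (el (a y) g k')⁻¹ j
        rw [L.inv, mul_inv_cancel_right] at h2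
        have h3 : φ (e * el (a y) g k') j ≤ min (φ (e * el (a y) g k') j) (φ g j) + ψ k' j := by
          rcases le_total (φ (e * el (a y) g k') j) (φ g j) with h | h
          · rw [min_eq_left h]
            have := hψ0 k' j
            linarith
          · rw [min_eq_right h]
            have : φ (e * el (a y) g k') j - φ g j ≤ ψ k' j := le_max_left _ _
            linarith
        have h4 : min (φ (e * el (a y) g k') j) (φ g j) ≤
            min (φ g j) (φ e j) + |φ (el (a y) g k') j - φ g j| := by
          have h5 := abs_nonneg (φ (el (a y) g k') j - φ g j)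
          have h6 := neg_abs_le (φ (el (a y) g k') j - φ g j)
          have h7 : min (φ (e * el (a y) g k') j) (φ g j) ≤
              min (φ (e * el (a y) g k') j) (φ (el (a y) g k') j) +
                |φ (el (a y) g k') j - φ g j| := by
            rw [← min_add_add_right]
            refine le_min ?_ ?_
            · have := min_le_left (φ (e * el (a y) g k') j) (φ g j)
              linarith
            · have := min_le_right (φ (e * el (a y) g k') j) (φ g j)
              linarith
          rw [← min_add_add_right]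
          refine le_min ?_ ?_
          · have := min_le_right (φ (e * el (a y) g k') j) (φ g j)
            linarith
          · linarith
        linarith
      rw [hB1 k' hk', BL_isMean.add _ _ (hbm.add hba) (hψbd k'), BL_isMean.add _ _ hbm hba] at h1
      have h2 := hA3 k' (hK0 k' hk')
      have h3 := hKρ k' hk'
      linarith
    have hB3 : ∑ k' ∈ K, BL (ψ k') ≤ ε + N * (N * (2 * σ)) := by
      have hbmm : ∀ k' k'' : ℤ, Bd (fun j => min (ψ k' j) (ψ k'' j)) :=
        fun k' k'' => Bd.min' (hψbd _) (hψbd _)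
      have hbs : ∀ k' : ℤ, Bd (∑ k'' ∈ K.erase k', fun j => min (ψ k' j) (ψ k'' j)) :=
        fun k' => Bd.sum _ _ (fun k'' => hbmm k' k'')
      have h1 : BL (∑ k' ∈ K, ψ k') ≤
          BL ((fun _ => ε) + ∑ k' ∈ K, ∑ k'' ∈ K.erase k', fun j => min (ψ k' j) (ψ k'' j)) := by
        refine BL_isMean.mono _ _ (Bd.sum K _ hψbd) ((Bd.const _).add (Bd.sum K _ hbs)) ?_
        intro j
        have := sum_le_max_add K (fun k' => ψ k' j) ε hε.le (fun k' => hψ0 k' j)
          (fun k' => hψε k' j)
        simpa [Finset.sum_apply] using this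
      rw [BL_sum K _ hψbd, BL_isMean.add _ _ (Bd.const _) (Bd.sum K _ hbs), BL_const,
        BL_sum K _ hbs] at h1
      refine h1.trans ?_
      gcongr
      calc ∑ k' ∈ K, BL (∑ k'' ∈ K.erase k', fun j => min (ψ k' j) (ψ k'' j))
          ≤ ∑ k' ∈ K, (N : ℝ) * (2 * σ) := by
            refine Finset.sum_le_sum (fun k' hk' => ?_)
            rw [BL_sum _ _ (fun k'' => hbmm k' k'')]
            calc ∑ k'' ∈ K.erase k', BL (fun j => min (ψ k' j) (ψ k'' j))
                ≤ ∑ k'' ∈ K.erase k', 2 * σ := by
                  refine Finset.sum_le_sum (fun k'' hk'' => ?_)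
                  have hk2 := Finset.mem_erase.mp hk''
                  refine le_trans ?_ (hA4 k' k'' hk2.1.symm σ (hKρ k' hk') (hKρ k'' hk2.2))
                  refine BL_isMean.mono _ _ (hbmm _ _)
                    (Bd.max' ((L.bd _).sub (L.bd _)) (Bd.const 0)) ?_
                  intro j
                  have h5 := L.mul (e * el (a y) g k')⁻¹ (e * el (a y) g k'') j
                  have h6 : (e * el (a y) g k')⁻¹ * (e * el (a y) g k'') =
                      (el (a y) g k')⁻¹ * el (a y) g k'' := by group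
                  rw [L.inv, h6] at h5
                  simp only [ψ]
                  rcases le_total (φ (e * el (a y) g k') j) (φ (e * el (a y) g k'') j) with h | h
                  · rw [min_eq_left h] at h5
                    refine (min_le_left _ _).trans ?_
                    exact max_le_max (by linarith) le_rfl
                  · rw [min_eq_right h] at h5
                    refine (min_le_right _ _).trans ?_
                    exact max_le_max (by linarith) le_rfl
              _ = (K.erase k').card * (2 * σ) := by simp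
              _ ≤ (N : ℝ) * (2 * σ) := by
                  gcongr
                  rw [← hKN]
                  exact_mod_cast Finset.card_erase_le
        _ = N * (N * (2 * σ)) := by simp [hKN]
    have hB4 : (N : ℝ) * M ≤ N * (R + 2 * σ) + ∑ k' ∈ K, BL (ψ k') := by
      have h1 : ∑ k' ∈ K, M ≤ ∑ k' ∈ K, (R + 2 * σ + BL (ψ k')) :=
        Finset.sum_le_sum (fun k' hk' => hB2 k' hk')
      rw [Finset.sum_add_distrib, Finset.sum_const, Finset.sum_const, hKN, nsmul_eq_mul,
        nsmul_eq_mul] at h1
      exact h1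
    have hB5 : 2 * ε < N * τ := by
      rw [div_lt_iff₀ hτ] at hN
      exact hN
    have hB6 : σ * (4 * (N + 1)) ≤ τ := by
      rw [le_div_iff₀ (by positivity)] at hσ1
      exact hσ1
    have hB7 : (N : ℝ) * M ≤ N * (R + τ) := by
      have h1 : (N : ℝ) * (σ * (4 * (N + 1))) ≤ N * τ := by gcongr
      nlinarith
    exact le_of_mul_le_mul_left hB7 hNpos
  have hMR : M ≤ R := le_of_forall_pos_le_add hmain
  -- conclusion
  by_contra hcon
  push Not at hcon
  have hbm : Bd (fun j => min (φ g j) (φ e j)) := Bd.min' (L.bd _) (L.bd _)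
  have hbf : Bd (φ g - fun j => min (φ g j) (φ e j)) := (L.bd _).sub hbm
  have h1 : 0 < BL (φ g - fun j => min (φ g j) (φ e j)) := by
    refine BL_pos hρ _ hbf ?_ ?_ j ?_
    · intro n
      simp only [Pi.sub_apply]
      have := min_le_left (φ g n) (φ e n)
      linarith
    · intro n n'
      simp only [Pi.sub_apply, hφe]
      have h2 := L.lip g n n'
      have h3 := L.lip g (n' - k) (n - k)
      have h4 : n - k - (n' - k) = -(n' - n) := by ring
      rw [h4, hρ.neg] at h3
      have h5 := L.lip g n' n
      have h6 : n - n' = -(n' - n) := by ring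
      rw [h6, hρ.neg] at h5
      have h7 := hρ.nonneg (n' - n)
      rcases le_total (φ g n) (φ g (n - k)) with h | h
      · rw [min_eq_left h]
        have := min_le_left (φ g n') (φ g (n' - k))
        linarith
      · rw [min_eq_right h]
        have := min_le_right (φ g n') (φ g (n' - k))
        linarith
    · simp only [Pi.sub_apply, hφe]
      rw [min_eq_right hcon.le]
      linarith
  rw [BL_isMean.sub _ _ (L.bd _) hbm] at h1
  linarith

end ext

end Pool.Agent.Helper37_Frob
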