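import Mathlib
import Pool.Agent.Helper37_Frob.Petal

set_option autoImplicit false

open Filter Topology

namespace Pool.Agent.Helper37_Frob

section sys

variable {G : Type*} [Group G]

theorem neumann (S T g : G) (h1 : Commute T S) (h2 : Commute (T * g) (S * g)) :
    Commute (T * S⁻¹) g := by
  have h3 : T * g * S = S * g * T := by
    have h4 : (T * g * S) * g = (S * g * T) * g := by
      calc (T * g * S) * g = (T * g) * (S * g) := by group
        _ = (S * g) * (T * g) := h2.eq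
        _ = _ := by group
    exact mul_right_cancel h4
  have h5 : T * S⁻¹ = S⁻¹ * T := (h1.inv_right).eq
  rw [Commute, SemiconjBy]
  calc T * S⁻¹ * g = S⁻¹ * (T * g * S) * S⁻¹ := by rw [h5]; group
    _ = S⁻¹ * (S * g * T) * S⁻¹ := by rw [h3]
    _ = g * (T * S⁻¹) := by group

/-- The subgroups attached to Bohr balls. -/
def SS (β γ : G) (ρ : ℤ → ℝ) (k : ℤ) (δ : ℝ) : Subgroup G :=
  Subgroup.closure {g | ∃ m n : ℤ, ρ (m - k) < δ ∧ ρ (n - k) < δ ∧ g = hh β γ m n}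

variable {β γ : G} {ρ : ℤ → ℝ}

theorem SS_mono (k : ℤ) {δ δ' : ℝ} (h : δ ≤ δ') : SS β γ ρ k δ ≤ SS β γ ρ k δ' := by
  apply Subgroup.closure_mono
  rintro g ⟨m, n, hm, hn, rfl⟩
  exact ⟨m, n, hm.trans_le h, hn.trans_le h, rfl⟩

theorem SS_lip (hρ : BohrNorm ρ) (k k' : ℤ) (δ : ℝ) :
    SS β γ ρ k δ ≤ SS β γ ρ k' (δ + ρ (k - k')) := by
  apply Subgroup.closure_mono
  rintro g ⟨m, n, hm, hn, rfl⟩
  refine ⟨m, n, ?_, ?_, rfl⟩
  · have := hρ.add (m - k) (k - k')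
    rw [sub_add_sub_cancel] at this
    linarith
  · have := hρ.add (n - k) (k - k')
    rw [sub_add_sub_cancel] at this
    linarith

theorem SS_conj (k v : ℤ) (δ : ℝ) (g : G) (hg : g ∈ SS β γ ρ k δ) :
    β ^ v * g * β ^ (-v) ∈ SS β γ ρ (k + v) δ := by
  induction hg using Subgroup.closure_induction with
  | mem g hg =>
    obtain ⟨m, n, hm, hn, rfl⟩ := hg
    rw [hh_conj]
    refine Subgroup.subset_closure ⟨m + v, n + v, ?_, ?_, rfl⟩
    · rwa [add_sub_add_right_eq_sub]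
    · rwa [add_sub_add_right_eq_sub]
  | one => simp
  | mul x y _ _ hx hy =>
    have := mul_mem hx hy
    have h2 : β ^ v * (x * y) * β ^ (-v) = β ^ v * x * β ^ (-v) * (β ^ v * y * β ^ (-v)) := by
      group
    rw [h2]; exact this
  | inv x _ hx =>
    have := inv_mem hx
    have h2 : β ^ v * x⁻¹ * β ^ (-v) = (β ^ v * x * β ^ (-v))⁻¹ := by group
    rw [h2]; exact this

theorem SS_conj_iff (k v : ℤ) (δ : ℝ) (g : G) :
    β ^ v * g * β ^ (-v) ∈ SS β γ ρ (k + v) δ ↔ g ∈ SS β γ ρ k δ := by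
  constructor
  · intro h
    have h1 := SS_conj (k + v) (-v) δ _ h
    have h2 : β ^ (-v) * (β ^ v * g * β ^ (-v)) * β ^ (- -v) = g := by group
    rw [h2, add_neg_cancel_right] at h1
    exact h1
  · exact SS_conj k v δ g

theorem commute_conj_zpow (v : ℤ) (g g' : G) (h : Commute g g') :
    Commute (β ^ v * g * β ^ (-v)) (β ^ v * g' * β ^ (-v)) := by
  rw [zpow_neg]
  exact (Commute.conj_iff _).mpr h

/-- Generators commute asymptotically. -/
theorem gen_comm (Q : Set ℤ) (p : Ultrafilter ℤ) (ε : ℝ)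
    (hQ : ∀ p1 ∈ Q, ∀ p2 ∈ Q, ∀ p3 ∈ Q, ∀ p4 ∈ Q, Commute (hh β γ p1 p2) (hh β γ p3 p4))
    (hW : ∀ k a b : ℤ, ρ k < ε → ρ a < ε → ρ b < ε →
        ∀ᶠ v in (p : Filter ℤ), ∀ᶠ v' in (p : Filter ℤ),
          ∃ s : ℤ, k + s ∈ Q ∧ (a + v) + s ∈ Q ∧ (b + v') + s ∈ Q)
    (k l a b : ℤ) (hk : ρ k < ε) (hl : ρ l < ε) (ha : ρ a < ε) (hb : ρ b < ε) :
    ∀ᶠ v in (p : Filter ℤ), Commute (hh β γ (a + v) (b + v)) (hh β γ k l) := by
  have H1 : ∀ k a b : ℤ, ρ k < ε → ρ a < ε → ρ b < ε →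
      ∀ᶠ v in (p : Filter ℤ), ∀ᶠ v' in (p : Filter ℤ),
        Commute (hh β γ (a + v) k) (hh β γ (b + v') k) := by
    intro k a b hk ha hb
    filter_upwards [hW k a b hk ha hb] with v hv
    filter_upwards [hv] with v' hv'
    obtain ⟨s, h1, h2, h3⟩ := hv'
    have h4 := commute_conj_zpow (β := β) (-s) _ _ (hQ _ h2 _ h1 _ h3 _ h1)
    rw [hh_conj, hh_conj] at h4
    simpa using h4
  have H2 : ∀ a b : ℤ, ρ a < ε → ρ b < ε →
      ∀ᶠ v in (p : Filter ℤ), ∀ᶠ v' in (p : Filter ℤ),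
        Commute (hh β γ (a + v) (b + v')) (hh β γ k l) := by
    intro a b ha hb
    filter_upwards [H1 k a b hk ha hb, H1 l a b hl ha hb] with v h1 h2
    filter_upwards [h1, h2] with v' h3 h4
    have h5 := neumann (hh β γ (b + v') k) (hh β γ (a + v) k) (hh β γ k l) h3
      (by rw [hh_mul, hh_mul]; exact h4)
    rw [hh_inv, hh_mul] at h5
    exact h5
  obtain ⟨v1, h1, h2⟩ := ((H2 a b ha hb).and (H2 a a ha ha)).exists
  filter_upwards [h1, h2] with v h3 h4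
  have h5 : hh β γ (a + v) (b + v) = (hh β γ (a + v1) (a + v))⁻¹ * hh β γ (a + v1) (b + v) := by
    rw [hh_inv, hh_mul]
  rw [h5]
  exact (h4.inv_left).mul_left h3

theorem asymp (p : Ultrafilter ℤ) (ε : ℝ)
    (hgen : ∀ k l a b : ℤ, ρ k < ε → ρ l < ε → ρ a < ε → ρ b < ε →
      ∀ᶠ v in (p : Filter ℤ), Commute (hh β γ (a + v) (b + v)) (hh β γ k l))
    (g g' : G) (hg : g ∈ SS β γ ρ 0 ε) (hg' : g' ∈ SS β γ ρ 0 ε) :
    ∀ᶠ v in (p : Filter ℤ), Commute (β ^ v * g * β ^ (-v)) g' := by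
  have h1 : ∀ a b : ℤ, ρ a < ε → ρ b < ε → ∀ g' ∈ SS β γ ρ 0 ε,
      ∀ᶠ v in (p : Filter ℤ), Commute (β ^ v * hh β γ a b * β ^ (-v)) g' := by
    intro a b ha hb g' hg'
    induction hg' using Subgroup.closure_induction with
    | mem g' hg' =>
      obtain ⟨m, n, hm, hn, rfl⟩ := hg'
      rw [sub_zero] at hm hn
      filter_upwards [hgen m n a b hm hn ha hb] with v hv
      rw [hh_conj]
      exact hv
    | one => exact Eventually.of_forall (fun v => Commute.one_right _)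
    | mul x y _ _ hx hy =>
      filter_upwards [hx, hy] with v h1 h2
      exact h1.mul_right h2
    | inv x _ hx =>
      filter_upwards [hx] with v h1
      exact h1.inv_right
  induction hg using Subgroup.closure_induction with
  | mem g hg =>
    obtain ⟨m, n, hm, hn, rfl⟩ := hg
    rw [sub_zero] at hm hn
    exact h1 m n hm hn g' hg'
  | one => exact Eventually.of_forall (fun v => by simp)
  | mul x y _ _ hx hy =>
    filter_upwards [hx, hy] with v h1 h2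
    have h3 : β ^ v * (x * y) * β ^ (-v) = β ^ v * x * β ^ (-v) * (β ^ v * y * β ^ (-v)) := by
      group
    rw [h3]
    exact h1.mul_left h2
  | inv x _ hx =>
    filter_upwards [hx] with v h1
    have h3 : β ^ v * x⁻¹ * β ^ (-v) = (β ^ v * x * β ^ (-v))⁻¹ := by group
    rw [h3]
    exact h1.inv_left

theorem asymp' (p : Ultrafilter ℤ) (ε : ℝ)
    (hgen : ∀ k l a b : ℤ, ρ k < ε → ρ l < ε → ρ a < ε → ρ b < ε →
      ∀ᶠ v in (p : Filter ℤ), Commute (hh β γ (a + v) (b + v)) (hh β γ k l))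
    (j : ℤ) (g g' : G) (hg : g ∈ SS β γ ρ j ε) (hg' : g' ∈ SS β γ ρ j ε) :
    ∀ᶠ v in (p : Filter ℤ), Commute (β ^ v * g * β ^ (-v)) g' := by
  have h1 := SS_conj j (-j) ε g hg
  have h2 := SS_conj j (-j) ε g' hg'
  rw [add_neg_cancel] at h1 h2
  filter_upwards [asymp p ε hgen _ _ h1 h2] with v hv
  have h3 := commute_conj_zpow (β := β) j _ _ hv
  have h4 : β ^ j * (β ^ v * (β ^ (-j) * g * β ^ (- -j)) * β ^ (-v)) * β ^ (-j) =
      β ^ v * g * β ^ (-v) := by group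
  have h5 : β ^ j * (β ^ (-j) * g' * β ^ (- -j)) * β ^ (-j) = g' := by group
  rw [h4, h5] at h3
  exact h3

end sys

section lev

variable {G : Type*} [Group G]

/-- The level function. -/
noncomputable def lev (β γ : G) (ρ : ℤ → ℝ) (ε : ℝ) (g : G) (k : ℤ) : ℝ :=
  sSup {t : ℝ | 0 ≤ t ∧ t ≤ ε ∧ (t = 0 ∨ g ∈ SS β γ ρ k (ε - t))}

variable {β γ : G} {ρ : ℤ → ℝ} {ε : ℝ}

theorem lev_bdd (g : G) (k : ℤ) :
    BddAbove {t : ℝ | 0 ≤ t ∧ t ≤ ε ∧ (t = 0 ∨ g ∈ SS β γ ρ k (ε - t))} :=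
  ⟨ε, fun _ ht => ht.2.1⟩

theorem lev_nonempty (hε : 0 ≤ ε) (g : G) (k : ℤ) :
    {t : ℝ | 0 ≤ t ∧ t ≤ ε ∧ (t = 0 ∨ g ∈ SS β γ ρ k (ε - t))}.Nonempty :=
  ⟨0, le_rfl, hε, Or.inl rfl⟩

theorem lev_ge (g : G) (k : ℤ) (t : ℝ) (h0 : 0 ≤ t) (h1 : t ≤ ε)
    (h : g ∈ SS β γ ρ k (ε - t)) : t ≤ lev β γ ρ ε g k :=
  le_csSup (lev_bdd g k) ⟨h0, h1, Or.inr h⟩

theorem lev_nonneg (hε : 0 ≤ ε) (g : G) (k : ℤ) : 0 ≤ lev β γ ρ ε g k :=
  le_csSup (lev_bdd g k) ⟨le_rfl, hε, Or.inl rfl⟩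

theorem lev_le (hε : 0 ≤ ε) (g : G) (k : ℤ) : lev β γ ρ ε g k ≤ ε :=
  csSup_le (lev_nonempty hε g k) (fun _ ht => ht.2.1)

theorem lev_mem (hε : 0 ≤ ε) (g : G) (k : ℤ) (t : ℝ) (h0 : 0 ≤ t) (h : t < lev β γ ρ ε g k) :
    g ∈ SS β γ ρ k (ε - t) := by
  obtain ⟨t', ht', htt⟩ := exists_lt_of_lt_csSup (lev_nonempty hε g k) h
  rcases ht'.2.2 with h1 | h1
  · linarith
  · exact SS_mono k (by linarith) h1

end lev

section level

variable {G Ω ι : Type*} [Group G] [MulAction G Ω] {a : Ω → G} {c : Ω → Ω → ι}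
  (F : FrobData a c)

include F in
theorem hh_fix (y z : Ω) (hyz : y ≠ z) (m n : ℤ) (hmn : m ≠ n) :
    hh (a y) (a z) m n • y ≠ y := by
  intro h
  simp only [hh, mul_smul] at h
  rw [F.pow_fix] at h
  have h1 : (a z ^ (n - m)) • y = y := by
    have h2 := congrArg (fun w => (a y ^ (-m)) • w) h
    simp only [← mul_smul, ← mul_assoc, ← zpow_add] at h2
    rw [neg_add_cancel, zpow_zero, one_mul, F.pow_fix] at h2
    exact h2
  exact hyz (F.pow_ne z y (n - m) (sub_ne_zero.mpr hmn.symm) h1)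

include F in
/-- The subgroups attached to small Bohr balls are semiregular. -/
theorem semireg (y z : Ω) (hyz : y ≠ z) (ρ : ℤ → ℝ) (hρ : BohrNorm ρ) (p : Ultrafilter ℤ) (ε : ℝ)
    (hε : 0 < ε) (hp : ∀ k : ℤ, ∀ᶠ v in (p : Filter ℤ), v ≠ k)
    (hpρ : ∀ δ : ℝ, 0 < δ → ∀ᶠ v in (p : Filter ℤ), ρ v < δ)
    (hgen : ∀ k l m n : ℤ, ρ k < ε → ρ l < ε → ρ m < ε → ρ n < ε →
      ∀ᶠ v in (p : Filter ℤ), Commute (hh (a y) (a z) (m + v) (n + v)) (hh (a y) (a z) k l))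
    (j : ℤ) (g : G) (hg : g ∈ SS (a y) (a z) ρ j ε) (hg1 : g ≠ 1) (w : Ω) : g • w ≠ w := by
  intro hw
  obtain ⟨k, hk0, hkρ⟩ := ((hp 0).and (hpρ ε hε)).exists
  have h0ρ : ρ 0 < ε := by rw [hρ.zero]; exact hε
  have hgen0 : hh (a y) (a z) 0 k ∈ SS (a y) (a z) ρ 0 ε :=
    Subgroup.subset_closure ⟨0, k, by rw [sub_zero]; exact h0ρ, by rw [sub_zero]; exact hkρ, rfl⟩
  have hgenj : a y ^ j * hh (a y) (a z) 0 k * a y ^ (-j) ∈ SS (a y) (a z) ρ j ε := by
    have := SS_conj 0 j ε _ hgen0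
    rwa [zero_add] at this
  have h1 := asymp' p ε hgen j _ g hgenj hg
  -- for these v, the element fixes w
  have h2 : ∀ᶠ v in (p : Filter ℤ),
      hh (a y) (a z) 0 k • ((a y ^ (-(v + j))) • w) = (a y ^ (-(v + j))) • w := by
    filter_upwards [h1] with v hv
    have h3 : a y ^ v * (a y ^ j * hh (a y) (a z) 0 k * a y ^ (-j)) * a y ^ (-v) =
        a y ^ (v + j) * hh (a y) (a z) 0 k * a y ^ (-(v + j)) := by group
    rw [h3] at hv
    set u := a y ^ (v + j) * hh (a y) (a z) 0 k * a y ^ (-(v + j)) with hu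
    have h4 : u • w = w := by
      by_contra hne
      apply hg1
      apply F.fix g (u • w) w hne _ hw
      rw [← mul_smul, ← hv.eq, mul_smul, hw]
    have h5 := congrArg (fun x => (a y ^ (-(v + j))) • x) h4
    simp only [hu, ← mul_smul, ← mul_assoc, ← zpow_add] at h5
    rw [neg_add_cancel, zpow_zero, one_mul, mul_smul] at h5
    exact h5
  obtain ⟨v, hv⟩ := h2.exists
  obtain ⟨v', hv', hvv⟩ := (h2.and (hp v)).exists
  have hne1 : hh (a y) (a z) 0 k ≠ 1 := by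
    intro h
    apply hh_fix F y z hyz 0 k (Ne.symm hk0)
    rw [h, one_smul]
  have h3 : (a y ^ (-(v + j))) • w = (a y ^ (-(v' + j))) • w := by
    by_contra hne
    exact hne1 (F.fix _ _ _ hne hv hv')
  have h4 : w = y := by
    by_contra hwy
    have := F.pow_smul_inj y w hwy _ _ h3
    exact hvv (by omega)
  rw [h4, F.pow_fix] at hv
  exact hh_fix F y z hyz 0 k (Ne.symm hk0) hv

include F in
theorem level_lev (y z : Ω) (hyz : y ≠ z) (ρ : ℤ → ℝ) (hρ : BohrNorm ρ) (p : Ultrafilter ℤ)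
    (ε : ℝ) (hε : 0 < ε) (hp : ∀ k : ℤ, ∀ᶠ v in (p : Filter ℤ), v ≠ k)
    (hpρ : ∀ δ : ℝ, 0 < δ → ∀ᶠ v in (p : Filter ℤ), ρ v < δ)
    (hgen : ∀ k l m n : ℤ, ρ k < ε → ρ l < ε → ρ m < ε → ρ n < ε →
      ∀ᶠ v in (p : Filter ℤ), Commute (hh (a y) (a z) (m + v) (n + v)) (hh (a y) (a z) k l)) :
    Level y (a y) ρ ε (lev (a y) (a z) ρ ε) where
  nonneg := lev_nonneg hε.le
  le := lev_le hε.le
  mul := by
    intro g g' k
    by_contra hcon
    push Not at hcon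
    obtain ⟨t, ht1, ht2⟩ := exists_between hcon
    have h0 := lev_nonneg (β := a y) (γ := a z) (ρ := ρ) hε.le (g * g') k
    have ht0 : 0 ≤ t := h0.trans ht1.le
    have h1 := lev_mem hε.le g k t ht0 (ht2.trans_le (min_le_left _ _))
    have h2 := lev_mem hε.le g' k t ht0 (ht2.trans_le (min_le_right _ _))
    have h3 : t ≤ ε := (ht2.le.trans (min_le_left _ _)).trans (lev_le hε.le g k)
    have h4 := lev_ge (g * g') k t ht0 h3 (mul_mem h1 h2)
    linarith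
  inv := by
    intro g k
    simp only [lev, inv_mem_iff]
  equiv := by
    intro g v k
    simp only [lev, SS_conj_iff]
  lip := by
    intro g k k'
    by_contra hcon
    push Not at hcon
    obtain ⟨t, ht1, ht2⟩ := exists_between hcon
    have h0 := lev_nonneg (β := a y) (γ := a z) (ρ := ρ) hε.le g k'
    have ht0 : 0 ≤ t := h0.trans ht1.le
    have hρ0 := hρ.nonneg (k' - k)
    have h1 := lev_mem hε.le g k (t + ρ (k' - k)) (by linarith) (by linarith)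
    have h2 := SS_lip (β := a y) (γ := a z) hρ k k' (ε - (t + ρ (k' - k))) h1
    have h3 : ε - (t + ρ (k' - k)) + ρ (k - k') = ε - t := by
      have : ρ (k - k') = ρ (k' - k) := by rw [← hρ.neg, neg_sub]
      rw [this]; ring
    rw [h3] at h2
    have h4 := lev_le (β := a y) (γ := a z) (ρ := ρ) hε.le g k
    have h5 := lev_ge g k' t ht0 (by linarith) h2
    linarith
  inj := by
    intro g g' k hg hg' hgg
    have h1 := lev_mem hε.le g k 0 le_rfl hg
    have h2 := lev_mem hε.le g' k 0 le_rfl hg'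
    rw [sub_zero] at h1 h2
    by_contra hne
    have h3 := mul_mem (inv_mem h1) h2
    refine semireg F y z hyz ρ hρ p ε hε hp hpρ hgen k (g⁻¹ * g') h3 ?_ y ?_
    · intro h
      exact hne (inv_mul_eq_one.mp h)
    · rw [mul_smul, ← hgg, inv_smul_smul]
  exi := by
    obtain ⟨k, hk0, hkρ⟩ := ((hp 0).and (hpρ (ε / 2) (by positivity))).exists
    refine ⟨hh (a y) (a z) 0 k, 0, ?_, ?_⟩
    · intro h
      apply hh_fix F y z hyz 0 k (Ne.symm hk0)
      rw [h, one_smul]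
    · have h1 : ε / 2 ≤ lev (a y) (a z) ρ ε (hh (a y) (a z) 0 k) 0 := by
        refine lev_ge _ _ _ (by positivity) (by linarith) ?_
        refine Subgroup.subset_closure ⟨0, k, ?_, ?_, rfl⟩
        · rw [sub_zero, hρ.zero]; linarith
        · rw [sub_zero]; linarith
      linarith

end level

end Pool.Agent.Helper37_Frob
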