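import Mathlib
import Pool.Agent.Helper37_Frob.Sys
import Pool.Agent.Helper37_Frob.Grp2

set_option autoImplicit false

open Filter Topology

namespace Pool.Agent.Helper37_Frob

section final

variable {G Ω ι : Type*} [Group G] [MulAction G Ω] {a : Ω → G} {c : Ω → Ω → ι}
  (F : FrobData a c)

/-- The contradiction from a periodic element. -/
theorem periodic_contra [Finite ι] (F : FrobData a c) (y z : Ω) (hyz : y ≠ z) (ρ : ℤ → ℝ)
    (hρ : BohrNorm ρ) (p : Ultrafilter ℤ)
    (ε : ℝ) (hε : 0 < ε) (hp : ∀ k : ℤ, ∀ᶠ v in (p : Filter ℤ), v ≠ k)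
    (hpk : ∀ k : ℤ, k ≠ 0 → ∀ᶠ v in (p : Filter ℤ), k ∣ v)
    (hpρ : ∀ δ : ℝ, 0 < δ → ∀ᶠ v in (p : Filter ℤ), ρ v < δ)
    (hgen : ∀ k l m n : ℤ, ρ k < ε → ρ l < ε → ρ m < ε → ρ n < ε →
      ∀ᶠ v in (p : Filter ℤ), Commute (hh (a y) (a z) (m + v) (n + v)) (hh (a y) (a z) k l))
    (g : G) (hg : g ≠ 1) (k : ℤ) (hk : k ≠ 0) (j : ℤ)
    (hgk : ∀ n : ℤ, a y ^ (k * n) * g * a y ^ (-(k * n)) ∈ SS (a y) (a z) ρ j ε) : False := by
  classical
  set β := a y with hβ
  set S := SS (a y) (a z) ρ j ε with hS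
  have hsr := semireg F y z hyz ρ hρ p ε hε hp hpρ hgen j
  let K : Subgroup G := Subgroup.closure
    (Set.range (fun n : ℤ => β ^ (k * n) * g * β ^ (-(k * n))))
  have hKS : K ≤ S := by
    rw [Subgroup.closure_le]
    rintro _ ⟨n, rfl⟩
    exact hgk n
  have hKinv : ∀ (n : ℤ) (x : G), x ∈ K → β ^ (k * n) * x * (β ^ (k * n))⁻¹ ∈ K := by
    intro n x hx
    induction hx using Subgroup.closure_induction with
    | mem x hx =>
      obtain ⟨m, rfl⟩ := hx
      refine Subgroup.subset_closure ⟨n + m, ?_⟩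
      simp only
      rw [mul_add, zpow_add]
      group
    | one => simp
    | mul x x' _ _ hx hx' =>
      have h := mul_mem hx hx'
      have h2 : β ^ (k * n) * (x * x') * (β ^ (k * n))⁻¹ =
          β ^ (k * n) * x * (β ^ (k * n))⁻¹ * (β ^ (k * n) * x' * (β ^ (k * n))⁻¹) := by group
      rw [h2]; exact h
    | inv x _ hx =>
      have h := inv_mem hx
      have h2 : β ^ (k * n) * x⁻¹ * (β ^ (k * n))⁻¹ =
          (β ^ (k * n) * x * (β ^ (k * n))⁻¹)⁻¹ := by group
      rw [h2]; exact h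
  let B : ℤ → K →* K := fun n =>
    ((MulAut.conj (β ^ (k * n))).toMonoidHom.comp K.subtype).codRestrict K
      (fun x => hKinv n x x.2)
  have hBv : ∀ (n : ℤ) (x : K), ((B n x : K) : G) = β ^ (k * n) * x * (β ^ (k * n))⁻¹ :=
    fun n x => rfl
  have hKne : ∀ x : K, x ≠ 1 → (x : G) • y ≠ y := by
    intro x hx
    apply hsr x (hKS x.2)
    intro h
    exact hx (Subtype.ext h)
  have hKinj : ∀ x x' : K, (x : G) • y = (x' : G) • y → x = x' := by
    intro x x' h
    by_contra hne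
    refine hKne (x⁻¹ * x') ?_ ?_
    · intro h'
      exact hne (inv_mul_eq_one.mp h')
    · push_cast
      rw [mul_smul, ← h, inv_smul_smul]
  have hω : ∀ j : ι, ∃ w : Ω, (∃ w', c y w' = j) → c y w = j := by
    intro j
    by_cases h : ∃ w', c y w' = j
    · obtain ⟨w', hw'⟩ := h
      exact ⟨w', fun _ => hw'⟩
    · exact ⟨y, fun h' => absurd h' h⟩
  choose ω hω using hω
  have hN : ∀ x : K, ∃ n : ℤ, (x : G) • y = (β ^ n) • ω (c y ((x : G) • y)) := by
    intro x
    have h1 : c y (ω (c y ((x : G) • y))) = c y ((x : G) • y) := hω _ ⟨_, rfl⟩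
    exact F.rot _ _ _ h1
  choose N hN using hN
  have : NeZero k.natAbs := ⟨Int.natAbs_ne_zero.mpr hk⟩
  let col : K → ι × ZMod k.natAbs := fun x => (c y ((x : G) • y), (N x : ZMod k.natAbs))
  have hk2 : ∀ v : ℤ, k ∣ v → k * (v / k) = v := fun v hv => Int.mul_ediv_cancel' hv
  refine grp_contra (K := K) (B := B) (κ := ι × ZMod k.natAbs) (col := col) ⟨?_, ?_⟩ ?_ ?_
    (p.map (fun v => v / k)) ?_ ?_ ⟨g, Subgroup.subset_closure ⟨0, by simp⟩⟩ ?_
  · intro x
    apply Subtype.ext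
    rw [hBv]; simp
  · intro m n x
    apply Subtype.ext
    rw [hBv, hBv, hBv, mul_add, zpow_add]
    group
  · intro n x hn hx
    by_contra hx1
    have h1 := hKne x hx1
    apply h1
    have h2 := congrArg Subtype.val hx
    rw [hBv] at h2
    apply F.pow_ne y _ (k * n) (mul_ne_zero hk hn)
    have h3 : (β ^ (k * n)) * x = x * β ^ (k * n) := by
      exact mul_inv_eq_iff_eq_mul.mp h2
    rw [← mul_smul]
    change ((β ^ (k * n)) * (x : G)) • y = _
    rw [h3, mul_smul, F.pow_fix]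
  · intro x x' h
    have h1 : c y ((x : G) • y) = c y ((x' : G) • y) := congrArg Prod.fst h
    have h2 : (N x : ZMod k.natAbs) = (N x' : ZMod k.natAbs) := congrArg Prod.snd h
    rw [ZMod.intCast_eq_intCast_iff_dvd_sub, Int.natAbs_dvd] at h2
    obtain ⟨s, hs⟩ := h2
    refine ⟨s, hKinj _ _ ?_⟩
    rw [hBv, mul_smul, mul_smul]
    have h3 : (β ^ (k * s))⁻¹ • y = y := by
      rw [inv_smul_eq_iff, F.pow_fix]
    rw [h3, hN x, hN x', ← h1, ← mul_smul, ← zpow_add, ← hs]
    congr 2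
    ring
  · intro n
    change ∀ᶠ v in (p : Filter ℤ), v / k ≠ n
    filter_upwards [hp (k * n), hpk k hk] with v hv1 hv2 h
    apply hv1
    rw [← h, hk2 v hv2]
  · intro x x'
    change ∀ᶠ v in (p : Filter ℤ), Commute (B (v / k) x) x'
    filter_upwards [asymp' p ε hgen j x x' (hKS x.2) (hKS x'.2), hpk k hk] with v hv1 hv2
    apply Subtype.ext
    push_cast
    rw [hBv, hk2 v hv2, ← zpow_neg]
    exact hv1.eq
  · intro h
    exact hg (congrArg Subtype.val h)

/-- There is no transitive Frobenius group with infinite cyclic point stabilizers having only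
finitely many orbits. -/
theorem frob_contra [Finite ι] (F : FrobData a c) (o e0 : Ω) (hoe : o ≠ e0) : False := by
  obtain ⟨x, y, z, m, hm, hyz, hpos⟩ := exists_mean F o e0 hoe
  -- reflect the mean
  let m' : (ℤ → ℝ) → ℝ := fun f => m (fun n => f (-n))
  have hm' : IsMean m' := by
    refine ⟨?_, ?_, ?_, ?_⟩
    · intro f g hf hg
      exact hm.add _ _ (hf.comp _) (hg.comp _)
    · intro r f hf
      exact hm.smul _ _ (hf.comp _)
    · intro f hf h0
      exact hm.nonneg _ (hf.comp _) (fun n => h0 _)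
    · intro f hf
      change m (fun n => f (-n + 1)) = m (fun n => f (-n))
      rw [← hm.shift' (fun n => f (-n)) (hf.comp _) (-1)]
      congr 1
      ext n
      congr 1
      ring
  let Q : Set ℤ := {n | c x ((a y ^ (-n)) • z) = c x y}
  have hQpos : 0 < m' (Q.indicator 1) := by
    change 0 < m (fun n => Q.indicator 1 (-n))
    have : (fun n : ℤ => Q.indicator (1 : ℤ → ℝ) (-n)) =
        Set.indicator {n : ℤ | c x ((a y ^ n) • z) = c x y} 1 := by
      ext n
      have h1 : (-n ∈ Q) = (n ∈ {n : ℤ | c x ((a y ^ n) • z) = c x y}) := by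
        simp only [Q, Set.mem_ofPred_eq]
        rw [neg_neg]
      by_cases h : n ∈ {n : ℤ | c x ((a y ^ n) • z) = c x y}
      · rw [Set.indicator_of_mem h, Set.indicator_of_mem (h1 ▸ h)]
        rfl
      · rw [Set.indicator_of_notMem h, Set.indicator_of_notMem (h1 ▸ h)]
    rw [this]
    exact hpos
  obtain ⟨ρ, p, ε, hρ, hε, hpρ, hpk, hp, hW⟩ := bohr_of_mean m' hm' Q hQpos
  have hQ : ∀ p1 ∈ Q, ∀ p2 ∈ Q, ∀ p3 ∈ Q, ∀ p4 ∈ Q,
      Commute (hh (a y) (a z) p1 p2) (hh (a y) (a z) p3 p4) :=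
    fun p1 h1 p2 h2 p3 h3 p4 h4 => star F x y z p1 p2 p3 p4 h1 h2 h3 h4
  have hgen := fun k l m n => gen_comm Q p ε hQ hW k l m n
  have L := level_lev F y z hyz ρ hρ p ε hε hp hpρ hgen
  obtain ⟨g, η, hg, hgpos, hη, hmax⟩ := L.exists_max F hρ
  have hinf : ∀ δ : ℝ, 0 < δ → {k : ℤ | ρ k < δ}.Infinite := by
    intro δ hδ hfin
    have h1 : ∀ᶠ v in (p : Filter ℤ), v ∉ {k : ℤ | ρ k < δ} := by
      have h2 : ∀ᶠ v in (p : Filter ℤ), ∀ k ∈ {k : ℤ | ρ k < δ}, v ≠ k :=
        (Filter.eventually_all_finite hfin).mpr (fun k _ => hp k)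
      filter_upwards [h2] with v hv hv'
      exact hv v hv' rfl
    obtain ⟨v, hv1, hv2⟩ := (h1.and (hpρ δ hδ)).exists
    exact hv1 hv2
  obtain ⟨k, hk0, hkη⟩ := ((hp 0).and (hpρ η hη)).exists
  have hs1 := L.one_sided F hρ hε hinf g η hg hgpos hmax k hkη
  have hs2 := L.one_sided F hρ hε hinf g η hg hgpos hmax (-k) (by rw [hρ.neg]; exact hkη)
  have hper1 : ∀ j, lev (a y) (a z) ρ ε g (j - k) = lev (a y) (a z) ρ ε g j := by
    intro j
    refine le_antisymm ?_ (hs1 j)
    have := hs2 (j - k)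
    rwa [sub_neg_eq_add, sub_add_cancel] at this
  have hpern : ∀ (n : ℕ) (j : ℤ), lev (a y) (a z) ρ ε g (j - k * n) = lev (a y) (a z) ρ ε g j := by
    intro n
    induction n with
    | zero => intro j; simp
    | succ n ih =>
      intro j
      have h1 : j - k * ((n + 1 : ℕ) : ℤ) = (j - k * n) - k := by push_cast; ring
      rw [h1, hper1, ih]
  have hperz : ∀ (n : ℤ) (j : ℤ), lev (a y) (a z) ρ ε g (j - k * n) = lev (a y) (a z) ρ ε g j := by
    intro n j
    obtain ⟨i, rfl | rfl⟩ := n.eq_nat_or_neg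
    · exact hpern i j
    · have h1 := hpern i (j - k * (-(i : ℤ)))
      rw [← h1]
      congr 1
      ring
  obtain ⟨j, hj⟩ : ∃ j, 0 < lev (a y) (a z) ρ ε g j := by
    by_contra hcon
    push Not at hcon
    have h1 : lev (a y) (a z) ρ ε g = fun _ => 0 := by
      ext j; exact le_antisymm (hcon j) (L.nonneg g j)
    rw [h1, BL_const] at hgpos
    exact lt_irrefl _ hgpos
  refine periodic_contra F y z hyz ρ hρ p ε hε hp hpk hpρ hgen g hg k hk0 j ?_
  intro n
  have h1 := L.conj_apply g (k * n) j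
  rw [hperz] at h1
  have h2 : 0 < lev (a y) (a z) ρ ε (a y ^ (k * n) * g * a y ^ (-(k * n))) j := by
    rw [h1]; exact hj
  have h3 := lev_mem hε.le _ j 0 le_rfl h2
  rwa [sub_zero] at h3

end final

end Pool.Agent.Helper37_Frob
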