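import Mathlib
import Pool.Agent.Helper37_Frob.Final

set_option autoImplicit false

namespace Pool.Agent.Helper37_Frob

theorem main_contra {G X : Type*} [Group G] [MulAction G X] [Infinite X]
    [MulAction.IsPretransitive G X]
    (hfix : ∀ g : G, ∀ x y : X, x ≠ y → g • x = x → g • y = y → g = 1) (o : X)
    (hcyc : IsCyclic (MulAction.stabilizer G o))
    (hfin : Finite (MulAction.orbitRel.Quotient (MulAction.stabilizer G o) X)) : False := by
  classical
  obtain ⟨a0, ha0⟩ := hcyc.exists_generator
  have hgen : ∀ g : G, g • o = o ↔ ∃ n : ℤ, g = (a0 : G) ^ n := by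
    intro g
    constructor
    · intro hg
      obtain ⟨n, hn⟩ := Subgroup.mem_zpowers_iff.mp (ha0 ⟨g, MulAction.mem_stabilizer_iff.mpr hg⟩)
      refine ⟨n, ?_⟩
      have := congrArg Subtype.val hn
      push_cast at this
      exact this.symm
    · rintro ⟨n, rfl⟩
      have : (a0 : G) ^ n ∈ MulAction.stabilizer G o := Subgroup.zpow_mem _ a0.2 n
      exact MulAction.mem_stabilizer_iff.mp this
  -- the stabilizer is infinite
  have hinf : ¬ Finite (MulAction.stabilizer G o) := by
    intro hfinst
    have h1 : (Set.univ : Set X) = ⋃ q : MulAction.orbitRel.Quotient (MulAction.stabilizer G o) X,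
        MulAction.orbit (MulAction.stabilizer G o) (Quotient.out q) := by
      ext x
      simp only [Set.mem_univ, Set.mem_iUnion, true_iff]
      refine ⟨Quotient.mk'' x, ?_⟩
      have h2 : (MulAction.orbitRel (MulAction.stabilizer G o) X) x
          (Quotient.out (Quotient.mk'' x : MulAction.orbitRel.Quotient
            (MulAction.stabilizer G o) X)) := by
        exact Setoid.symm' _ (Quotient.mk_out x)
      exact h2
    have h2 : (Set.univ : Set X).Finite := by
      rw [h1]
      exact Set.finite_iUnion (fun q => Set.finite_range _)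
    exact Set.infinite_univ h2
  have hord : ∀ n : ℤ, (a0 : G) ^ n = 1 → n = 0 := by
    intro n hn
    by_contra hn0
    apply hinf
    have h1 : IsOfFinOrder a0 := by
      rw [isOfFinOrder_iff_zpow_eq_one]
      exact ⟨n, hn0, Subtype.ext (by push_cast; exact hn)⟩
    have h2 : (Subgroup.zpowers a0 : Set (MulAction.stabilizer G o)).Finite :=
      Set.Finite.subset (h1.finite_zpowers) (le_refl _)
    have h3 : (Subgroup.zpowers a0 : Set (MulAction.stabilizer G o)) = Set.univ := by
      ext x
      simp [ha0 x]
    rw [h3] at h2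
    exact Set.finite_univ_iff.mp h2
  have htr : ∀ x : X, ∃ g : G, g • o = x := fun x => MulAction.exists_smul_eq G o x
  choose t ht using htr
  let a : X → G := fun x => t x * a0 * (t x)⁻¹
  have ha : ∀ (x : X) (n : ℤ), a x ^ n = t x * a0 ^ n * (t x)⁻¹ := fun x n => conj_zpow
  let c : X → X → MulAction.orbitRel.Quotient G (X × X) := fun x y => Quotient.mk'' (x, y)
  have hfinι : Finite (MulAction.orbitRel.Quotient G (X × X)) := by
    have hcol : ∀ w w' : X, (MulAction.orbitRel (MulAction.stabilizer G o) X) w w' →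
        c o w = c o w' := by
      rintro w w' ⟨g, hg⟩
      refine Quotient.sound ?_
      refine ⟨(g : G), ?_⟩
      have h1 : (g : G) • o = o := MulAction.mem_stabilizer_iff.mp g.2
      have h2 : (g : G) • w' = w := hg
      change ((g : G) • o, (g : G) • w') = (o, w)
      rw [h1, h2]
    refine Finite.of_surjective (Quotient.lift (fun w => c o w) hcol) ?_
    intro q
    induction q using Quotient.inductionOn with
    | h p =>
      obtain ⟨x, y⟩ := p
      refine ⟨Quotient.mk'' ((t x)⁻¹ • y), ?_⟩
      change c o ((t x)⁻¹ • y) = c x y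
      refine Quotient.sound ?_
      refine ⟨(t x)⁻¹, ?_⟩
      change ((t x)⁻¹ • x, (t x)⁻¹ • y) = (o, (t x)⁻¹ • y)
      have : (t x)⁻¹ • x = o := by rw [inv_smul_eq_iff, ht]
      rw [this]
  have F : FrobData a c := by
    refine ⟨hfix, ?_, ?_, ?_, ?_, ?_⟩
    · intro g x
      have h1 : (((t x)⁻¹ * g⁻¹ * t (g • x)) : G) • o = o := by
        rw [mul_smul, mul_smul, ht, inv_smul_smul, inv_smul_eq_iff, ht]
      obtain ⟨n, hn⟩ := (hgen _).mp h1
      have h2 : t (g • x) = g * t x * a0 ^ n := by rw [← hn]; group
      change t (g • x) * a0 * (t (g • x))⁻¹ = g * (t x * a0 * (t x)⁻¹) * g⁻¹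
      rw [h2]
      group
    · intro g x
      constructor
      · intro h
        have h1 : (((t x)⁻¹ * g * t x) : G) • o = o := by
          rw [mul_smul, mul_smul, ht, h, inv_smul_eq_iff, ht]
        obtain ⟨n, hn⟩ := (hgen _).mp h1
        refine ⟨n, ?_⟩
        rw [ha, ← hn]; group
      · rintro ⟨n, rfl⟩
        rw [ha, mul_smul, mul_smul]
        have h1 : (t x)⁻¹ • x = o := by rw [inv_smul_eq_iff, ht]
        rw [h1, (hgen _).mpr ⟨n, rfl⟩, ht]
    · intro x n h
      rw [ha] at h
      apply hord
      have h1 : (a0 : G) ^ n = (t x)⁻¹ * (t x * a0 ^ n * (t x)⁻¹) * t x := by group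
      rw [h1, h]; group
    · intro x y x' y'
      constructor
      · intro h
        have h1 : (MulAction.orbitRel G (X × X)) (x, y) (x', y') := Quotient.exact h
        obtain ⟨g, hg⟩ := h1
        have h2 : (g • x', g • y') = (x, y) := hg
        have h3 : g • x' = x := congrArg Prod.fst h2
        have h4 : g • y' = y := congrArg Prod.snd h2
        exact ⟨g⁻¹, by rw [inv_smul_eq_iff, h3], by rw [inv_smul_eq_iff, h4]⟩
      · rintro ⟨g, rfl, rfl⟩
        refine Quotient.sound ?_
        refine ⟨g⁻¹, ?_⟩
        change (g⁻¹ • (g • x), g⁻¹ • (g • y)) = (x, y)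
        rw [inv_smul_smul, inv_smul_smul]
    · intro x y
      exact MulAction.exists_smul_eq G x y
  obtain ⟨e0, he0⟩ := exists_ne o
  exact frob_contra F o e0 he0.symm

end Pool.Agent.Helper37_Frob
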